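import Mathlib

/-!
# Dropping a few parts
-/

set_option autoImplicit false

namespace Pool.Agent.AMH

open Finset

open Classical in
private theorem Keep_aux {F I : Type} [DecidableEq F] [DecidableEq I] (pt : F → I) (A : Finset F)
    (a : ℕ) : ∃ D : Finset I, (A.filter fun f => pt f ∉ D).card ≤ a ∧ D.card ≤ A.card - a := by
  obtain ⟨S, hS, hc⟩ := Finset.exists_subset_card_eq (s := A) (Nat.sub_le A.card a)
  refine ⟨S.image pt, ?_, Finset.card_image_le.trans hc.le⟩
  have h1 : (A.filter fun f => pt f ∉ S.image pt) ⊆ A \ S := by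
    intro f hf
    rw [Finset.mem_filter] at hf
    rw [Finset.mem_sdiff]
    exact ⟨hf.1, fun h => hf.2 (Finset.mem_image_of_mem pt h)⟩
  refine (Finset.card_le_card h1).trans ?_
  rw [Finset.card_sdiff_of_subset hS, hc]
  omega

open Classical in
/-- Parts can be dropped such that at most `a` slots with `P` and at most `b` slots without `P` remain.
Proof: drop parts with slots of the type that has too many slots, one after the other; every dropped
part has a slot of this type. -/
theorem exists_keep {F I : Type} [Fintype F] [DecidableEq F] [Fintype I] [DecidableEq I]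
    (pt : F → I) (P : F → Prop) (a b : ℕ) :
    ∃ Ik : Finset I,
      (univ.filter fun f => pt f ∈ Ik ∧ P f).card ≤ a ∧
      (univ.filter fun f => pt f ∈ Ik ∧ ¬ P f).card ≤ b ∧
      (univ \ Ik).card ≤ ((univ.filter fun f => P f).card - a) +
        ((univ.filter fun f => ¬ P f).card - b) := by
  obtain ⟨D1, h1, h1'⟩ := Keep_aux pt (univ.filter fun f => P f) a
  obtain ⟨D2, h2, h2'⟩ := Keep_aux pt (univ.filter fun f => ¬ P f) b
  refine ⟨univ \ (D1 ∪ D2), ?_, ?_, ?_⟩
  · refine (Finset.card_le_card ?_).trans h1
    intro f hf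
    simp only [Finset.mem_filter, Finset.mem_univ, Finset.mem_sdiff, Finset.mem_union, true_and,
      not_or] at hf ⊢
    exact ⟨hf.2, hf.1.1⟩
  · refine (Finset.card_le_card ?_).trans h2
    intro f hf
    simp only [Finset.mem_filter, Finset.mem_univ, Finset.mem_sdiff, Finset.mem_union, true_and,
      not_or] at hf ⊢
    exact ⟨hf.2, hf.1.2⟩
  · have h3 : (univ \ (univ \ (D1 ∪ D2)) : Finset I) = D1 ∪ D2 := by
      ext x
      simp
    rw [h3]
    exact (Finset.card_union_le _ _).trans (Nat.add_le_add h1' h2')

end Pool.Agent.AMH
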