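import Pool.Agent.AMH.LoadsG

/-!
# The output of the theorem on part systems

Adaptation of `AMX/Br3.lean` (`val_fm`, `val_fb`, `Br_key`, `Br_out`).
-/

set_option autoImplicit false
set_option linter.unusedSectionVars false
set_option linter.unusedVariables false

namespace Pool.Agent.AMH

open Finset
open Pool.Agent.AME
open Pool.Agent.AMA (Frm val)

variable {F W I : Type} [Fintype F] [DecidableEq F] [Fintype W] [DecidableEq W] [Fintype I]
  [DecidableEq I] {p : ℕ} {s : ℕ}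
  {S : PSG F W I p} {L : Pools} {ι : F → Fin s} {Ik : Finset I} {Sp : Finset F} {k B : ℕ}

/-- the labels are in their windows -/
private theorem OutB_win {D : LD} {R : ℕ} (hD : DOk (s := s) S L Ik Sp D R)
    {κ : Kn} {md : Fin (3 * D.q)} {a : ℕ} (h : 0 < D.wt κ md a) :
    (κ = 0 → 1 ≤ a ∧ a ≤ L.NH) ∧ (κ ≠ 0 → L.NH + 1 ≤ a ∧ a ≤ L.NH + L.NL) := by
  have h1 : D.lo (tyK κ) + posK D.q κ md * D.h (tyK κ) ≤ a ∧
      a < D.lo (tyK κ) + (posK D.q κ md + D.w) * D.h (tyK κ) := by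
    by_contra hc
    unfold LD.wt at h
    rw [if_neg hc] at h
    exact lt_irrefl _ h
  have h2 := posK_lt hD.ok.q0 κ md
  have h3 : (posK D.q κ md + D.w) * D.h (tyK κ) ≤ (3 * D.q + D.w - 1) * D.h (tyK κ) :=
    Nat.mul_le_mul_right _ (by omega)
  constructor
  · intro hk
    have ht : tyK κ = true := by simp [tyK, hk]
    rw [ht] at h1 h3
    have h4 := hD.poolH
    have h5 := hD.loH
    have h6 : D.lo true ≤ a := le_trans (Nat.le_add_right _ _) h1.1
    omega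
  · intro hk
    have ht : tyK κ = false := by simp [tyK, hk]
    rw [ht] at h1 h3
    have h4 := hD.poolL
    have h5 := hD.loL
    have h6 : D.lo false ≤ a := le_trans (Nat.le_add_right _ _) h1.1
    omega

private theorem OutB_xwin (H : GB S ι Sp k B) {D : LD} {R : ℕ} (hD : DOk (s := s) S L Ik Sp D R)
    {Pm : Finset I} {x : I → Fin s → ℕ}
    (hpos : ∀ Q ∈ Pm, ∃ md, 0 < D.om md ∧
      ∀ i κ, (gsys S L ι Ik Sp).kd Q i = some κ → 0 < D.wt κ md (x Q i)) {f : F}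
    (h1 : S.pt f ∈ Pm) (h2 : S.pt f ∈ Ik) :
    (S.kd f = 0 → 1 ≤ x (S.pt f) (ι f) ∧ x (S.pt f) (ι f) ≤ L.NH) ∧
      (S.kd f ≠ 0 → L.NH + 1 ≤ x (S.pt f) (ι f) ∧ x (S.pt f) (ι f) ≤ L.NH + L.NL) := by
  obtain ⟨md, -, h3⟩ := hpos _ h1
  exact OutB_win hD (h3 (ι f) (S.kd f) (gkd_some H h2))

/-- cast of a label -/
private theorem OutB_cast {κ : Kn} {a : ℕ} (hl : 1 ≤ L.loH)
    (h : (κ = 0 → 1 ≤ a) ∧ (κ ≠ 0 → L.NH + 1 ≤ a)) :
    (rl L κ a : ZMod p) = (a : ZMod p) + sh L p κ := by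
  unfold rl sh
  by_cases hk : κ = 0
  · rw [if_pos hk, if_pos hk, Nat.cast_sub (by omega)]
    push_cast
    ring
  · have h1 := h.2 hk
    rw [if_neg hk, if_neg hk, Nat.sub_sub, Nat.cast_sub (by omega)]
    push_cast
    ring

/-- `sh` only depends on the class -/
private theorem OutB_sh {κ : Kn} {j : Bool} (h : κ = 0 ↔ j = true) :
    sh L p κ = sh L p (if j = true then 0 else 1) := by
  by_cases hj : j = true
  · rw [if_pos hj, h.2 hj]
  · have hk : κ ≠ 0 := fun hk => hj (h.1 hk)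
    rw [if_neg hj]
    unfold sh
    rw [if_neg hk, if_neg (by decide)]

/-- the value of a vertex form -/
private theorem OutB_val_fm [NeZero p] (H : GB S ι Sp k B) (lab : F → ℕ) (x : Fin s → ℕ)
    (w : W) (hx : ∀ f ∈ S.slots w, (lab f : ZMod p) = (x (ι f) : ZMod p) + sh L p (S.kd f)) :
    ((val (gfm S L ι w) x : ℕ) : ZMod p) = S.sum lab w := by
  have h1 : val (gfm S L ι w) x = goff S L w + ∑ f ∈ S.slots w, x (ι f) := by
    unfold Pool.Agent.AMA.val
    congr 1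
    exact sum_image fun f hf g hg h => H.inj f g ((H.pt_of_mem hf).trans (H.pt_of_mem hg).symm) h
  rw [h1]
  push_cast
  rw [goff, ZMod.natCast_zmod_val, PSG.sum, sum_congr rfl hx, sum_add_distrib]
  ring

/-- the value of a gadget end form -/
private theorem OutB_val_fb [NeZero p] (H : GB S ι Sp k B) (lab : F → ℕ) (x : Fin s → ℕ)
    {f : F} {u : W} (hu : u ∈ S.en f)
    (hx : ∀ f ∈ S.slots u, (lab f : ZMod p) = (x (ι f) : ZMod p) + sh L p (S.kd f)) :
    ((val (gfb S L ι f u) x : ℕ) : ZMod p) = S.sum lab u - lab f + sh L p (S.kd f) := by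
  have hf : f ∈ S.slots u := mem_slots.2 hu
  have h1 : val (gfm S L ι u) x = val (gfb S L ι f u) x + x (ι f) := by
    have h2 := H.insert_fb (L := L) hu
    rw [← h2]
    unfold Pool.Agent.AMA.val
    simp only
    rw [sum_insert (H.notMem_fb hu)]
    ring
  have h3 := OutB_val_fm (L := L) H lab x u hx
  rw [h1] at h3
  push_cast at h3
  rw [← h3, hx f hf]
  ring

private theorem OutB_mod {a b : ℕ} : a % p = b % p ↔ (a : ZMod p) = (b : ZMod p) :=
  (ZMod.natCast_eq_natCast_iff' a b p).symm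

private theorem OutB_mem_T [NeZero p] {T : Bool → Finset ℕ} (hT : ∀ t, ∀ a ∈ T t, a < p) {a : ℕ} :
    (∀ t, a % p ∈ T t) ↔ (a : ZMod p) ∈ (T false ∩ T true).image (fun t : ℕ => (t : ZMod p)) := by
  rw [mem_image]
  constructor
  · intro h
    exact ⟨a % p, mem_inter.2 ⟨h _, h _⟩, by simp⟩
  · rintro ⟨t, ht, h⟩
    rw [mem_inter] at ht
    rw [← OutB_mod, Nat.mod_eq_of_lt (hT _ t ht.1)] at h
    intro b
    rw [← h]
    cases b
    · exact ht.1
    · exact ht.2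

/-- the small sums as natural numbers -/
private theorem OutB_rs (H : GB S ι Sp k B) (x : I → Fin s → ℕ) (w : W) :
    rs S L ι w (x (S.vp w)) =
      S.rsum (fun f => rl L (S.kd f) (x (S.pt f) (ι f))) w := by
  unfold rs PSG.rsum
  congr 1
  refine sum_congr rfl fun f hf => ?_
  simp only
  rw [H.pt_of_mem hf]

private theorem OutB_cf_lab (H : GB S ι Sp k B) {f : F} (hf : S.pt f ∈ Ik) :
    ((0 : Fin 3), (({ι f} : Finset (Fin s)), 0)) ∈ (gsys S L ι Ik Sp).cf (S.pt f) := by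
  unfold GSys.cf
  refine mem_union_left _ (mem_union_left _ (mem_image.2 ⟨ι f, ?_, rfl⟩))
  rw [mem_filter]
  refine ⟨mem_univ _, ?_⟩
  rw [gkd_some H hf]
  exact Option.some_ne_none _

private theorem OutB_cf_sum {w : W} (hw : S.vp w ∈ Ik) :
    ((1 : Fin 3), gfm S L ι w) ∈ (gsys S L ι Ik Sp).cf (S.vp w) := by
  unfold GSys.cf
  exact mem_union_left _ (mem_union_right _ (mem_image.2 ⟨_, mem_gS.2 ⟨hw, w, rfl, rfl⟩, rfl⟩))

private theorem OutB_cf_B {f : F} (hf : f ∈ Sp) (hI : S.pt f ∈ Ik) {u : W} (hu : u ∈ S.en f)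
    (h1 : (gfb S L ι f u).1.Nonempty)
    (h2 : ¬ ((gfb S L ι f u).1.card = 1 ∧ (gfb S L ι f u).2 ∈ (gsys S L ι Ik Sp).Z)) :
    ((2 : Fin 3), gfb S L ι f u) ∈ (gsys S L ι Ik Sp).cf (S.pt f) := by
  unfold GSys.cf
  refine mem_union_right _ (mem_image.2 ⟨_, ?_, rfl⟩)
  unfold GSys.Bf
  rw [mem_filter, mem_biUnion]
  exact ⟨⟨_, mem_gGd.2 ⟨hI, f, hf, rfl, rfl⟩, mem_image_of_mem _ hu⟩, h1, h2⟩

private theorem OutB_tt (H : GB S ι Sp k B) {x : I → Fin s → ℕ} {w : W}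
    (hI : S.vp w ∈ Ik) (hEx : (gsys S L ι Ik Sp).Ex (S.vp w) (x (S.vp w))) :
    (gsys S L ι Ik Sp).tg (S.vp w) (gfm S L ι w) (x (S.vp w)) = true ↔
      ¬ S.isLow L (fun f => rl L (S.kd f) (x (S.pt f) (ι f))) w := by
  classical
  have e1 : (gsys S L ι Ik Sp).tg (S.vp w) (gfm S L ι w) (x (S.vp w)) = true ↔
      ¬ ∃ w', S.vp w' = S.vp w ∧ gfm S L ι w' = gfm S L ι w ∧ w' ∈ S.lowv ∧
        (S.isS3 w' ∨ rs S L ι w' (x (S.vp w)) ≤ L.bb) := by
    unfold gsys
    simp only [decide_eq_true_eq]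
  rw [e1, not_iff_not]
  have hE := hEx hI w rfl
  constructor
  · rintro ⟨w', h1, h2, h3, h4⟩
    have hw : w' = w := H.fm_inj (L := L) h1 (congrArg Prod.fst h2)
    subst hw
    refine ⟨h3, ?_⟩
    rw [← OutB_rs H x w']
    rcases h4 with h4 | h4
    · exact (hE.1 h4).2
    · exact h4
  · rintro ⟨h3, h4⟩
    refine ⟨w, rfl, rfl, h3, Or.inr ?_⟩
    rw [OutB_rs H x w]
    exact h4

private theorem OutB_sum_fiber {α γ : Type*} [DecidableEq γ] [Fintype γ] (A : Finset α)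
    (f : α → γ) (P : Finset γ) (c : γ → ℕ) (h : ∀ Q ∈ P, c Q ≤ (A.filter fun a => f a = Q).card) :
    ∑ Q ∈ P, c Q ≤ A.card := by
  calc ∑ Q ∈ P, c Q ≤ ∑ Q ∈ P, (A.filter fun a => f a = Q).card := sum_le_sum h
    _ ≤ ∑ Q, (A.filter fun a => f a = Q).card := sum_le_sum_of_subset (subset_univ _)
    _ = A.card := (card_eq_sum_card_fiberwise (fun a _ => mem_coe.2 (mem_univ (f a)))).symm

/-- key multiplicities -/
private theorem OutB_key [NeZero p] (H : GB S ι Sp k B) {Pm : Finset I} {x : I → Fin s → ℕ}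
    (hdist : ∀ Q ∈ Pm, ∀ Q' ∈ Pm, ∀ u ∈ (gsys S L ι Ik Sp).cf Q, ∀ v ∈ (gsys S L ι Ik Sp).cf Q',
      (gsys S L ι Ik Sp).tt Q u (x Q) = (gsys S L ι Ik Sp).tt Q' v (x Q') →
      val u.2 (x Q) % p = val v.2 (x Q') % p → Q = Q' ∧ u = v)
    (lab : F → ℕ)
    (hcast : ∀ f, S.pt f ∈ Pm → S.pt f ∈ Ik →
      (lab f : ZMod p) = (x (S.pt f) (ι f) : ZMod p) + sh L p (S.kd f)) (y c : ZMod p)
    (K : Finset F)
    (hK : ∀ g ∈ K, g ∈ Sp ∧ S.pt g ∈ Pm ∧ S.pt g ∈ Ik ∧ sh L p (S.kd g) = c ∧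
      ∃ u ∈ S.en g, S.sum lab u - lab g = y) (b : Bool) (hb : b = false → ∀ g ∈ K, S.kd g ≠ 0) :
    K.card ≤ if b = true then B + 3 else 3 := by
  classical
  have hval : ∀ g ∈ K, ∀ u ∈ S.en g, S.sum lab u - lab g = y →
      ((val (gfb S L ι g u) (x (S.pt g)) : ℕ) : ZMod p) = y + c := by
    intro g hg u hu h
    obtain ⟨hS, hP, hI, hc, -⟩ := hK g hg
    rw [OutB_val_fb H lab (x (S.pt g)) hu, h, hc]
    intro f hf
    have e : S.pt f = S.pt g := (H.pt_of_mem hf).trans (H.ok.vp_eq g u hu).symm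
    have := hcast f (by rw [e]; exact hP) (by rw [e]; exact hI)
    rwa [e] at this
  have hch : ∀ g ∈ K, ∃ u ∈ S.en g, S.sum lab u - lab g = y := fun g hg => (hK g hg).2.2.2.2
  set z1 : ℕ := (2 * sh L p 0).val with hz1
  set z2 : ℕ := (sh L p 0 + sh L p 1).val with hz2
  have hZ : ∀ a, a ∈ (gsys S L ι Ik Sp).Z ↔ a = z1 ∨ a = z2 := by
    intro a
    show a ∈ ({z1, z2} : Finset ℕ) ↔ _
    rw [mem_insert, mem_singleton]
  set K1 := K.filter fun g => ∃ u ∈ S.en g, S.sum lab u - lab g = y ∧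
    (gfb S L ι g u).1 = ∅ with hK1
  set K2 : ℕ → Finset F := fun z => K.filter fun g => ∃ u ∈ S.en g, S.sum lab u - lab g = y ∧
    ((gfb S L ι g u).1.card = 1 ∧ (gfb S L ι g u).2 = z) with hK2
  set K3 := K.filter fun g => ∃ u ∈ S.en g, S.sum lab u - lab g = y ∧
    (gfb S L ι g u).1.Nonempty ∧
    ¬ ((gfb S L ι g u).1.card = 1 ∧ (gfb S L ι g u).2 ∈ (gsys S L ι Ik Sp).Z) with hK3
  have hcov : K ⊆ (K1 ∪ (K2 z1 ∪ K2 z2)) ∪ K3 := by
    intro g hg
    obtain ⟨u, hu, hy⟩ := hch g hg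
    by_cases h1 : (gfb S L ι g u).1 = ∅
    · exact mem_union_left _ (mem_union_left _ (mem_filter.2 ⟨hg, u, hu, hy, h1⟩))
    by_cases h2 : ((gfb S L ι g u).1.card = 1 ∧
        (gfb S L ι g u).2 ∈ (gsys S L ι Ik Sp).Z)
    · refine mem_union_left _ (mem_union_right _ ?_)
      rcases (hZ _).1 h2.2 with h3 | h3
      · exact mem_union_left _ (mem_filter.2 ⟨hg, u, hu, hy, h2.1, h3⟩)
      · exact mem_union_right _ (mem_filter.2 ⟨hg, u, hu, hy, h2.1, h3⟩)
    · exact mem_union_right _ (mem_filter.2 ⟨hg, u, hu, hy, nonempty_iff_ne_empty.2 h1, h2⟩)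
  have hc0 : b = false → K1.card = 0 := by
    intro hbf
    rw [card_eq_zero, eq_empty_iff_forall_notMem]
    intro g hg
    obtain ⟨hgK, u, hu, -, h3⟩ := mem_filter.1 hg
    have h4 := H.fb_card (L := L) hu
    rw [h3, card_empty] at h4
    have hf : g ∈ S.slots u := mem_slots.2 hu
    have h5 : 1 ≤ (S.slots u).card := card_pos.2 ⟨g, hf⟩
    rcases H.types_card u with ⟨⟨f, h6, h7⟩, -⟩ | ⟨-, h6⟩ | ⟨-, h6⟩ | ⟨-, h6⟩ | ⟨-, h6⟩
    · rw [h6, mem_singleton] at hf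
      exact hb hbf g hgK (hf ▸ h7)
    all_goals omega
  have hc1 : K1.card ≤ B := by
    refine le_trans ?_ (H.ok.mult y)
    have hch1 : ∀ g ∈ K1, ∃ u, u ∈ S.en g ∧ S.sum lab u - lab g = y ∧ (gfb S L ι g u).1 = ∅ := by
      intro g hg
      obtain ⟨-, u, hu, h1, h2⟩ := mem_filter.1 hg
      exact ⟨u, hu, h1, h2⟩
    rcases K1.eq_empty_or_nonempty with he | ⟨g0, hg0⟩
    · rw [he, card_empty]
      exact Nat.zero_le _
    have : Nonempty W := ⟨(hch1 g0 hg0).choose⟩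
    choose! φ hφ1 hφ2 hφ3 using hch1
    refine card_le_card_of_injOn φ ?_ ?_
    · intro g hg
      have hg' : g ∈ K1 := hg
      have hS : g ∈ Sp := (hK g (mem_filter.1 hg').1).1
      have hu := hφ1 g hg'
      have h4 := H.fb_card (L := L) hu
      rw [hφ3 g hg', card_empty] at h4
      have hf : g ∈ S.slots (φ g) := mem_slots.2 hu
      have h5 : 1 ≤ (S.slots (φ g)).card := card_pos.2 ⟨g, hf⟩
      have h6 : (S.slots (φ g)).card = 1 := by omega
      have h7 : S.slots (φ g) = {g} := by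
        obtain ⟨g', hg1⟩ := card_eq_one.1 h6
        rw [hg1] at hf ⊢
        rw [mem_singleton.1 hf]
      rw [mem_coe, mem_filter]
      refine ⟨mem_univ _, Or.inr ⟨g, hS, hu⟩, fun hz => ?_, by omega, ?_⟩
      · have := (H.ok.zt_zero _ hz).2
        omega
      · have h8 := hφ2 g hg'
        rw [← h8, PSG.sum, h7, sum_singleton]
        ring
    · intro g hg g' hg' h
      have hS : g ∈ Sp := (hK g (mem_filter.1 (mem_coe.1 hg)).1).1
      have hS' : g' ∈ Sp := (hK g' (mem_filter.1 (mem_coe.1 hg')).1).1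
      have hu := hφ1 g hg
      have hu' := hφ1 g' hg'
      rw [← h] at hu'
      exact H.gad_eq hS hS' hu hu'
  have hc2 : ∀ z, (K2 z).card ≤ 1 := by
    intro z
    rw [card_le_one]
    intro g hg g' hg'
    obtain ⟨hgK, u, hu, hy, hc, hz⟩ := mem_filter.1 hg
    obtain ⟨hgK', u', hu', hy', hc', hz'⟩ := mem_filter.1 hg'
    obtain ⟨hS, hP, hI, -⟩ := hK g hgK
    obtain ⟨hS', hP', hI', -⟩ := hK g' hgK'
    obtain ⟨j, hj⟩ := card_eq_one.1 hc
    obtain ⟨j', hj'⟩ := card_eq_one.1 hc'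
    have hv := hval g hgK u hu hy
    have hv' := hval g' hgK' u' hu' hy'
    have e1 : val (gfb S L ι g u) (x (S.pt g)) = z + x (S.pt g) j := by
      unfold Pool.Agent.AMA.val
      rw [hj, hz, sum_singleton]
    have e2 : val (gfb S L ι g' u') (x (S.pt g')) = z + x (S.pt g') j' := by
      unfold Pool.Agent.AMA.val
      rw [hj', hz', sum_singleton]
    rw [e1] at hv
    rw [e2, ← hv] at hv'
    push_cast at hv'
    have hxx : ((x (S.pt g') j' : ℕ) : ZMod p) = (x (S.pt g) j : ℕ) := add_left_cancel hv'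
    obtain ⟨f, hf, hfj⟩ := mem_image.1 (show j ∈ (gfb S L ι g u).1 by rw [hj]; simp)
    obtain ⟨f', hf', hfj'⟩ := mem_image.1 (show j' ∈ (gfb S L ι g' u').1 by rw [hj']; simp)
    have hpf : S.pt f = S.pt g := (H.pt_of_mem (mem_of_mem_erase hf)).trans
      (H.ok.vp_eq g u hu).symm
    have hpf' : S.pt f' = S.pt g' := (H.pt_of_mem (mem_of_mem_erase hf')).trans
      (H.ok.vp_eq g' u' hu').symm
    have m1 := OutB_cf_lab (L := L) (Ik := Ik) H (f := f) (by rw [hpf]; exact hI)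
    have m2 := OutB_cf_lab (L := L) (Ik := Ik) H (f := f') (by rw [hpf']; exact hI')
    rw [hpf] at m1
    rw [hpf'] at m2
    have hd := hdist (S.pt g) hP (S.pt g') hP' _ m1 _ m2 (by simp [GSys.tt]) (by
      simp only [Pool.Agent.AMA.val, sum_singleton, zero_add]
      rw [hfj, hfj', OutB_mod]
      exact hxx.symm)
    obtain ⟨hQ, hu2⟩ := hd
    have hjj : j = j' := by
      have h3 := congrArg (fun z => z.2.1) hu2
      simp only at h3
      rw [hfj, hfj'] at h3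
      simpa using h3
    have h4 : (gfb S L ι g u).1 = (gfb S L ι g' u').1 := by rw [hj, hj', hjj]
    exact (H.fb_keys hS hS' hQ hu hu' h4 (by rw [hj]; simp)).2
  have hc3 : K3.card ≤ 1 := by
    rw [card_le_one]
    intro g hg g' hg'
    obtain ⟨hgK, u, hu, hy, hne, hz⟩ := mem_filter.1 hg
    obtain ⟨hgK', u', hu', hy', hne', hz'⟩ := mem_filter.1 hg'
    obtain ⟨hS, hP, hI, -⟩ := hK g hgK
    obtain ⟨hS', hP', hI', -⟩ := hK g' hgK'
    have hv := hval g hgK u hu hy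
    have hv' := hval g' hgK' u' hu' hy'
    have m1 := OutB_cf_B hS hI hu hne hz
    have m2 := OutB_cf_B hS' hI' hu' hne' hz'
    obtain ⟨hQ, h2⟩ := hdist (S.pt g) hP (S.pt g') hP' _ m1 _ m2 (by simp [GSys.tt])
      (OutB_mod.2 (hv.trans hv'.symm))
    have h4 : (gfb S L ι g u).1 = (gfb S L ι g' u').1 :=
      congrArg (fun z => z.2.1) h2
    exact (H.fb_keys hS hS' hQ hu hu' h4 hne).2
  have h1 := card_le_card hcov
  have h2 := card_union_le (K1 ∪ (K2 z1 ∪ K2 z2)) K3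
  have h3 := card_union_le K1 (K2 z1 ∪ K2 z2)
  have h4 := card_union_le (K2 z1) (K2 z2)
  have h5 := hc2 z1
  have h6 := hc2 z2
  by_cases hbt : b = true
  · rw [if_pos hbt]
    omega
  · rw [if_neg hbt]
    have h7 := hc0 (by simpa using hbt)
    omega

open Classical in
/-- **Output.** `lab f = rl L (kd f) (x (pt f) (ι f))`, `T'` = the residues in `T false ∩ T true`,
`Im = Pm ∩ Ik`, `Gd j` = the gadgets of parts in `Im` with the condition `gGW j`. Key multiplicities: the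
value of the form of a gadget end without its gadget slot is `sum - lab g + sh (kd g)`, and
`sh (kd g)` only depends on the class of `g`; vertices with one slot: `B` (`mult`); exempt forms
(one slot, offset in `Z`): the virtual label of the remaining slot is determined by the offset: at most
two, `keys`; other forms have coordinates: at most one. -/
theorem outG_ok [NeZero p] (H : GB S ι Sp k B) {D : LD} {R n : ℕ} {β C κ : ℝ}
    (hD : DOk (s := s) S L Ik Sp D R) (hL : L.Ok S Sp k n β C κ)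
    {T : Bool → Finset ℕ} {Pm : Finset I} {x : I → Fin s → ℕ} {q : Bool → ℝ}
    (hpos : ∀ Q ∈ Pm, ∃ md, 0 < D.om md ∧
      ∀ i κ, (gsys S L ι Ik Sp).kd Q i = some κ → 0 < D.wt κ md (x Q i))
    (hEx : ∀ Q ∈ Pm, (gsys S L ι Ik Sp).Ex Q (x Q))
    (hdist : ∀ Q ∈ Pm, ∀ Q' ∈ Pm, ∀ u ∈ (gsys S L ι Ik Sp).cf Q, ∀ v ∈ (gsys S L ι Ik Sp).cf Q',
      (gsys S L ι Ik Sp).tt Q u (x Q) = (gsys S L ι Ik Sp).tt Q' v (x Q') →
      val u.2 (x Q) % p = val v.2 (x Q') % p → Q = Q' ∧ u = v)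
    (hnT : ∀ Q ∈ Pm, ∀ φ ∈ (gsys S L ι Ik Sp).S Q,
      val φ (x Q) % p ∉ T ((gsys S L ι Ik Sp).tg Q φ (x Q)))
    (hTlt : ∀ t, ∀ a ∈ T t, a < p)
    (htest : ∀ (j : Bool) (y π1 π2 : ℕ), q j ≤ ∑ Q ∈ Pm, ((((gsys S L ι Ik Sp).Gd Q).filter
      (fun g => GOK (gsys S L ι Ik Sp) p T Q (x Q) y π1 π2 g ∧
        gGW S L ι Ik Sp j Q g.1 (x Q))).card : ℝ)) :
    ∃ (T' : Finset (ZMod p)) (lab : F → ℕ) (Gd : Bool → Finset F),
      OutG S L Sp T' lab (Pm ∩ Ik) Gd q (B + 3) := by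
  set lab : F → ℕ := fun f => rl L (S.kd f) (x (S.pt f) (ι f)) with hlab
  have hloH : 1 ≤ L.loH := by
    have h1 := hL.loL1
    have h2 := hL.disj
    omega
  have hwin : ∀ f, S.pt f ∈ Pm → S.pt f ∈ Ik →
      (S.kd f = 0 → 1 ≤ x (S.pt f) (ι f) ∧ x (S.pt f) (ι f) ≤ L.NH) ∧
      (S.kd f ≠ 0 → L.NH + 1 ≤ x (S.pt f) (ι f) ∧ x (S.pt f) (ι f) ≤ L.NH + L.NL) :=
    fun f h1 h2 => OutB_xwin H hD hpos h1 h2
  have hcast : ∀ f, S.pt f ∈ Pm → S.pt f ∈ Ik →
      (lab f : ZMod p) = (x (S.pt f) (ι f) : ZMod p) + sh L p (S.kd f) := by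
    intro f h1 h2
    obtain ⟨h3, h4⟩ := hwin f h1 h2
    exact OutB_cast hloH ⟨fun h => (h3 h).1, fun h => (h4 h).1⟩
  have hcast' : ∀ i, i ∈ Pm → i ∈ Ik → ∀ f, S.pt f = i →
      (lab f : ZMod p) = (x i (ι f) : ZMod p) + sh L p (S.kd f) := by
    rintro _ h1 h2 f rfl
    exact hcast f h1 h2
  have hsum : ∀ w, S.vp w ∈ Pm → S.vp w ∈ Ik →
      ((val (gfm S L ι w) (x (S.vp w)) : ℕ) : ZMod p) = S.sum lab w := by
    intro w hw hw'
    exact OutB_val_fm H lab (x (S.vp w)) w fun f hf => hcast' _ hw hw' f (H.pt_of_mem hf)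
  have hrs : ∀ w, rs S L ι w (x (S.vp w)) = S.rsum lab w := fun w => OutB_rs H x w
  have hHr : ∀ f, S.pt f ∈ Pm → S.pt f ∈ Ik → S.kd f = 0 →
      L.loH ≤ lab f ∧ lab f < L.loH + L.NH ∧ lab f + 1 = x (S.pt f) (ι f) + L.loH := by
    intro f h1 h2 h3
    obtain ⟨h4, h5⟩ := (hwin f h1 h2).1 h3
    have h6 : lab f = x (S.pt f) (ι f) + L.loH - 1 := by
      rw [hlab]
      simp only [rl, if_pos h3]
    omega
  have hLr : ∀ f, S.pt f ∈ Pm → S.pt f ∈ Ik → S.kd f ≠ 0 →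
      L.loL ≤ lab f ∧ lab f < L.loL + L.NL ∧
        lab f + 1 + L.NH = x (S.pt f) (ι f) + L.loL := by
    intro f h1 h2 h3
    obtain ⟨h4, h5⟩ := (hwin f h1 h2).2 h3
    have h6 : lab f = x (S.pt f) (ι f) + L.loL - 1 - L.NH := by
      rw [hlab]
      simp only [rl, if_neg h3]
    have h7 := hL.loL1
    omega
  refine ⟨(T false ∩ T true).image fun t : ℕ => (t : ZMod p), lab,
    fun j => Sp.filter fun f => S.pt f ∈ Pm ∩ Ik ∧
      gGW S L ι Ik Sp j (S.pt f) (ι f) (x (S.pt f)), ?_⟩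
  have hgd : ∀ j, ∀ g ∈ Sp.filter (fun f => S.pt f ∈ Pm ∩ Ik ∧
      gGW S L ι Ik Sp j (S.pt f) (ι f) (x (S.pt f))), g ∈ Sp ∧ S.pt g ∈ Pm ∧ S.pt g ∈ Ik ∧
      (S.kd g = 0 ↔ j = true) ∧ (j = false → L.aa < 2 * lab g ∧
      ∀ u ∈ S.en g, (S.isS3 u ∨ S.isS4 u) → L.aa + lab g < S.rsum lab u) := by
    intro j g hg
    rw [mem_filter, mem_inter] at hg
    obtain ⟨h1, ⟨h2, h3⟩, f, hf, hpf, hif, h4, h5⟩ := hg
    have hfg : f = g := H.inj f g hpf hif
    subst hfg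
    refine ⟨h1, h2, h3, h4, fun hj => ⟨(h5 hj).1, fun u hu h6 => ?_⟩⟩
    have h7 := (h5 hj).2 u hu h6
    have h8 := H.ok.vp_eq f u hu
    rw [← hrs u, ← h8]
    exact h7
  refine
    { memH := ?_
      memL := ?_
      inj := ?_
      sinj := ?_
      nT := ?_
      star3 := ?_
      star4 := ?_
      gsub := fun j => filter_subset _ _
      gIm := ?_
      gH := ?_
      gL := ?_
      gstar := ?_
      key := ?_
      test := ?_ }
  · intro f hf h0
    rw [mem_inter] at hf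
    obtain ⟨h1, h2, -⟩ := hHr f hf.1 hf.2 h0
    exact ⟨h1, h2⟩
  · intro f hf h0
    rw [mem_inter] at hf
    obtain ⟨h1, h2, -⟩ := hLr f hf.1 hf.2 h0
    exact ⟨h1, h2⟩
  · intro f f' hf hf' h
    rw [mem_inter] at hf hf'
    have hx : x (S.pt f) (ι f) = x (S.pt f') (ι f') := by
      have hd := hL.disj
      by_cases h1 : S.kd f = 0 <;> by_cases h2 : S.kd f' = 0
      · obtain ⟨a1, a2, a3⟩ := hHr f hf.1 hf.2 h1
        obtain ⟨b1, b2, b3⟩ := hHr f' hf'.1 hf'.2 h2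
        omega
      · obtain ⟨a1, a2, a3⟩ := hHr f hf.1 hf.2 h1
        obtain ⟨b1, b2, b3⟩ := hLr f' hf'.1 hf'.2 h2
        omega
      · obtain ⟨a1, a2, a3⟩ := hLr f hf.1 hf.2 h1
        obtain ⟨b1, b2, b3⟩ := hHr f' hf'.1 hf'.2 h2
        omega
      · obtain ⟨a1, a2, a3⟩ := hLr f hf.1 hf.2 h1
        obtain ⟨b1, b2, b3⟩ := hLr f' hf'.1 hf'.2 h2
        omega
    obtain ⟨h1, h2⟩ := hdist _ hf.1 _ hf'.1 _ (OutB_cf_lab (L := L) (Ik := Ik) H hf.2) _
      (OutB_cf_lab (L := L) (Ik := Ik) H hf'.2) (by simp [GSys.tt]) (by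
        simp only [Pool.Agent.AMA.val, sum_singleton, zero_add]
        rw [hx])
    have h3 := congrArg (fun z => z.2.1) h2
    simp only [singleton_inj] at h3
    exact H.inj f f' h1 h3
  · intro w w' hw hw' hlow h
    rw [mem_inter] at hw hw'
    rw [← hsum w hw.1 hw.2, ← hsum w' hw'.1 hw'.2, ← OutB_mod] at h
    have t1 := OutB_tt (L := L) H (x := x) hw.2 (hEx _ hw.1)
    have t2 := OutB_tt (L := L) H (x := x) hw'.2 (hEx _ hw'.1)
    have t3 : (gsys S L ι Ik Sp).tg (S.vp w) (gfm S L ι w) (x (S.vp w)) =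
        (gsys S L ι Ik Sp).tg (S.vp w') (gfm S L ι w') (x (S.vp w')) := by
      rw [Bool.eq_iff_iff, t1, t2, not_iff_not]
      exact hlow
    obtain ⟨h1, h2⟩ := hdist _ hw.1 _ hw'.1 _ (OutB_cf_sum hw.2) _ (OutB_cf_sum hw'.2) (by
      simp [GSys.tt, t3]) h
    exact H.fm_inj h1 (congrArg (fun z => z.2.1) h2)
  · intro w hw
    rw [mem_inter] at hw
    rw [← hsum w hw.1 hw.2, ← OutB_mem_T hTlt]
    intro h
    exact hnT _ hw.1 _ (mem_gS.2 ⟨hw.2, w, rfl, rfl⟩) (h _)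
  · intro w hw h3
    rw [mem_inter] at hw
    have h1 := (hEx _ hw.1 hw.2 w rfl).1 h3
    rw [hrs w] at h1
    exact h1
  · intro w hw h4
    rw [mem_inter] at hw
    have h1 := (hEx _ hw.1 hw.2 w rfl).2 h4
    rw [hrs w] at h1
    exact h1
  · intro j g hg
    obtain ⟨-, h1, h2, -⟩ := hgd j g hg
    exact mem_inter.2 ⟨h1, h2⟩
  · intro g hg
    obtain ⟨-, -, -, h, -⟩ := hgd true g hg
    exact h.2 rfl
  · intro g hg
    obtain ⟨-, -, -, h, h'⟩ := hgd false g hg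
    exact ⟨fun h0 => by simpa using h.1 h0, (h' rfl).1⟩
  · intro g hg u hu h3
    obtain ⟨-, -, -, h, h'⟩ := hgd false g hg
    exact (h' rfl).2 u hu h3
  · intro j y
    refine OutB_key (L := L) H hdist lab hcast y (sh L p (if j = true then 0 else 1)) _ ?_ j ?_
    · intro g hg
      rw [mem_filter] at hg
      obtain ⟨h1, h2, h3, h4, -⟩ := hgd j g hg.1
      exact ⟨h1, h2, h3, OutB_sh h4, hg.2⟩
    · intro hj g hg
      rw [mem_filter] at hg
      obtain ⟨-, -, -, h4, -⟩ := hgd j g hg.1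
      exact fun h0 => by simpa [hj] using h4.1 h0
  · intro j C1 C2 l
    set c : ZMod p := sh L p (if j = true then 0 else 1) with hc
    refine (htest j ((l - c).val) ((C1 + c).val) ((C2 + c).val)).trans ?_
    have key := OutB_sum_fiber
      ((Sp.filter fun f => S.pt f ∈ Pm ∩ Ik ∧
        gGW S L ι Ik Sp j (S.pt f) (ι f) (x (S.pt f))).filter fun g =>
          VdG S ((T false ∩ T true).image fun t : ℕ => (t : ZMod p)) lab C1 C2 l g) S.pt Pm
      (fun Q => (((gsys S L ι Ik Sp).Gd Q).filter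
        (fun g => GOK (gsys S L ι Ik Sp) p T Q (x Q) ((l - c).val) ((C1 + c).val) ((C2 + c).val) g ∧
          gGW S L ι Ik Sp j Q g.1 (x Q))).card) (by
      intro Q hQ
      refine (card_le_card ?_).trans (card_image_le (f := fun f =>
        (ι f, (S.en f).image (gfb S L ι f))))
      intro g hg
      rw [mem_filter] at hg
      obtain ⟨hgG, hok, hgw⟩ := hg
      obtain ⟨hI, f, hf, hfi, rfl⟩ := mem_gGd.1 hgG
      refine mem_image.2 ⟨f, ?_, rfl⟩
      subst hfi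
      have hmem : f ∈ Sp.filter (fun f => S.pt f ∈ Pm ∩ Ik ∧
          gGW S L ι Ik Sp j (S.pt f) (ι f) (x (S.pt f))) :=
        mem_filter.2 ⟨hf, mem_inter.2 ⟨hQ, hI⟩, hgw⟩
      rw [mem_filter, mem_filter]
      refine ⟨⟨hmem, ?_⟩, rfl⟩
      obtain ⟨-, -, -, hkd, -⟩ := hgd j f hmem
      have hshc : sh L p (S.kd f) = c := OutB_sh hkd
      obtain ⟨-, h3, h4, h5, h7⟩ := hok
      simp only at h3 h4 h5 h7
      have e1 : ∀ C : ZMod p, (((C + c).val + x (S.pt f) (ι f) : ℕ) : ZMod p) =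
          C + lab f := by
        intro C
        push_cast
        rw [ZMod.natCast_zmod_val, hcast f hQ hI, hshc]
        ring
      have e2 : ∀ u ∈ S.en f, ((val (gfb S L ι f u) (x (S.pt f)) +
          (l - c).val : ℕ) : ZMod p) = S.sum lab u - lab f + l := by
        intro u hu
        push_cast
        rw [ZMod.natCast_zmod_val, OutB_val_fb H lab (x (S.pt f)) hu, hshc]
        · ring
        · intro g hg
          exact hcast' _ hQ hI g ((H.pt_of_mem hg).trans (H.ok.vp_eq f u hu).symm)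
      refine ⟨?_, ?_, ?_⟩
      · rw [← e1 C1, ← OutB_mem_T hTlt]
        exact fun t => (h5 t).1
      · rw [← e1 C2, ← OutB_mem_T hTlt]
        exact fun t => (h5 t).2
      · intro u hu
        have hm : gfb S L ι f u ∈ (S.en f).image (gfb S L ι f) := mem_image_of_mem _ hu
        refine ⟨?_, ?_, ?_⟩
        · rw [← e2 u hu, ← OutB_mem_T hTlt]
          exact fun t => h3 t _ hm
        · intro h8
          rw [← e2 u hu, ← e1 C1, ← OutB_mod] at h8
          exact (h7 _ hm).1 h8.symm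
        · intro h8
          rw [← e2 u hu, ← e1 C2, ← OutB_mod] at h8
          exact (h7 _ hm).2 h8.symm)
    exact_mod_cast key

end Pool.Agent.AMH
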