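import Pool.Agent.AMH.Struct
import Pool.Agent.AMH.OutB
import Pool.Agent.AMH.Keep
import Pool.Agent.AMX.Br3
import Pool.Agent.AME.Parts

/-!
# The theorem on part systems with high and low slots
-/

set_option autoImplicit false
set_option linter.unusedSectionVars false
set_option linter.unusedVariables false

namespace Pool.Agent.AMH

open Finset

/-- arithmetic of the block sizes -/
private theorem PTG_ar {q N h M : ℕ} (hM : M = 3 * q + 2999) (hh : h = N / M) (hq : 2000000 ≤ q)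
    (hN : 2002 * M ≤ N) :
    2002 ≤ h ∧ M * h ≤ N ∧ (N : ℝ) ≤ M * h + M ∧
    (N : ℝ) ≤ 1001 / 1000 * (3 * q * h : ℕ) ∧ 3 * q * h ≤ N ∧
    (((N - 3 * q * h : ℕ) : ℕ) : ℝ) ≤ 1000 * N / q + M := by
  have hM0 : 0 < M := by omega
  have h1 : 2002 ≤ h := by
    rw [hh, Nat.le_div_iff_mul_le hM0]
    exact hN
  have h2 : M * h ≤ N := by
    rw [hh]
    exact Nat.mul_div_le N M
  have h3 : N < M * (h + 1) := by
    rw [hh]
    exact Nat.lt_mul_div_succ N hM0
  have h3' : N ≤ M * h + M := by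
    rw [Nat.mul_add, Nat.mul_one] at h3
    exact h3.le
  have h4 : (N : ℝ) ≤ M * h + M := by exact_mod_cast h3'
  have h5 : 3 * q * h ≤ N := by
    refine le_trans ?_ h2
    apply Nat.mul_le_mul_right
    omega
  have hMr : (M : ℝ) = 3 * q + 2999 := by rw [hM]; push_cast; ring
  have hqr : (2000000 : ℝ) ≤ q := by exact_mod_cast hq
  have hhr : (2002 : ℝ) ≤ h := by exact_mod_cast h1
  refine ⟨h1, h2, h4, ?_, h5, ?_⟩
  · push_cast
    rw [hMr] at h4
    nlinarith [mul_nonneg (sub_nonneg.2 hqr) (by linarith : (0 : ℝ) ≤ h),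
      mul_nonneg (sub_nonneg.2 hhr) (by linarith : (0 : ℝ) ≤ (q : ℝ))]
  · rw [Nat.cast_sub h5]
    push_cast
    have h6 : (3 : ℝ) * q * h ≤ N := by exact_mod_cast h5
    have hq0 : (0 : ℝ) < q := by linarith
    have h7 : 2999 * (h : ℝ) ≤ 1000 * N / q := by
      rw [le_div_iff₀ hq0]
      nlinarith
    rw [hMr] at h4 ⊢
    nlinarith

open Classical in
/-- **Theorem on part systems with high and low slots.** `q0 = (1/30)^8 / 20` is an absolute constant.
Proof: `w = 3000`, `q` large (depending on `d, C, k`), `M = 3 q + w - 1`, `h true = NH / M`,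
`h false = NL / M`, `lo true = 1`, `lo false = NH + 1`, `R = NH + NL`; `ι` from `AMX.exists_iota`
(`s = 2 k`); `Ik` from `exists_keep` (`a = 3 q h true`, `b = 3 q h false`; `NH - a ≤ (w - 1) h + M`
is a small fraction of `NH`); `N` = a multiple of `n` with `|I|, p / C1 ≤ N`; `gparts` with
`B' = 2 B`, `γ = 1/30`, `η N = (5 w + 8) / (3 q) |F|`; hypotheses: `lawOK`, `gstr`, `labload_ok`,
`sumload_ok`, `bload_ok`, `exload_ok`; `gw_ok`; `outG_ok`; dropped gadgets: at most `k` per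
dropped part. `κ = β / (4 M)`. -/
theorem PTG : ∃ q0 : ℝ, 0 < q0 ∧ ∀ (β C d : ℝ) (k B : ℕ), 0 < β → 0 < C → 0 < d →
    ∃ κ : ℝ, 0 < κ ∧ ∃ n0 : ℕ, ∀ (F W I : Type) [Fintype F] [DecidableEq F] [Fintype W]
      [DecidableEq W] [Fintype I] [DecidableEq I] (p : ℕ) [NeZero p] (S : PSG F W I p)
      (Sp : Finset F) (L : Pools) (n : ℕ), n0 ≤ n → S.Ok k B Sp → L.Ok S Sp k n β C κ →
      ∃ (T : Finset (ZMod p)) (lab : F → ℕ) (Im : Finset I) (Gd : Bool → Finset F),
        OutG S L Sp T lab Im Gd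
          (fun j => q0 * (Sp.filter fun g => S.kd g = 0 ↔ j = true).card - d * n) (B + 3) ∧
        ((univ \ Im).card : ℝ) ≤ d * n := by
  refine ⟨(1 / 30) ^ 8 / 20, by positivity, ?_⟩
  intro β C d k B hβ hC hd
  -- constants
  obtain ⟨cN, hcN, hcN1⟩ : ∃ cN : ℕ, C ≤ cN ∧ 1 ≤ cN := ⟨⌈C⌉₊, Nat.le_ceil C, Nat.ceil_pos.2 hC⟩
  have hcNr : (1 : ℝ) ≤ cN := by exact_mod_cast hcN1
  have hk0 : (0 : ℝ) ≤ k := Nat.cast_nonneg _
  obtain ⟨ε, hε0, hε1, hε2⟩ : ∃ ε : ℝ, 0 < ε ∧ (k + 1) * ε ≤ d / 8 ∧ 2 * k * ε ≤ β / 2002 := by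
    refine ⟨min (d / (8 * (k + 1))) (β / (4004 * (k + 1))), by positivity, ?_, ?_⟩
    · have h1 : min (d / (8 * ((k : ℝ) + 1))) (β / (4004 * (k + 1))) ≤ d / (8 * (k + 1)) :=
        min_le_left _ _
      calc ((k : ℝ) + 1) * min (d / (8 * ((k : ℝ) + 1))) (β / (4004 * (k + 1)))
          ≤ (k + 1) * (d / (8 * (k + 1))) := mul_le_mul_of_nonneg_left h1 (by positivity)
        _ = d / 8 := by field_simp
    · have h1 : min (d / (8 * ((k : ℝ) + 1))) (β / (4004 * (k + 1))) ≤ β / (4004 * (k + 1)) :=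
        min_le_right _ _
      calc 2 * (k : ℝ) * min (d / (8 * ((k : ℝ) + 1))) (β / (4004 * (k + 1)))
          ≤ 2 * k * (β / (4004 * (k + 1))) := mul_le_mul_of_nonneg_left h1 (by positivity)
        _ ≤ 2 * (k + 1) * (β / (4004 * (k + 1))) :=
          mul_le_mul_of_nonneg_right (by linarith) (by positivity)
        _ = β / 2002 := by field_simp; ring
  obtain ⟨q, hq1, hq2, hq3⟩ : ∃ q : ℕ, 2000000 ≤ q ∧
      (2 * k + 1) * (15008 / (3 * (q : ℝ))) * cN ≤ d / 8 ∧ 1000 * C / q ≤ ε / 2 := by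
    refine ⟨max 2000000 (max ⌈(2 * k + 1) * 15008 * cN * 8 / (3 * d)⌉₊ ⌈2000 * C / ε⌉₊),
      le_max_left _ _, ?_, ?_⟩
    · have h1 : (2 * k + 1) * 15008 * cN * 8 / (3 * d) ≤
          ((max 2000000 (max ⌈(2 * k + 1) * 15008 * cN * 8 / (3 * d)⌉₊ ⌈2000 * C / ε⌉₊) : ℕ) : ℝ) := by
        refine (Nat.le_ceil _).trans ?_
        exact_mod_cast (le_max_left _ _).trans (le_max_right _ _)
      have h2 : (0 : ℝ) <
          ((max 2000000 (max ⌈(2 * k + 1) * 15008 * cN * 8 / (3 * d)⌉₊ ⌈2000 * C / ε⌉₊) : ℕ) : ℝ) := by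
        exact_mod_cast lt_of_lt_of_le (by norm_num) (le_max_left _ _)
      generalize ((max 2000000 (max ⌈(2 * k + 1) * 15008 * cN * 8 / (3 * d)⌉₊ ⌈2000 * C / ε⌉₊) : ℕ) : ℝ)
        = Q at h1 h2 ⊢
      rw [div_le_iff₀ (by positivity)] at h1
      rw [mul_div_assoc', div_mul_eq_mul_div, div_le_div_iff₀ (by positivity) (by norm_num)]
      nlinarith
    · have h1 : 2000 * C / ε ≤
          ((max 2000000 (max ⌈(2 * k + 1) * 15008 * cN * 8 / (3 * d)⌉₊ ⌈2000 * C / ε⌉₊) : ℕ) : ℝ) := by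
        refine (Nat.le_ceil _).trans ?_
        exact_mod_cast (le_max_right _ _).trans (le_max_right _ _)
      have h2 : (0 : ℝ) <
          ((max 2000000 (max ⌈(2 * k + 1) * 15008 * cN * 8 / (3 * d)⌉₊ ⌈2000 * C / ε⌉₊) : ℕ) : ℝ) := by
        exact_mod_cast lt_of_lt_of_le (by norm_num) (le_max_left _ _)
      generalize ((max 2000000 (max ⌈(2 * k + 1) * 15008 * cN * 8 / (3 * d)⌉₊ ⌈2000 * C / ε⌉₊) : ℕ) : ℝ)
        = Q at h1 h2 ⊢
      rw [div_le_iff₀ hε0] at h1
      rw [div_le_div_iff₀ h2 (by norm_num)]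
      nlinarith
  have hq0 : (0 : ℝ) < q := by
    have : (2000000 : ℝ) ≤ q := by exact_mod_cast hq1
    linarith
  obtain ⟨M, hM⟩ : ∃ M : ℕ, M = 3 * q + 2999 := ⟨_, rfl⟩
  have hM0 : 0 < M := by omega
  have hM0r : (0 : ℝ) < M := by exact_mod_cast hM0
  obtain ⟨N0, hN0⟩ := Pool.Agent.AME.gparts (2 * k) (2 * B) (β / (M * cN)) 1 (1 / 30)
    (d / (8 * cN)) (by positivity) one_pos (by norm_num) (by positivity)
  refine ⟨β / (4 * M), by positivity, max N0 (max ⌈2002 * M / β⌉₊ (max ⌈M * (M + 2) / β⌉₊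
    ⌈4 * M / ε⌉₊)), ?_⟩
  intro F W I _ _ _ _ _ _ p _ S Sp L n hn hok hL
  have hn1 : N0 ≤ n := (le_max_left _ _).trans hn
  have hn2 : 2002 * (M : ℝ) ≤ β * n := by
    have : 2002 * (M : ℝ) / β ≤ n := by
      refine (Nat.le_ceil _).trans ?_
      exact_mod_cast ((le_max_left _ _).trans (le_max_right _ _)).trans hn
    rw [div_le_iff₀ hβ] at this
    linarith
  have hn3 : (M : ℝ) * (M + 2) ≤ β * n := by
    have : (M : ℝ) * (M + 2) / β ≤ n := by
      refine (Nat.le_ceil _).trans ?_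
      exact_mod_cast ((le_max_left _ _).trans ((le_max_right _ _).trans (le_max_right _ _))).trans hn
    rw [div_le_iff₀ hβ] at this
    linarith
  have hn4 : 2 * (M : ℝ) ≤ ε / 2 * n := by
    have : 4 * (M : ℝ) / ε ≤ n := by
      refine (Nat.le_ceil _).trans ?_
      exact_mod_cast ((le_max_right _ _).trans ((le_max_right _ _).trans (le_max_right _ _))).trans hn
    rw [div_le_iff₀ hε0] at this
    linarith
  have hn0 : (0 : ℝ) ≤ n := Nat.cast_nonneg _
  -- the block sizes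
  have hNH : 2002 * M ≤ L.NH := by
    have : ((2002 * M : ℕ) : ℝ) ≤ L.NH := by push_cast; exact hn2.trans hL.bH
    exact_mod_cast this
  have hNL : 2002 * M ≤ L.NL := by
    have : ((2002 * M : ℕ) : ℝ) ≤ L.NL := by push_cast; exact hn2.trans hL.bL
    exact_mod_cast this
  obtain ⟨a1, a2, a3, a4, a5, a6⟩ := PTG_ar hM rfl hq1 hNH
  obtain ⟨b1, b2, b3, b4, b5, b6⟩ := PTG_ar hM rfl hq1 hNL
  obtain ⟨hT, hhT⟩ : ∃ hT : ℕ, hT = L.NH / M := ⟨_, rfl⟩
  obtain ⟨hF, hhF⟩ : ∃ hF : ℕ, hF = L.NL / M := ⟨_, rfl⟩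
  rw [← hhT] at a1 a2 a3 a4 a5 a6
  rw [← hhF] at b1 b2 b3 b4 b5 b6
  -- sizes
  have hp1 : L.NH + L.NL ≤ p := by
    refine le_trans ?_ hL.wrap
    nlinarith
  have hp2 : (L.NH : ℝ) + L.NL ≤ C * n := by
    refine le_trans ?_ hL.pC
    exact_mod_cast hp1
  -- parts
  have hpart : ∀ i, (univ.filter fun f => S.pt f = i).card ≤ k := by
    intro i
    convert hok.part_le i
  obtain ⟨ι, hι⟩ := Pool.Agent.AMX.exists_iota S.pt k (2 * k) hpart (by omega)
  have H : GB S ι Sp k B := ⟨hok, hι⟩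
  obtain ⟨Ik, k1, k2, k3⟩ := exists_keep S.pt (fun f => S.kd f = 0) (3 * q * hT) (3 * q * hF)
  have hdrop : ((univ \ Ik).card : ℝ) ≤ ε * n := by
    have h1 : (univ \ Ik).card ≤ (L.NH - 3 * q * hT) + (L.NL - 3 * q * hF) := by
      refine k3.trans (Nat.add_le_add ?_ ?_)
      · apply Nat.sub_le_sub_right
        convert hL.slH
      · apply Nat.sub_le_sub_right
        convert hL.slL
    have h2 : ((univ \ Ik).card : ℝ) ≤ ((L.NH - 3 * q * hT : ℕ) : ℝ) + ((L.NL - 3 * q * hF : ℕ) : ℝ) := by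
      exact_mod_cast h1
    have h3 : 1000 * (L.NH : ℝ) / q + 1000 * L.NL / q ≤ ε / 2 * n := by
      calc 1000 * (L.NH : ℝ) / q + 1000 * L.NL / q = 1000 * (L.NH + L.NL) / q := by ring
        _ ≤ 1000 * (C * n) / q := by
          apply div_le_div_of_nonneg_right _ hq0.le
          linarith
        _ = (1000 * C / q) * n := by ring
        _ ≤ ε / 2 * n := mul_le_mul_of_nonneg_right hq3 hn0
    linarith
  -- the law
  let D : LD := ⟨q, 3000, fun b => if b then hT else hF, fun b => if b then 1 else L.NH + 1⟩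
  have hDq : D.q = q := rfl
  have hDw : D.w = 3000 := rfl
  have hDhT : D.h true = hT := rfl
  have hDhF : D.h false = hF := rfl
  have hM' : 3 * D.q + D.w - 1 = M := by rw [hDq, hDw]; omega
  have hDlT : D.lo true = 1 := rfl
  have hDlF : D.lo false = L.NH + 1 := rfl
  have hDok : D.Ok (L.NH + L.NL) := by
    refine ⟨by rw [hDq]; omega, by rw [hDw]; omega, ?_, ?_, ?_⟩
    · intro b
      cases b
      · rw [hDhF]; omega
      · rw [hDhT]; omega
    · intro b
      cases b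
      · rw [hDlF]; omega
      · rw [hDlT]
    · intro b
      rw [hM']
      cases b
      · rw [hDlF, hDhF]; omega
      · rw [hDlT, hDhT]; omega
  have hDD : DOk (s := 2 * k) S L Ik Sp D (L.NH + L.NL) := by
    refine ⟨hDok, rfl, hDlT, hDlF, ?_, ?_, ?_, ?_, ?_, ?_, ?_, ?_, ?_, ?_⟩
    · rw [hM', hDhT]; exact a2
    · rw [hM', hDhF]; exact b2
    · rw [hDq, hDhT]; exact a4
    · rw [hDq, hDhF]; exact b4
    · rw [hDw]
    · rw [hDq, hDhT]; convert k1
    · rw [hDq, hDhF]; convert k2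
    · rw [hDq, hDhT]
      have h1 : (univ.filter fun w => S.vp w ∉ Ik ∧ S.isR w).card ≤ (univ \ Ik).card * (2 * k) := by
        have h2 : (univ.filter fun w => S.vp w ∉ Ik ∧ S.isR w) ⊆
            (univ \ Ik).biUnion fun i => univ.filter fun w => S.vp w = i := by
          intro w hw
          simp only [mem_filter, mem_univ, true_and] at hw
          exact mem_biUnion.2 ⟨S.vp w, mem_sdiff.2 ⟨mem_univ _, hw.1⟩, by simp⟩
        refine (card_le_card h2).trans ?_
        exact card_biUnion_le_card_mul _ _ _ fun i _ => H.card_vert i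
      have h2 : ((univ.filter fun w => S.vp w ∉ Ik ∧ S.isR w).card : ℝ) ≤
          (univ \ Ik).card * (2 * k) := by exact_mod_cast h1
      refine h2.trans ?_
      have h3 : ((univ \ Ik).card : ℝ) * (2 * k) ≤ ε * n * (2 * k) :=
        mul_le_mul_of_nonneg_right hdrop (by positivity)
      have h4 : 2 * (k : ℝ) * ε * n ≤ β / 2002 * n := mul_le_mul_of_nonneg_right hε2 hn0
      have h5 := hL.bH
      rw [le_div_iff₀ (by norm_num)]
      linarith
    · have h1 := hL.wrap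
      have h2 : 2 * k * (L.NH + L.NL) < (4 * k + 4) * (L.NH + L.NL + 2) := by nlinarith
      omega
    · have h1 := hL.wrap
      have h2 : L.NH + L.NL < (4 * k + 4) * (L.NH + L.NL + 2) := by nlinarith
      omega
  have he : (L.NL : ℝ) + β / (4 * M) * n ≤ (3 * D.q + D.w + 1 : ℕ) * D.h false := by
    have h1 : 3 * D.q + D.w + 1 = M + 2 := by rw [hDq, hDw]; omega
    rw [h1, hDhF]
    push_cast
    have h2 : β * n ≤ M * hF + M := hL.bL.trans b3
    have h3 : β / (4 * M) * n = β * n / M / 4 := by field_simp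
    rw [h3]
    have h4 : β * n / M ≤ hF + 1 := by
      rw [div_le_iff₀ hM0r]
      linarith
    have h5 : (M : ℝ) + 2 ≤ β * n / M := by
      rw [le_div_iff₀ hM0r]
      linarith
    linarith
  -- size parameter
  have hcardI : Fintype.card I ≤ cN * n := by
    have h1 : Fintype.card I ≤ Fintype.card F := by
      choose g hg using hok.part_pos
      apply Fintype.card_le_of_injective g
      intro i j hij
      rw [← hg i, ← hg j, hij]
    have h2 : ((Fintype.card I : ℕ) : ℝ) ≤ ((cN * n : ℕ) : ℝ) := by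
      push_cast
      calc ((Fintype.card I : ℕ) : ℝ) ≤ Fintype.card F := by exact_mod_cast h1
        _ ≤ C * n := hL.FC
        _ ≤ cN * n := mul_le_mul_of_nonneg_right hcN hn0
    exact_mod_cast h2
  have hθ : ∀ b, 1 / (D.w * D.h b : ℝ) ≤ 1 / (β / (M * cN) * ((cN * n : ℕ) : ℝ)) := by
    have hnpos : (0 : ℝ) < n := by
      by_contra hcon
      have : (n : ℝ) = 0 := le_antisymm (not_lt.1 hcon) hn0
      rw [this] at hn2
      linarith
    have h1 : β / (M * cN) * ((cN * n : ℕ) : ℝ) = β * n / M := by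
      push_cast
      field_simp
    have hb : ∀ b, β * n / M ≤ D.w * D.h b := by
      intro b
      have h5 : (2002 : ℝ) ≤ D.h b := by
        cases b
        · rw [hDhF]; exact_mod_cast b1
        · rw [hDhT]; exact_mod_cast a1
      have h4 : β * n / M ≤ D.h b + 1 := by
        rw [div_le_iff₀ hM0r]
        cases b
        · rw [hDhF]; linarith [hL.bL.trans b3]
        · rw [hDhT]; linarith [hL.bH.trans a3]
      rw [hDw]
      push_cast
      linarith
    intro b
    rw [h1]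
    exact one_div_le_one_div_of_le (by positivity) (hb b)
  have hlaw := lawOK hDok hθ
  have hstr := gstr (L := L) (Ik := Ik) H rfl
  have hNcast : C * n ≤ ((cN * n : ℕ) : ℝ) := by
    push_cast
    exact mul_le_mul_of_nonneg_right hcN hn0
  have hηnn : (0 : ℝ) ≤ 15008 / (3 * q) := by positivity
  have hGOKH : Pool.Agent.AME.GOKH (gsys S L ι Ik Sp) D.om D.wt (L.NH + L.NL) p (cN * n) (2 * B)
      (β / (M * cN)) 1 (1 / 30) (15008 / (3 * q)) := by
    refine ⟨hlaw, hcardI, hDD.Rp, hDD.sRp, ?_, hstr.Zc, fun a => labload_ok H hDD a,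
      fun t a => sumload_ok H hDD hL t a, fun a => bload_ok H hDD hL a, ?_, hstr.S_act, hstr.S_ne,
      hstr.S_inj, hstr.S_lt, hstr.S_card, hstr.G_act, hstr.G_uniq, hstr.G_card, hstr.G_notin,
      hstr.G_S, hstr.G_ne, hstr.B_card, hstr.m1, hstr.m2, hstr.m2', hstr.m3, hstr.m4⟩
    · rw [one_mul]
      exact hL.pC.trans hNcast
    · refine (exload_ok H hDD hL he).trans ?_
      have h1 : (5 * (D.w : ℝ) + 8) / (3 * D.q) = 15008 / (3 * q) := by
        rw [hDq, hDw]; norm_num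
      rw [h1]
      exact mul_le_mul_of_nonneg_left (hL.FC.trans hNcast) hηnn
  obtain ⟨T, Pm, x, hPm, hpos, hEx, hdist, hnT, hTlt, htest⟩ := hN0 I Kn (Fin (3 * D.q))
    (gsys S L ι Ik Sp) D.om D.wt (L.NH + L.NL) p (cN * n) (15008 / (3 * q)) (gGW S L ι Ik Sp)
    (hn1.trans (Nat.le_mul_of_pos_left n (by omega))) hηnn hGOKH
  have hmin : min (1 / 30 : ℝ) (1 / 2) = 1 / 30 := min_eq_left (by norm_num)
  rw [hmin] at htest
  have hηc : (2 * k + 1) * (15008 / (3 * (q : ℝ))) * (cN * n) ≤ d / 8 * n := by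
    have := mul_le_mul_of_nonneg_right hq2 hn0
    linarith
  have hδc : d / (8 * cN) * (cN * n) = d / 8 * n := by field_simp
  obtain ⟨T', lab, Gd, hout⟩ := outG_ok H hDD hL
    (q := fun j => (1 / 30) ^ 8 / 20 * ((Sp.filter fun g => S.kd g = 0 ↔ j = true).card : ℝ) - d * n)
    hpos hEx hdist hnT hTlt (by
      intro j y π1 π2
      refine le_trans ?_ (htest j y π1 π2)
      have h1 := gw_ok H hDD hL he (by rw [hDq, hDw]; omega) j
      have h2 : ((Sp.filter fun g => S.kd g = 0 ↔ j = true).card : ℝ) ≤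
          ((Sp.filter fun f => (S.kd f = 0 ↔ j = true) ∧ S.pt f ∈ Ik).card : ℝ) +
            (univ \ Ik).card * k := by
        have h3 : (Sp.filter fun g => S.kd g = 0 ↔ j = true) ⊆
            (Sp.filter fun f => (S.kd f = 0 ↔ j = true) ∧ S.pt f ∈ Ik) ∪
              (univ \ Ik).biUnion fun i => univ.filter fun f => S.pt f = i := by
          intro g hg
          rw [mem_filter] at hg
          by_cases h : S.pt g ∈ Ik
          · exact mem_union_left _ (mem_filter.2 ⟨hg.1, hg.2, h⟩)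
          · exact mem_union_right _ (mem_biUnion.2 ⟨S.pt g, mem_sdiff.2 ⟨mem_univ _, h⟩, by simp⟩)
        have h4 := (card_le_card h3).trans (card_union_le _ _)
        have h5 : ((univ \ Ik).biUnion fun i => univ.filter fun f => S.pt f = i).card ≤
            (univ \ Ik).card * k := card_biUnion_le_card_mul _ _ _ fun i _ => hpart i
        exact_mod_cast h4.trans (Nat.add_le_add_left h5 _)
      have h3 : ((univ \ Ik).card : ℝ) * k ≤ ε * n * k := mul_le_mul_of_nonneg_right hdrop hk0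
      have h4 : (k + 1) * ε * n ≤ d / 8 * n := mul_le_mul_of_nonneg_right hε1 hn0
      have h5 : (0 : ℝ) ≤ ε * n := by positivity
      have h6 : (0 : ℝ) ≤ d * n := by positivity
      have h7 : (0 : ℝ) ≤ 15008 / (3 * (q : ℝ)) * (cN * n) := by positivity
      have h8 := mul_le_mul_of_nonneg_left h1 (show (0 : ℝ) ≤ (1 / 30) ^ 8 by positivity)
      have h9 : (0 : ℝ) ≤ ((Sp.filter fun g => S.kd g = 0 ↔ j = true).card : ℝ) :=
        Nat.cast_nonneg _
      push_cast
      linarith)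
  refine ⟨T', lab, Pm ∩ Ik, Gd, hout, ?_⟩
  have h1 : univ \ (Pm ∩ Ik) ⊆ (univ \ Pm) ∪ (univ \ Ik) := by
    intro Q hQ
    rw [mem_sdiff, mem_inter] at hQ
    by_cases h : Q ∈ Pm
    · exact mem_union_right _ (mem_sdiff.2 ⟨mem_univ _, fun h' => hQ.2 ⟨h, h'⟩⟩)
    · exact mem_union_left _ (mem_sdiff.2 ⟨mem_univ _, h⟩)
  have h2 : ((univ \ (Pm ∩ Ik)).card : ℝ) ≤ (univ \ Pm).card + (univ \ Ik).card := by
    exact_mod_cast (card_le_card h1).trans (card_union_le _ _)
  have h3 : (k + 1) * ε * n ≤ d / 8 * n := mul_le_mul_of_nonneg_right hε1 hn0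
  have h4 : (0 : ℝ) ≤ k * (ε * n) := by positivity
  have h5 : (0 : ℝ) ≤ 2 * k * (15008 / (3 * (q : ℝ)) * (cN * n)) := by positivity
  have h6 : (0 : ℝ) ≤ d * n := by positivity
  push_cast at hPm
  linarith

end Pool.Agent.AMH
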