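import Pool.Agent.AMH.Law

/-!
# Point probabilities of sums under the comonotone law
-/

set_option autoImplicit false
set_option linter.unusedSectionVars false
set_option linter.unusedVariables false

namespace Pool.Agent.AMH

open Finset
open Pool.Agent.AME
open Pool.Agent.AMA (Frm val)

variable {D : LD} {R p : ℕ} {s : ℕ} {o : Fin s → Option Kn}

/-- start of the window -/
private def aF (D : LD) (md : ℕ) : Option Kn → ℕ
  | none => 0
  | some k => D.lo (tyK k) + posK D.q k md * D.h (tyK k)

/-- length of the window -/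
private def lF (D : LD) : Option Kn → ℕ
  | none => 1
  | some k => D.w * D.h (tyK k)

private theorem lF_pos (H : D.Ok R) (k : Option Kn) : 0 < lF D k := by
  cases k with
  | none => exact Nat.one_pos
  | some k => exact Nat.mul_pos H.w0 (H.h0 _)

private theorem Comono_wl (md : Fin (3 * D.q)) (k : Option Kn) (y : Fin (R + 1)) :
    wl D.wt R md k y =
      if aF D md k ≤ (y : ℕ) ∧ (y : ℕ) < aF D md k + lF D k then (1 / (lF D k : ℝ)) else 0 := by
  cases k with
  | none =>
    have h1 : ((y : ℕ) = 0) ↔ (aF D md none ≤ (y : ℕ) ∧ (y : ℕ) < aF D md none + lF D none) := by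
      show ((y : ℕ) = 0) ↔ (0 ≤ (y : ℕ) ∧ (y : ℕ) < 0 + 1)
      omega
    show (if (y : ℕ) = 0 then (1 : ℝ) else 0) = _
    by_cases h2 : (y : ℕ) = 0
    · rw [if_pos h2, if_pos (h1.1 h2)]
      show (1 : ℝ) = 1 / ((1 : ℕ) : ℝ)
      norm_num
    · rw [if_neg h2, if_neg (fun h3 => h2 (h1.2 h3))]
  | some k =>
    have h1 : aF D md (some k) + lF D (some k) =
        D.lo (tyK k) + (posK D.q k md + D.w) * D.h (tyK k) := by
      show D.lo (tyK k) + posK D.q k md * D.h (tyK k) + D.w * D.h (tyK k) = _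
      ring
    rw [h1]
    show D.wt k md (y : ℕ) = _
    unfold LD.wt
    have h2 : ((lF D (some k) : ℕ) : ℝ) = D.w * D.h (tyK k) := by
      show ((D.w * D.h (tyK k) : ℕ) : ℝ) = _
      push_cast
      rfl
    rw [h2]
    rfl

open Classical in
private theorem Comono_Prm_le (md : Fin (3 * D.q)) (A : (Fin s → ℕ) → Prop) :
    Prm D.wt R md o A ≤ (∏ i, (1 / (lF D (o i) : ℝ))) *
      (((Fintype.piFinset fun i => range (lF D (o i))).filter fun y =>
        A fun i => aF D md (o i) + y i).card : ℝ) := by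
  unfold Prm Pool.Agent.AMB.pE
  have h1 : ∀ x : Fin s → Fin (R + 1), (∏ i, wl D.wt R md (o i) (x i)) *
      (if A (fun i => (x i : ℕ)) then (1 : ℝ) else 0) =
      if (∀ i, aF D md (o i) ≤ (x i : ℕ) ∧ (x i : ℕ) < aF D md (o i) + lF D (o i)) ∧
        A (fun i => (x i : ℕ)) then (∏ i, (1 / (lF D (o i) : ℝ))) else 0 := by
    intro x
    by_cases h3 : ∀ i, aF D md (o i) ≤ (x i : ℕ) ∧ (x i : ℕ) < aF D md (o i) + lF D (o i)
    · have h2 : (∏ i, wl D.wt R md (o i) (x i)) = ∏ i, (1 / (lF D (o i) : ℝ)) :=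
        Finset.prod_congr rfl fun i _ => by rw [Comono_wl, if_pos (h3 i)]
      rw [h2]
      by_cases h4 : A (fun i => (x i : ℕ))
      · rw [if_pos h4, if_pos ⟨h3, h4⟩, mul_one]
      · rw [if_neg h4, if_neg (fun h5 => h4 h5.2), mul_zero]
    · have h2 : (∏ i, wl D.wt R md (o i) (x i)) = 0 := by
        push Not at h3
        obtain ⟨i, hi⟩ := h3
        apply Finset.prod_eq_zero (mem_univ i)
        rw [Comono_wl, if_neg]
        rintro ⟨h5, h6⟩
        exact absurd (hi h5) (not_le.2 h6)
      rw [h2, zero_mul, if_neg (fun h5 => h3 h5.1)]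
  rw [Finset.sum_congr rfl fun x _ => h1 x, ← Finset.sum_filter, Finset.sum_const,
    nsmul_eq_mul, mul_comm]
  refine mul_le_mul_of_nonneg_left ?_ (Finset.prod_nonneg fun i _ => by positivity)
  have h5 : (univ.filter fun x : Fin s → Fin (R + 1) =>
      (∀ i, aF D md (o i) ≤ (x i : ℕ) ∧ (x i : ℕ) < aF D md (o i) + lF D (o i)) ∧
        A (fun i => (x i : ℕ))).card ≤ ((Fintype.piFinset fun i => range (lF D (o i))).filter
        fun y => A fun i => aF D md (o i) + y i).card := by
    apply Finset.card_le_card_of_injOn (fun x i => (x i : ℕ) - aF D md (o i))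
    · intro x hx
      obtain ⟨h6, h7⟩ := (mem_filter.1 (mem_coe.1 hx)).2
      rw [mem_coe, mem_filter, Fintype.mem_piFinset]
      refine ⟨fun i => mem_range.2 ?_, ?_⟩
      · have := h6 i
        show (x i : ℕ) - aF D md (o i) < _
        omega
      · have h8 : (fun i => aF D md (o i) + ((x i : ℕ) - aF D md (o i))) =
            fun i => (x i : ℕ) := by
          funext i
          have := h6 i
          omega
        show A (fun i => aF D md (o i) + ((x i : ℕ) - aF D md (o i)))
        rw [h8]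
        exact h7
    · intro x hx y hy he
      have h6 := (mem_filter.1 (mem_coe.1 hx)).2.1
      have h7 := (mem_filter.1 (mem_coe.1 hy)).2.1
      funext i
      have h8 : (x i : ℕ) - aF D md (o i) = (y i : ℕ) - aF D md (o i) := congrFun he i
      have h9 := h6 i
      have h10 := h7 i
      apply Fin.ext
      omega
  exact_mod_cast h5

/-- **Key lemma.** If the start of the window of the sum over `φ.1` moves by `δ` per mode for the modes in
`Md`, then the probabilities of the value `t` in these modes sum up to at most `1/δ + 1/(w h)`, where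
`h` is the block size of any slot `i0` of the form.
Proof: in the mode `md` write `x i = lo + pos * h + y i` with `y i` uniform in `[0, w h)`, independent of
`md` (change of variables in the finite sum). The sum over `md ∈ Md` of the number of `y` with
`c + δ md + φ.2 + ∑ lo + ∑ y = t`: for given `y j`, `j ≠ i0`, the pairs `(md, y i0)` with
`δ md + y i0 = t'` are determined by `y i0`, which is congruent to `t'` modulo `δ` and in `[0, w h)`: at most
`w h / δ + 1` values. -/
theorem comono (H : D.Ok R) (φ : Frm s) (kf : Fin s → Kn) (hk : ∀ i ∈ φ.1, o i = some (kf i))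
    (i0 : Fin s) (hi0 : i0 ∈ φ.1) (Ms : Finset (Fin (3 * D.q))) (δ : ℕ) (hδ : 0 < δ) (c : ℤ)
    (hc : ∀ md ∈ Ms, ((∑ i ∈ φ.1, posK D.q (kf i) md * D.h (tyK (kf i)) : ℕ) : ℤ) = c + δ * (md : ℕ))
    (t : ℕ) :
    ∑ md ∈ Ms, Prm D.wt R md o (fun x => val φ x = t) ≤
      1 / δ + 1 / (D.w * D.h (tyK (kf i0))) := by
  classical
  -- the modes and `y`
  let S : Fin (3 * D.q) → Finset (Fin s → ℕ) := fun md =>
    (Fintype.piFinset fun i => range (lF D (o i))).filter fun y =>
      val φ (fun i => aF D md (o i) + y i) = t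
  let T : Finset ((Fin s → ℕ) × ℕ) :=
    (Fintype.piFinset fun i => if i = i0 then {0} else range (lF D (o i))) ×ˢ
      range (lF D (o i0) / δ + 1)
  have hST : (∑ md ∈ Ms, (S md).card) ≤ T.card := by
    rw [← Finset.card_sigma]
    apply Finset.card_le_card_of_injOn
      (fun u : (_ : Fin (3 * D.q)) × (Fin s → ℕ) => (Function.update u.2 i0 0, u.2 i0 / δ))
    · rintro ⟨md, y⟩ hu
      obtain ⟨h1, h2⟩ := Finset.mem_sigma.1 (mem_coe.1 hu)
      obtain ⟨h3, -⟩ := mem_filter.1 h2
      rw [Fintype.mem_piFinset] at h3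
      rw [mem_coe, mem_product, Fintype.mem_piFinset]
      refine ⟨fun i => ?_, ?_⟩
      · by_cases hi : i = i0
        · subst hi
          simp
        · rw [if_neg hi]
          show Function.update y i0 0 i ∈ _
          rw [Function.update_of_ne hi]
          exact h3 i
      · have h4 := mem_range.1 (h3 i0)
        show y i0 / δ ∈ range _
        rw [mem_range]
        exact Nat.lt_succ_of_le (Nat.div_le_div_right h4.le)
    · rintro ⟨md, y⟩ hu ⟨md', y'⟩ hu' he
      obtain ⟨h1, h2⟩ := Finset.mem_sigma.1 (mem_coe.1 hu)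
      obtain ⟨h1', h2'⟩ := Finset.mem_sigma.1 (mem_coe.1 hu')
      obtain ⟨-, h3⟩ := mem_filter.1 h2
      obtain ⟨-, h3'⟩ := mem_filter.1 h2'
      obtain ⟨e1, e2⟩ := Prod.mk.injEq .. ▸ he
      have e1 : Function.update y i0 0 = Function.update y' i0 0 := e1
      have e2 : y i0 / δ = y' i0 / δ := e2
      have e3 : ∀ i, i ≠ i0 → y i = y' i := by
        intro i hi
        have := congrFun e1 i
        rwa [Function.update_of_ne hi, Function.update_of_ne hi] at this
      -- value of the form
      have hval : ∀ (m : Fin (3 * D.q)), m ∈ Ms → ∀ z : Fin s → ℕ,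
          ((val φ (fun i => aF D m (o i) + z i) : ℕ) : ℤ) =
          (φ.2 : ℤ) + (∑ i ∈ φ.1, (D.lo (tyK (kf i)) : ℤ)) + (c + δ * (m : ℕ)) +
            ((z i0 : ℤ) + ∑ i ∈ φ.1.erase i0, (z i : ℤ)) := by
        intro m hm z
        rw [← hc m hm]
        have h4 : (∑ i ∈ φ.1, (aF D m (o i) + z i)) = (∑ i ∈ φ.1, D.lo (tyK (kf i))) +
            (∑ i ∈ φ.1, posK D.q (kf i) m * D.h (tyK (kf i))) + ∑ i ∈ φ.1, z i := by
          rw [← Finset.sum_add_distrib, ← Finset.sum_add_distrib]
          apply Finset.sum_congr rfl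
          intro i hi
          rw [hk i hi]
          rfl
        have h5 : (∑ i ∈ φ.1, z i) = z i0 + ∑ i ∈ φ.1.erase i0, z i :=
          (Finset.add_sum_erase _ _ hi0).symm
        show ((φ.2 + ∑ i ∈ φ.1, (aF D m (o i) + z i) : ℕ) : ℤ) = _
        rw [h4, h5]
        push_cast
        ring
      have e4 : (∑ i ∈ φ.1.erase i0, (y i : ℤ)) = ∑ i ∈ φ.1.erase i0, (y' i : ℤ) := by
        apply Finset.sum_congr rfl
        intro i hi
        rw [e3 i (mem_erase.1 hi).1]
      have v1 := hval md h1 y
      have v2 := hval md' h1' y'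
      rw [h3] at v1
      rw [h3'] at v2
      rw [v1, e4] at v2
      have e5 : (δ : ℤ) * (md : ℕ) + y i0 = δ * (md' : ℕ) + y' i0 := by linarith
      have e6 : δ * (md : ℕ) + y i0 = δ * (md' : ℕ) + y' i0 := by exact_mod_cast e5
      have e7 := Nat.div_add_mod (y i0) δ
      have e8 := Nat.div_add_mod (y' i0) δ
      have e9 : (y i0) % δ = (y' i0) % δ := by
        have := congrArg (· % δ) e6
        simpa using this
      have e10 : y i0 = y' i0 := by rw [← e7, ← e8, e2, e9]
      have e11 : (md : ℕ) = (md' : ℕ) := by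
        rw [e10] at e6
        exact Nat.eq_of_mul_eq_mul_left hδ (by omega)
      have e12 : md = md' := Fin.ext e11
      have e13 : y = y' := by
        funext i
        by_cases hi : i = i0
        · rw [hi, e10]
        · exact e3 i hi
      rw [e12, e13]
  have hT : (T.card : ℝ) = (∏ i, (if i = i0 then (1 : ℝ) else (lF D (o i) : ℝ))) *
      ((lF D (o i0) / δ + 1 : ℕ) : ℝ) := by
    show ((_ ×ˢ _ : Finset _).card : ℝ) = _
    rw [card_product, Fintype.card_piFinset, card_range, Nat.cast_mul, Nat.cast_prod]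
    congr 1
    apply Finset.prod_congr rfl
    intro i _
    by_cases hi : i = i0
    · rw [if_pos hi, if_pos hi, card_singleton, Nat.cast_one]
    · rw [if_neg hi, if_neg hi, card_range]
  have hL : (0 : ℝ) < lF D (o i0) := by exact_mod_cast lF_pos H (o i0)
  have hδ' : (0 : ℝ) < δ := by exact_mod_cast hδ
  have hprod : (∏ i, (1 / (lF D (o i) : ℝ))) *
      (∏ i, (if i = i0 then (1 : ℝ) else (lF D (o i) : ℝ))) = 1 / (lF D (o i0) : ℝ) := by
    rw [← Finset.prod_mul_distrib]
    have h1 : ∀ i ∈ (univ : Finset (Fin s)), (1 / (lF D (o i) : ℝ)) *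
        (if i = i0 then (1 : ℝ) else (lF D (o i) : ℝ)) =
        if i = i0 then (1 / (lF D (o i) : ℝ)) else 1 := by
      intro i _
      by_cases hi : i = i0
      · rw [if_pos hi, if_pos hi, mul_one]
      · rw [if_neg hi, if_neg hi]
        have : (0 : ℝ) < lF D (o i) := by exact_mod_cast lF_pos H (o i)
        field_simp
    rw [Finset.prod_congr rfl h1, Finset.prod_ite_eq' univ i0 fun i => (1 / (lF D (o i) : ℝ)),
      if_pos (mem_univ _)]
  have hPnn : 0 ≤ ∏ i, (1 / (lF D (o i) : ℝ)) := Finset.prod_nonneg fun i _ => by positivity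
  have hl0 : (lF D (o i0) : ℝ) = D.w * D.h (tyK (kf i0)) := by
    rw [hk i0 hi0]
    show ((D.w * D.h (tyK (kf i0)) : ℕ) : ℝ) = _
    push_cast
    rfl
  calc ∑ md ∈ Ms, Prm D.wt R md o (fun x => val φ x = t)
      ≤ ∑ md ∈ Ms, (∏ i, (1 / (lF D (o i) : ℝ))) * ((S md).card : ℝ) :=
        Finset.sum_le_sum fun md _ => by
          refine (Comono_Prm_le (o := o) (R := R) md (fun x => val φ x = t)).trans (le_of_eq ?_)
          congr!
    _ = (∏ i, (1 / (lF D (o i) : ℝ))) * ((∑ md ∈ Ms, (S md).card : ℕ) : ℝ) := by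
        rw [← Finset.mul_sum]
        push_cast
        rfl
    _ ≤ (∏ i, (1 / (lF D (o i) : ℝ))) * (T.card : ℝ) := by
        apply mul_le_mul_of_nonneg_left _ hPnn
        exact_mod_cast hST
    _ = (1 / (lF D (o i0) : ℝ)) * ((lF D (o i0) / δ + 1 : ℕ) : ℝ) := by
        rw [hT, ← mul_assoc, hprod]
    _ ≤ (1 / (lF D (o i0) : ℝ)) * ((lF D (o i0) : ℝ) / δ + 1) := by
        apply mul_le_mul_of_nonneg_left _ (by positivity)
        push_cast
        have := @Nat.cast_div_le ℝ _ _ _ (lF D (o i0)) δ
        linarith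
    _ = 1 / δ + 1 / (D.w * D.h (tyK (kf i0))) := by
        rw [← hl0]
        field_simp

end Pool.Agent.AMH
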