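import Pool.Agent.AMH.Comono
import Pool.Agent.AME.Point

/-!
# Point probabilities of the forms that occur

All values are taken modulo `p`; `AMA.exists_val_eq` reduces them to one value, then `Pr_eq` and
`comono`.
-/

set_option autoImplicit false
set_option linter.unusedSectionVars false
set_option linter.unusedVariables false

namespace Pool.Agent.AMH

open Finset
open Pool.Agent.AME
open Pool.Agent.AMA (Frm val)

variable {D : LD} {R p : ℕ} {s : ℕ} {o : Fin s → Option Kn}

private theorem FormB_law (H : D.Ok R) : ∃ θ : ℝ, LawOK D.om D.wt R θ := by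
  refine ⟨1, lawOK H fun b => ?_⟩
  have h1 : (1 : ℝ) ≤ D.w := by exact_mod_cast H.w0
  have h2 : (1 : ℝ) ≤ D.h b := by exact_mod_cast H.h0 b
  rw [div_le_one (by positivity)]
  nlinarith

private theorem FormB_main (H : D.Ok R) (hp : s * R < p) (φ : Frm s) (kf : Fin s → Kn)
    (hk : ∀ i ∈ φ.1, o i = some (kf i)) (i0 : Fin s) (hi0 : i0 ∈ φ.1) (n : ℕ)
    (cls : Fin (3 * D.q) → Fin n) (c : Fin n → ℤ) (δ : ℕ) (hδ : 0 < δ)
    (hc : ∀ md : Fin (3 * D.q),
      ((∑ i ∈ φ.1, posK D.q (kf i) md * D.h (tyK (kf i)) : ℕ) : ℤ) =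
        c (cls md) + δ * (md : ℕ)) (a : ℕ) :
    Pr D.om D.wt R o (fun x => val φ x % p = a) ≤
      n * (1 / δ + 1 / (D.w * D.h (tyK (kf i0)))) / (3 * D.q) := by
  classical
  obtain ⟨θ, hθ⟩ := FormB_law H
  obtain ⟨b, hb⟩ := AMA.exists_val_eq hp φ a
  refine (Pr_mono hθ hb).trans ?_
  rw [Pr_eq]
  have h1 : ∑ md, D.om md * Prm D.wt R md o (fun x => val φ x = b) =
      (∑ r : Fin n, ∑ md ∈ univ.filter (fun md => cls md = r),
        Prm D.wt R md o (fun x => val φ x = b)) / (3 * D.q) := by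
    rw [Finset.sum_fiberwise, Finset.sum_div]
    refine sum_congr rfl fun md _ => ?_
    unfold LD.om
    ring
  rw [h1]
  refine div_le_div_of_nonneg_right ?_ (by positivity)
  calc ∑ r : Fin n, ∑ md ∈ univ.filter (fun md => cls md = r),
        Prm D.wt R md o (fun x => val φ x = b)
      ≤ ∑ r : Fin n, (1 / (δ : ℝ) + 1 / (D.w * D.h (tyK (kf i0)))) :=
        sum_le_sum fun r _ => comono H φ kf hk i0 hi0 _ δ hδ (c r) (by
          intro md hmd
          rw [hc md, (mem_filter.1 hmd).2]) b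
    _ = n * (1 / δ + 1 / (D.w * D.h (tyK (kf i0)))) := by
        rw [sum_const, card_univ, Fintype.card_fin, nsmul_eq_mul]

private theorem FormB_one (H : D.Ok R) (hp : s * R < p) (φ : Frm s) (kf : Fin s → Kn)
    (hk : ∀ i ∈ φ.1, o i = some (kf i)) (i0 : Fin s) (hi0 : i0 ∈ φ.1) (c : ℤ) (δ : ℕ)
    (hδ : 0 < δ)
    (hc : ∀ md : Fin (3 * D.q),
      ((∑ i ∈ φ.1, posK D.q (kf i) md * D.h (tyK (kf i)) : ℕ) : ℤ) = c + δ * (md : ℕ)) (a : ℕ) :
    Pr D.om D.wt R o (fun x => val φ x % p = a) ≤
      (1 / δ + 1 / (D.w * D.h (tyK (kf i0)))) / (3 * D.q) := by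
  have h := FormB_main H hp φ kf hk i0 hi0 1 (fun _ => 0) (fun _ => c) δ hδ hc a
  rwa [Nat.cast_one, one_mul] at h

private theorem FormB_mod {a b : ℕ} (h : b ≤ a) (h2 : a < 2 * b) : a % b = a - b := by
  rw [Nat.mod_eq_sub_mod h, Nat.mod_eq_of_lt (by omega)]

private theorem FormB_p0 (q md : ℕ) : posK q 0 md = md := by
  unfold posK
  rw [if_neg (by decide), if_neg (by decide), if_neg (by decide)]

private theorem FormB_p1 (q md : ℕ) : posK q 1 md = md := by
  unfold posK
  rw [if_neg (by decide), if_neg (by decide), if_neg (by decide)]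

private theorem FormB_p2 (q md : ℕ) : posK q 2 md = md := by
  unfold posK
  rw [if_neg (by decide), if_neg (by decide), if_neg (by decide)]

private theorem FormB_p3 (q md : ℕ) (h : md < 3 * q) :
    ((posK q 3 md : ℕ) : ℤ) = md + q - (if md < 2 * q then 0 else 3 * q) := by
  unfold posK
  rw [if_pos rfl]
  split_ifs with h1
  · rw [Nat.mod_eq_of_lt (by omega)]
    push_cast
    ring
  · rw [FormB_mod (by omega) (by omega)]
    omega

private theorem FormB_p4 (q md : ℕ) (h : md < 3 * q) :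
    ((posK q 4 md : ℕ) : ℤ) = md + 2 * q - (if md < q then 0 else 3 * q) := by
  unfold posK
  rw [if_neg (by decide), if_pos rfl]
  split_ifs with h1
  · rw [Nat.mod_eq_of_lt (by omega)]
    push_cast
    ring
  · rw [FormB_mod (by omega) (by omega)]
    omega

private theorem FormB_p5 (q md : ℕ) (h : md < 3 * q) :
    ((posK q 5 md : ℕ) : ℤ) = 3 * q - 1 - md := by
  unfold posK
  rw [if_neg (by decide), if_neg (by decide), if_pos rfl]
  omega

open Classical in
/-- one high slot -/
theorem Pr_R (H : D.Ok R) (hp : s * R < p) (hRp : R < p) (φ : Frm s) (i : Fin s) (hφ : φ.1 = {i})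
    (hi : o i = some 0) (a : ℕ) :
    Pr D.om D.wt R o (fun x => val φ x % p = a) ≤
      (if ∃ l, D.lo true ≤ l ∧ l < D.lo true + (3 * D.q + D.w - 1) * D.h true ∧
          (φ.2 + l) % p = a then
        1 / (3 * D.q * D.h true) else 0 : ℝ) := by
  obtain ⟨θ, hθ⟩ := FormB_law H
  split_ifs with hex
  · obtain ⟨b, hb⟩ := AMA.exists_val_eq hp φ a
    have h1 : Pr D.om D.wt R o (fun x => val φ x % p = a) ≤
        Pr D.om D.wt R o (fun x => x i = b - φ.2) := by
      refine Pr_mono hθ fun x hx hA => ?_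
      have h2 := hb x hx hA
      unfold AMA.val at h2
      rw [hφ, sum_singleton] at h2
      omega
    refine h1.trans ((Pr_label_le H i 0 hi _).trans ?_)
    have h3 : tyK 0 = true := by decide
    rw [h3]
    split_ifs
    · exact le_rfl
    · positivity
  · rw [Pr_eq]
    refine le_of_eq (sum_eq_zero fun md _ => ?_)
    rw [Prm_eq_zero H md _ ?_, mul_zero]
    intro x hx hA
    apply hex
    have h3 : tyK 0 = true := by decide
    obtain ⟨h4, h5⟩ := hx i 0 hi
    rw [h3] at h4 h5
    refine ⟨x i, by omega, ?_, ?_⟩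
    · refine h5.trans_le ?_
      have h6 := posK_lt H.q0 0 md
      have h7 : posK D.q 0 md + D.w ≤ 3 * D.q + D.w - 1 := by omega
      exact Nat.add_le_add_left (Nat.mul_le_mul_right _ h7) _
    · unfold AMA.val at hA
      rw [hφ, sum_singleton] at hA
      exact hA

/-- slots of kinds `0` and `1`, at least two of kind `0`; `comono` with all modes, `δ ≥ 2 h true` -/
theorem Pr_D (H : D.Ok R) (hp : s * R < p) (φ : Frm s) (kf : Fin s → Kn)
    (hk : ∀ i ∈ φ.1, o i = some (kf i)) (hid : ∀ i ∈ φ.1, kf i = 0 ∨ kf i = 1)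
    (h2 : 2 ≤ (φ.1.filter fun i => kf i = 0).card) (a : ℕ) :
    Pr D.om D.wt R o (fun x => val φ x % p = a) ≤ (1 + 2 / D.w) / (2 * (3 * D.q * D.h true)) := by
  obtain ⟨i0, hi0⟩ : (φ.1.filter fun i => kf i = 0).Nonempty := card_pos.1 (by omega)
  obtain ⟨hi1, hi2⟩ := mem_filter.1 hi0
  have hh : 0 < D.h true := H.h0 true
  have hw : 0 < D.w := H.w0
  have hq : 0 < D.q := H.q0
  have hδ : 2 * D.h true ≤ ∑ i ∈ φ.1, D.h (tyK (kf i)) := by
    calc 2 * D.h true ≤ (φ.1.filter fun i => kf i = 0).card * D.h true :=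
          Nat.mul_le_mul_right _ h2
      _ = ∑ i ∈ φ.1.filter (fun i => kf i = 0), D.h (tyK (kf i)) := by
          rw [← smul_eq_mul, ← sum_const]
          refine sum_congr rfl fun i hi => ?_
          rw [(mem_filter.1 hi).2]
          rfl
      _ ≤ ∑ i ∈ φ.1, D.h (tyK (kf i)) :=
          sum_le_sum_of_subset (filter_subset _ _)
  have h := FormB_one H hp φ kf hk i0 hi1 0 (∑ i ∈ φ.1, D.h (tyK (kf i))) (by omega) (by
    intro md
    have h3 : ∑ i ∈ φ.1, posK D.q (kf i) md * D.h (tyK (kf i)) =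
        (∑ i ∈ φ.1, D.h (tyK (kf i))) * (md : ℕ) := by
      rw [sum_mul]
      refine sum_congr rfl fun i hi => ?_
      rcases hid i hi with h4 | h4
      · rw [h4, FormB_p0, mul_comm]
      · rw [h4, FormB_p1, mul_comm]
    rw [h3]
    push_cast
    ring) a
  refine h.trans ?_
  have h3 : tyK (kf i0) = true := by rw [hi2]; rfl
  rw [h3]
  have hhR : (0 : ℝ) < D.h true := by exact_mod_cast hh
  have hwR : (0 : ℝ) < D.w := by exact_mod_cast hw
  have hqR : (0 : ℝ) < D.q := by exact_mod_cast hq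
  have h4 : (1 : ℝ) / ((∑ i ∈ φ.1, D.h (tyK (kf i)) : ℕ) : ℝ) ≤ 1 / (2 * D.h true) := by
    refine one_div_le_one_div_of_le (by positivity) ?_
    exact_mod_cast hδ
  calc (1 / ((∑ i ∈ φ.1, D.h (tyK (kf i)) : ℕ) : ℝ) + 1 / (D.w * D.h true)) / (3 * D.q)
      ≤ (1 / (2 * D.h true) + 1 / (D.w * D.h true)) / (3 * D.q) :=
        div_le_div_of_nonneg_right (by linarith) (by positivity)
    _ = (1 + 2 / D.w) / (2 * (3 * D.q * D.h true)) := by
        field_simp

/-- a high and a low slot; `comono` with all modes, `δ = h true + h false`, `i0` the slot with the larger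
block size -/
theorem Pr_P (H : D.Ok R) (hp : s * R < p) (φ : Frm s) (i j : Fin s) (hij : i ≠ j)
    (hφ : φ.1 = {i, j}) (hi : o i = some 0) (hj : o j = some 1) (a : ℕ) :
    Pr D.om D.wt R o (fun x => val φ x % p = a) ≤
      (1 + 2 / D.w) / (3 * D.q * D.h true + 3 * D.q * D.h false) := by
  have hh : 0 < D.h true := H.h0 true
  have hh' : 0 < D.h false := H.h0 false
  have hw : 0 < D.w := H.w0
  have hq : 0 < D.q := H.q0
  have hhR : (0 : ℝ) < D.h true := by exact_mod_cast hh
  have hhR' : (0 : ℝ) < D.h false := by exact_mod_cast hh'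
  have hwR : (0 : ℝ) < D.w := by exact_mod_cast hw
  have hqR : (0 : ℝ) < D.q := by exact_mod_cast hq
  have e1 : (o i).getD 0 = 0 := by rw [hi]; rfl
  have e2 : (o j).getD 0 = 1 := by rw [hj]; rfl
  have t0 : tyK 0 = true := by decide
  have t1 : tyK 1 = false := by decide
  have key : ∀ i0 : Fin s, i0 ∈ φ.1 →
      Pr D.om D.wt R o (fun x => val φ x % p = a) ≤
      (1 / ((D.h true + D.h false : ℕ) : ℝ) + 1 / (D.w * D.h (tyK ((o i0).getD 0)))) /
        (3 * D.q) := by
    intro i0 hi0
    refine FormB_one H hp φ (fun i' => (o i').getD 0) ?_ i0 hi0 0 (D.h true + D.h false) (by omega)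
      ?_ a
    · intro i' hi'
      rw [hφ, mem_insert, mem_singleton] at hi'
      rcases hi' with rfl | rfl
      · rw [e1, hi]
      · rw [e2, hj]
    · intro md
      rw [hφ, sum_insert (by simpa using hij), sum_singleton]
      simp only [e1, e2, FormB_p0, FormB_p1, t0, t1]
      push_cast
      ring
  have hval : ∀ hm : ℕ, D.h true + D.h false ≤ 2 * hm →
      (1 / ((D.h true + D.h false : ℕ) : ℝ) + 1 / (D.w * hm)) / (3 * D.q) ≤
      (1 + 2 / D.w) / (3 * D.q * D.h true + 3 * D.q * D.h false) := by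
    intro hm h5
    have h6 : ((D.h true + D.h false : ℕ) : ℝ) ≤ 2 * hm := by exact_mod_cast h5
    have h7 : (0 : ℝ) < ((D.h true + D.h false : ℕ) : ℝ) := by positivity
    have h8 : (1 : ℝ) / (D.w * hm) ≤ 2 / (D.w * ((D.h true + D.h false : ℕ) : ℝ)) := by
      rw [div_le_div_iff₀ (by nlinarith) (by positivity)]
      nlinarith
    calc (1 / ((D.h true + D.h false : ℕ) : ℝ) + 1 / (D.w * hm)) / (3 * D.q)
        ≤ (1 / ((D.h true + D.h false : ℕ) : ℝ) + 2 / (D.w * ((D.h true + D.h false : ℕ) : ℝ))) /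
          (3 * D.q) := div_le_div_of_nonneg_right (by linarith) (by positivity)
      _ = (1 + 2 / D.w) / (3 * D.q * ((D.h true + D.h false : ℕ) : ℝ)) := by
          field_simp
      _ = (1 + 2 / D.w) / (3 * D.q * D.h true + 3 * D.q * D.h false) := by
          congr 1
          push_cast
          ring
  rcases le_total (D.h false) (D.h true) with h5 | h5
  · refine (key i (by rw [hφ]; simp)).trans ?_
    rw [e1, t0]
    exact hval _ (by omega)
  · refine (key j (by rw [hφ]; simp)).trans ?_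
    rw [e2, t1]
    exact hval _ (by omega)

/-- the three ranges of modes -/
private def FormB_cls (D : LD) (md : Fin (3 * D.q)) : Fin 3 :=
  if (md : ℕ) < D.q then 0 else if (md : ℕ) < 2 * D.q then 1 else 2

private def FormB_c (D : LD) (r : Fin 3) : ℤ :=
  (3 * D.q - 3 * D.q * (r : ℕ)) * D.h false

private theorem FormB_shift (D : LD) (md : Fin (3 * D.q)) :
    ((3 * D.q : ℤ) - (if (md : ℕ) < 2 * D.q then 0 else 3 * D.q) -
      (if (md : ℕ) < D.q then 0 else 3 * D.q)) * D.h false = FormB_c D (FormB_cls D md) := by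
  unfold FormB_c FormB_cls
  by_cases h1 : (md : ℕ) < D.q
  · rw [if_pos (show (md : ℕ) < 2 * D.q by omega), if_pos h1, if_pos h1]
    simp
  · rw [if_neg h1, if_neg h1]
    by_cases h2 : (md : ℕ) < 2 * D.q
    · rw [if_pos h2, if_pos h2]
      simp
    · rw [if_neg h2, if_neg h2]
      simp
      ring

/-- three shifted slots; three ranges of `q` modes, `δ = 3 h false` -/
theorem Pr_S3 (H : D.Ok R) (hp : s * R < p) (φ : Frm s) (i j l : Fin s) (hφ : φ.1 = {i, j, l})
    (hij : i ≠ j) (hil : i ≠ l) (hjl : j ≠ l)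
    (hi : o i = some 2) (hj : o j = some 3) (hl : o l = some 4) (a : ℕ) :
    Pr D.om D.wt R o (fun x => val φ x % p = a) ≤ (1 + 3 / D.w) / (3 * D.q * D.h false) := by
  have hh : 0 < D.h false := H.h0 false
  have hw : 0 < D.w := H.w0
  have hq : 0 < D.q := H.q0
  have hhR : (0 : ℝ) < D.h false := by exact_mod_cast hh
  have hwR : (0 : ℝ) < D.w := by exact_mod_cast hw
  have hqR : (0 : ℝ) < D.q := by exact_mod_cast hq
  have e1 : (o i).getD 0 = 2 := by rw [hi]; rfl
  have e2 : (o j).getD 0 = 3 := by rw [hj]; rfl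
  have e3 : (o l).getD 0 = 4 := by rw [hl]; rfl
  have t2 : tyK 2 = false := by decide
  have t3 : tyK 3 = false := by decide
  have t4 : tyK 4 = false := by decide
  have h := FormB_main (o := o) H hp φ (fun i' => (o i').getD 0) (by
      intro i' hi'
      rw [hφ, mem_insert, mem_insert, mem_singleton] at hi'
      rcases hi' with rfl | rfl | rfl
      · rw [e1, hi]
      · rw [e2, hj]
      · rw [e3, hl]) i (by rw [hφ]; simp) 3 (FormB_cls D) (FormB_c D) (3 * D.h false) (by omega) (by
      intro md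
      rw [hφ, sum_insert (by simp [hij, hil]), sum_insert (by simp [hjl]), sum_singleton,
        ← FormB_shift D md]
      simp only [e1, e2, e3, FormB_p2, t2, t3, t4]
      rw [Nat.cast_add, Nat.cast_add, Nat.cast_mul, Nat.cast_mul, Nat.cast_mul,
        FormB_p3 D.q md md.2, FormB_p4 D.q md md.2]
      push_cast
      ring) a
  refine h.trans (le_of_eq ?_)
  simp only [e1, t2]
  push_cast
  field_simp

/-- three slots of kind `1` and a slot of kind `5`; `δ = 2 h false` -/
theorem Pr_S4 (H : D.Ok R) (hp : s * R < p) (φ : Frm s) (i j l m : Fin s)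
    (hφ : φ.1 = {i, j, l, m}) (hc : φ.1.card = 4)
    (hi : o i = some 1) (hj : o j = some 1) (hl : o l = some 1) (hm : o m = some 5) (a : ℕ) :
    Pr D.om D.wt R o (fun x => val φ x % p = a) ≤ (1 + 2 / D.w) / (2 * (3 * D.q * D.h false)) := by
  have hh : 0 < D.h false := H.h0 false
  have hw : 0 < D.w := H.w0
  have hq : 0 < D.q := H.q0
  have hhR : (0 : ℝ) < D.h false := by exact_mod_cast hh
  have hwR : (0 : ℝ) < D.w := by exact_mod_cast hw
  have hqR : (0 : ℝ) < D.q := by exact_mod_cast hq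
  have e1 : (o i).getD 0 = 1 := by rw [hi]; rfl
  have e2 : (o j).getD 0 = 1 := by rw [hj]; rfl
  have e3 : (o l).getD 0 = 1 := by rw [hl]; rfl
  have e4 : (o m).getD 0 = 5 := by rw [hm]; rfl
  have t1 : tyK 1 = false := by decide
  have t5 : tyK 5 = false := by decide
  have d1 : i ∉ ({j, l, m} : Finset (Fin s)) := by
    intro h
    rw [hφ, insert_eq_of_mem h] at hc
    have := card_le_three (a := j) (b := l) (c := m)
    omega
  have d2 : j ∉ ({l, m} : Finset (Fin s)) := by
    intro h
    rw [hφ, insert_eq_of_mem h] at hc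
    have := card_le_three (a := i) (b := l) (c := m)
    omega
  have d3 : l ∉ ({m} : Finset (Fin s)) := by
    intro h
    rw [hφ, insert_eq_of_mem h] at hc
    have := card_le_three (a := i) (b := j) (c := m)
    omega
  have h := FormB_one (o := o) H hp φ (fun i' => (o i').getD 0) (by
      intro i' hi'
      rw [hφ, mem_insert, mem_insert, mem_insert, mem_singleton] at hi'
      rcases hi' with rfl | rfl | rfl | rfl
      · rw [e1, hi]
      · rw [e2, hj]
      · rw [e3, hl]
      · rw [e4, hm]) i (by rw [hφ]; simp) ((3 * D.q - 1) * D.h false) (2 * D.h false) (by omega) (by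
      intro md
      rw [hφ, sum_insert d1, sum_insert d2, sum_insert d3, sum_singleton]
      simp only [e1, e2, e3, e4, FormB_p1, t1, t5]
      rw [Nat.cast_add, Nat.cast_add, Nat.cast_add, Nat.cast_mul, Nat.cast_mul,
        FormB_p5 D.q md md.2]
      push_cast
      ring) a
  refine h.trans (le_of_eq ?_)
  simp only [e1, t1]
  push_cast
  field_simp

/-- gadget ends: slots of kinds `0` and `1` -/
theorem Pr_Bid (H : D.Ok R) (hp : s * R < p) (φ : Frm s) (hne : φ.1.Nonempty) (kf : Fin s → Kn)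
    (hk : ∀ i ∈ φ.1, o i = some (kf i)) (hid : ∀ i ∈ φ.1, kf i = 0 ∨ kf i = 1) (hm : ℕ)
    (hm0 : 0 < hm) (h1 : hm ≤ D.h true) (h2 : hm ≤ D.h false) (a : ℕ) :
    Pr D.om D.wt R o (fun x => val φ x % p = a) ≤ 2 / (3 * D.q * hm) := by
  obtain ⟨i0, hi0⟩ := hne
  have hw : 0 < D.w := H.w0
  have hq : 0 < D.q := H.q0
  have hwR : (1 : ℝ) ≤ D.w := by exact_mod_cast hw
  have hqR : (0 : ℝ) < D.q := by exact_mod_cast hq
  have hmR : (0 : ℝ) < hm := by exact_mod_cast hm0
  have hall : ∀ b : Bool, hm ≤ D.h b := by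
    intro b
    cases b
    · exact h2
    · exact h1
  have hδ : hm ≤ ∑ i ∈ φ.1, D.h (tyK (kf i)) :=
    (hall _).trans (single_le_sum (f := fun i => D.h (tyK (kf i))) (fun _ _ => Nat.zero_le _) hi0)
  have h := FormB_one H hp φ kf hk i0 hi0 0 (∑ i ∈ φ.1, D.h (tyK (kf i))) (by omega) (by
    intro md
    have h3 : ∑ i ∈ φ.1, posK D.q (kf i) md * D.h (tyK (kf i)) =
        (∑ i ∈ φ.1, D.h (tyK (kf i))) * (md : ℕ) := by
      rw [sum_mul]
      refine sum_congr rfl fun i hi => ?_
      rcases hid i hi with h4 | h4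
      · rw [h4, FormB_p0, mul_comm]
      · rw [h4, FormB_p1, mul_comm]
    rw [h3]
    push_cast
    ring) a
  refine h.trans ?_
  have h4 : (1 : ℝ) / ((∑ i ∈ φ.1, D.h (tyK (kf i)) : ℕ) : ℝ) ≤ 1 / hm := by
    refine one_div_le_one_div_of_le hmR ?_
    exact_mod_cast hδ
  have h5 : (1 : ℝ) / (D.w * D.h (tyK (kf i0))) ≤ 1 / hm := by
    refine one_div_le_one_div_of_le hmR ?_
    have h6 : (hm : ℝ) ≤ D.h (tyK (kf i0)) := by exact_mod_cast hall _
    nlinarith
  calc (1 / ((∑ i ∈ φ.1, D.h (tyK (kf i)) : ℕ) : ℝ) + 1 / (D.w * D.h (tyK (kf i0)))) / (3 * D.q)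
      ≤ (1 / hm + 1 / hm) / (3 * D.q) :=
        div_le_div_of_nonneg_right (by linarith) (by positivity)
    _ = 2 / (3 * D.q * hm) := by
        field_simp
        norm_num

/-- gadget ends: the star with three leaves without the slot of kind `2`; three ranges, `δ = 2 h false` -/
theorem Pr_B34 (H : D.Ok R) (hp : s * R < p) (φ : Frm s) (j l : Fin s) (hφ : φ.1 = {j, l})
    (hjl : j ≠ l) (hj : o j = some 3) (hl : o l = some 4) (hw : 6 ≤ D.w) (a : ℕ) :
    Pr D.om D.wt R o (fun x => val φ x % p = a) ≤ 2 / (3 * D.q * D.h false) := by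
  have hh : 0 < D.h false := H.h0 false
  have hq : 0 < D.q := H.q0
  have hhR : (0 : ℝ) < D.h false := by exact_mod_cast hh
  have hwR : (6 : ℝ) ≤ D.w := by exact_mod_cast hw
  have hqR : (0 : ℝ) < D.q := by exact_mod_cast hq
  have e2 : (o j).getD 0 = 3 := by rw [hj]; rfl
  have e3 : (o l).getD 0 = 4 := by rw [hl]; rfl
  have t3 : tyK 3 = false := by decide
  have t4 : tyK 4 = false := by decide
  have h := FormB_main (o := o) H hp φ (fun i' => (o i').getD 0) (by
      intro i' hi'
      rw [hφ, mem_insert, mem_singleton] at hi'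
      rcases hi' with rfl | rfl
      · rw [e2, hj]
      · rw [e3, hl]) j (by rw [hφ]; simp) 3 (FormB_cls D) (FormB_c D) (2 * D.h false) (by omega) (by
      intro md
      rw [hφ, sum_insert (by simp [hjl]), sum_singleton, ← FormB_shift D md]
      simp only [e2, e3, t3, t4]
      rw [Nat.cast_add, Nat.cast_mul, Nat.cast_mul,
        FormB_p3 D.q md md.2, FormB_p4 D.q md md.2]
      push_cast
      ring) a
  refine h.trans ?_
  simp only [e2, t3]
  have h8 : (1 : ℝ) / (D.w * D.h false) ≤ 1 / (6 * D.h false) :=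
    one_div_le_one_div_of_le (by positivity) (by nlinarith)
  calc ((3 : ℕ) : ℝ) * (1 / ((2 * D.h false : ℕ) : ℝ) + 1 / (D.w * D.h false)) / (3 * D.q)
      ≤ ((3 : ℕ) : ℝ) * (1 / ((2 * D.h false : ℕ) : ℝ) + 1 / (6 * D.h false)) / (3 * D.q) :=
        div_le_div_of_nonneg_right (mul_le_mul_of_nonneg_left (by linarith) (by positivity))
          (by positivity)
    _ = 2 / (3 * D.q * D.h false) := by
        push_cast
        field_simp
        norm_num

/-- gadget ends: the star with at least four leaves without a slot of kind `1`; `δ = h false` -/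
theorem Pr_B115 (H : D.Ok R) (hp : s * R < p) (φ : Frm s) (j l m : Fin s) (hφ : φ.1 = {j, l, m})
    (hc : φ.1.card = 3) (hj : o j = some 1) (hl : o l = some 1) (hm : o m = some 5) (a : ℕ) :
    Pr D.om D.wt R o (fun x => val φ x % p = a) ≤ 2 / (3 * D.q * D.h false) := by
  have hh : 0 < D.h false := H.h0 false
  have hw : 0 < D.w := H.w0
  have hq : 0 < D.q := H.q0
  have hhR : (0 : ℝ) < D.h false := by exact_mod_cast hh
  have hwR : (1 : ℝ) ≤ D.w := by exact_mod_cast hw
  have hqR : (0 : ℝ) < D.q := by exact_mod_cast hq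
  have e2 : (o j).getD 0 = 1 := by rw [hj]; rfl
  have e3 : (o l).getD 0 = 1 := by rw [hl]; rfl
  have e4 : (o m).getD 0 = 5 := by rw [hm]; rfl
  have t1 : tyK 1 = false := by decide
  have t5 : tyK 5 = false := by decide
  have d2 : j ∉ ({l, m} : Finset (Fin s)) := by
    intro h
    rw [hφ, insert_eq_of_mem h] at hc
    have := card_le_two (a := l) (b := m)
    omega
  have d3 : l ∉ ({m} : Finset (Fin s)) := by
    intro h
    rw [hφ, insert_eq_of_mem h] at hc
    have := card_le_two (a := j) (b := m)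
    omega
  have h := FormB_one (o := o) H hp φ (fun i' => (o i').getD 0) (by
      intro i' hi'
      rw [hφ, mem_insert, mem_insert, mem_singleton] at hi'
      rcases hi' with rfl | rfl | rfl
      · rw [e2, hj]
      · rw [e3, hl]
      · rw [e4, hm]) j (by rw [hφ]; simp) ((3 * D.q - 1) * D.h false) (D.h false) (by omega) (by
      intro md
      rw [hφ, sum_insert d2, sum_insert d3, sum_singleton]
      simp only [e2, e3, e4, FormB_p1, t1, t5]
      rw [Nat.cast_add, Nat.cast_add, Nat.cast_mul, Nat.cast_mul,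
        FormB_p5 D.q md md.2]
      ring) a
  refine h.trans ?_
  simp only [e2, t1]
  have h8 : (1 : ℝ) / (D.w * D.h false) ≤ 1 / D.h false :=
    one_div_le_one_div_of_le hhR (by nlinarith)
  calc (1 / (D.h false : ℝ) + 1 / (D.w * D.h false)) / (3 * D.q)
      ≤ (1 / D.h false + 1 / D.h false) / (3 * D.q) :=
        div_le_div_of_nonneg_right (by linarith) (by positivity)
    _ = 2 / (3 * D.q * D.h false) := by
        field_simp
        norm_num

end Pool.Agent.AMH
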