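import Mathlib

/-!
# The load inequalities
-/

set_option autoImplicit false

namespace Pool.Agent.AMH

/-- `1/(A+B) ≤ (5/12)/A + 0.126/B` -/
theorem LP_tangent {A B : ℝ} (hA : 0 < A) (hB : 0 < B) :
    1 / (A + B) ≤ 5 / 12 / A + 126 / 1000 / B := by
  rw [div_add_div _ _ hA.ne' hB.ne', div_le_div_iff₀ (by positivity) (by positivity)]
  nlinarith [sq_nonneg (A - 1815 / 1000 * B), mul_pos hA hB, sq_nonneg A, sq_nonneg B,
    mul_pos hA hA, mul_pos hB hB]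

/-- `1/(A+B) ≤ (1/5)/A + (1/3)/B` -/
theorem LP_tangent2 {A B : ℝ} (hA : 0 < A) (hB : 0 < B) :
    1 / (A + B) ≤ 1 / 5 / A + 1 / 3 / B := by
  rw [div_add_div _ _ hA.ne' hB.ne', div_le_div_iff₀ (by positivity) (by positivity)]
  nlinarith [sq_nonneg (A - 7 / 10 * B), mul_pos hA hB, mul_pos hA hA, mul_pos hB hB]

/-- Load of the high tag. `nR, nP, nD, nS3, nS4` numbers of vertices of the types, `A = 3 q h_H`,
`B = 3 q h_L`, `HS` number of high slots, `rc` number of vertices of type `R` hitting the value.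
Proof: `LP_tangent`; total `≤ (5/6)(nR + nP/2 + nD)/A + (0.126 nP + nS4/2)/B + small
≤ 0.8334 * 1.001 + 0.126 + small`, times `1 + 2/3000`. -/
theorem LP_high {A B HS nR nP nD nS3 nS4 rc w : ℝ} (hA : 0 < A) (hB : 0 < B) (hR : 0 ≤ nR)
    (hP : 0 ≤ nP) (hD : 0 ≤ nD) (h3 : 0 ≤ nS3) (h4 : 0 ≤ nS4) (hw : 3000 ≤ w)
    (hC : 1000 * (2 * nR + nP + 2 * nD) ≤ 1001 * (2 * HS)) (hHS : HS ≤ A)
    (hL : nP + 3 * nS3 + 4 * nS4 ≤ B) (hrc : rc ≤ 5 / 6 * nR + 3 / 1000 * A) :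
    rc / A + nP * ((1 + 2 / w) / (A + B)) + nD * ((1 + 2 / w) / (2 * A)) +
      nS4 * ((1 + 2 / w) / (2 * B)) ≤ 29 / 30 := by
  have hw0 : 0 < w := by linarith
  have hρ : 2 / w ≤ 2 / 3000 := by
    rw [div_le_div_iff₀ hw0 (by norm_num)]; linarith
  have hρ0 : 0 ≤ 2 / w := by positivity
  have hr : 0 ≤ nR / A := by positivity
  have hp : 0 ≤ nP / A := by positivity
  have hd : 0 ≤ nD / A := by positivity
  have hp' : 0 ≤ nP / B := by positivity
  have hs3 : 0 ≤ nS3 / B := by positivity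
  have hs4 : 0 ≤ nS4 / B := by positivity
  have h1 : 2 * (nR / A) + nP / A + 2 * (nD / A) ≤ 2002 / 1000 := by
    have : 2 * (nR / A) + nP / A + 2 * (nD / A) = (2 * nR + nP + 2 * nD) / A := by ring
    rw [this, div_le_iff₀ hA]; linarith
  have h2 : nP / B + 3 * (nS3 / B) + 4 * (nS4 / B) ≤ 1 := by
    have : nP / B + 3 * (nS3 / B) + 4 * (nS4 / B) = (nP + 3 * nS3 + 4 * nS4) / B := by ring
    rw [this, div_le_iff₀ hB]; linarith
  have h3' : rc / A ≤ 5 / 6 * (nR / A) + 3 / 1000 := by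
    rw [div_le_iff₀ hA]
    have : (5 / 6 * (nR / A) + 3 / 1000) * A = 5 / 6 * nR + 3 / 1000 * A := by
      field_simp
    rw [this]; exact hrc
  have h4' : nP * ((1 + 2 / w) / (A + B)) ≤
      (1 + 2 / w) * (5 / 12 * (nP / A) + 126 / 1000 * (nP / B)) := by
    have := mul_le_mul_of_nonneg_left (LP_tangent hA hB)
      (show 0 ≤ (1 + 2 / w) * nP by positivity)
    calc nP * ((1 + 2 / w) / (A + B)) = (1 + 2 / w) * nP * (1 / (A + B)) := by ring
      _ ≤ _ := this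
      _ = _ := by ring
  have h5 : nD * ((1 + 2 / w) / (2 * A)) = (1 + 2 / w) * (1 / 2 * (nD / A)) := by
    field_simp
  have h6 : nS4 * ((1 + 2 / w) / (2 * B)) = (1 + 2 / w) * (1 / 2 * (nS4 / B)) := by
    field_simp
  rw [h5, h6]
  have h7 : (1 + 2 / w) * (5 / 12 * (nP / A) + 126 / 1000 * (nP / B)) +
      (1 + 2 / w) * (1 / 2 * (nD / A)) + (1 + 2 / w) * (1 / 2 * (nS4 / B)) ≤
      (1 + 2 / 3000) * (5 / 12 * (nP / A) + 126 / 1000 * (nP / B) + 1 / 2 * (nD / A) +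
        1 / 2 * (nS4 / B)) := by
    rw [← mul_add, ← mul_add]
    have : 0 ≤ 5 / 12 * (nP / A) + 126 / 1000 * (nP / B) + 1 / 2 * (nD / A) +
        1 / 2 * (nS4 / B) := by positivity
    exact mul_le_mul_of_nonneg_right (by linarith) this
  linarith

/-- Load of the low tag. Proof: `LP_tangent2`; total `≤ nP / (5 A) + (nP/3 + nS3 + nS4/2)/B`,
`nP ≤ 2.002 A`. -/
theorem LP_low {A B HS nR nP nD nS3 nS4 w : ℝ} (hA : 0 < A) (hB : 0 < B) (hR : 0 ≤ nR)
    (hP : 0 ≤ nP) (hD : 0 ≤ nD) (h3 : 0 ≤ nS3) (h4 : 0 ≤ nS4) (hw : 3000 ≤ w)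
    (hC : 1000 * (2 * nR + nP + 2 * nD) ≤ 1001 * (2 * HS)) (hHS : HS ≤ A)
    (hL : nP + 3 * nS3 + 4 * nS4 ≤ B) :
    nP * ((1 + 2 / w) / (A + B)) + nS3 * ((1 + 3 / w) / B) + nS4 * ((1 + 2 / w) / (2 * B)) ≤
      29 / 30 := by
  have hw0 : 0 < w := by linarith
  have hρ : 2 / w ≤ 1 / 1000 := by
    rw [div_le_div_iff₀ hw0 (by norm_num)]; linarith
  have hρ' : 3 / w ≤ 1 / 1000 := by
    rw [div_le_div_iff₀ hw0 (by norm_num)]; linarith
  have hρ0 : 0 ≤ 2 / w := by positivity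
  have hr : 0 ≤ nR / A := by positivity
  have hp : 0 ≤ nP / A := by positivity
  have hd : 0 ≤ nD / A := by positivity
  have hp' : 0 ≤ nP / B := by positivity
  have hs3 : 0 ≤ nS3 / B := by positivity
  have hs4 : 0 ≤ nS4 / B := by positivity
  have h1 : 2 * (nR / A) + nP / A + 2 * (nD / A) ≤ 2002 / 1000 := by
    have : 2 * (nR / A) + nP / A + 2 * (nD / A) = (2 * nR + nP + 2 * nD) / A := by ring
    rw [this, div_le_iff₀ hA]; linarith
  have h2 : nP / B + 3 * (nS3 / B) + 4 * (nS4 / B) ≤ 1 := by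
    have : nP / B + 3 * (nS3 / B) + 4 * (nS4 / B) = (nP + 3 * nS3 + 4 * nS4) / B := by ring
    rw [this, div_le_iff₀ hB]; linarith
  have h4' : nP * ((1 + 2 / w) / (A + B)) ≤
      (1 + 2 / w) * (1 / 5 * (nP / A) + 1 / 3 * (nP / B)) := by
    have := mul_le_mul_of_nonneg_left (LP_tangent2 hA hB)
      (show 0 ≤ (1 + 2 / w) * nP by positivity)
    calc nP * ((1 + 2 / w) / (A + B)) = (1 + 2 / w) * nP * (1 / (A + B)) := by ring
      _ ≤ _ := this
      _ = _ := by ring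
  have h5 : nS3 * ((1 + 3 / w) / B) = (1 + 3 / w) * (nS3 / B) := by
    field_simp
  have h6 : nS4 * ((1 + 2 / w) / (2 * B)) = (1 + 2 / w) * (1 / 2 * (nS4 / B)) := by
    field_simp
  rw [h5, h6]
  have g1 : (1 + 2 / w) * (1 / 5 * (nP / A) + 1 / 3 * (nP / B)) ≤
      (1 + 1 / 1000) * (1 / 5 * (nP / A) + 1 / 3 * (nP / B)) :=
    mul_le_mul_of_nonneg_right (by linarith) (by positivity)
  have g2 : (1 + 3 / w) * (nS3 / B) ≤ (1 + 1 / 1000) * (nS3 / B) :=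
    mul_le_mul_of_nonneg_right (by linarith) (by positivity)
  have g3 : (1 + 2 / w) * (1 / 2 * (nS4 / B)) ≤ (1 + 1 / 1000) * (1 / 2 * (nS4 / B)) :=
    mul_le_mul_of_nonneg_right (by linarith) (by positivity)
  linarith

end Pool.Agent.AMH
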