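import Pool.Agent.AME.Prob

/-!
# The comonotone law

Kinds of slots: `0` = H (high labels), `1, 2, 3, 4, 5` = low labels with the positions `md`, `md`,
`md + q`, `md + 2 q` (modulo `3 q`) and `3 q - 1 - md` in the mode `md < 3 q`. In the mode `md` the label of a slot of
kind `k` is uniform in the window `[lo + pos * h, lo + (pos + w) * h)`, where `h` is the block
size and `lo` the smallest label of its type. All modes have the same probability.
-/

set_option autoImplicit false
set_option linter.unusedSectionVars false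
set_option linter.unusedVariables false

namespace Pool.Agent.AMH

open Finset
open Pool.Agent.AME
open Pool.Agent.AMA (Frm val)

/-- the kinds of slots -/
abbrev Kn := Fin 6

/-- the type of a kind: `true` = H, `false` = L -/
def tyK (k : Kn) : Bool := decide (k = 0)

/-- the position of a kind in a mode -/
def posK (q : ℕ) (k : Kn) (md : ℕ) : ℕ :=
  if k = 3 then (md + q) % (3 * q) else if k = 4 then (md + 2 * q) % (3 * q) else
    if k = 5 then 3 * q - 1 - md else md

/-- data of the law: `3 q` modes, windows of `w` blocks, block sizes `h`, smallest labels `lo` -/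
structure LD where
  /-- number of modes / 3 -/
  q : ℕ
  /-- number of blocks of a window -/
  w : ℕ
  /-- block sizes -/
  h : Bool → ℕ
  /-- smallest labels -/
  lo : Bool → ℕ

/-- the weights of the modes -/
noncomputable def LD.om (D : LD) (md : Fin (3 * D.q)) : ℝ := 1 / (3 * D.q)

/-- the weights of the labels -/
noncomputable def LD.wt (D : LD) (k : Kn) (md : Fin (3 * D.q)) (a : ℕ) : ℝ :=
  if D.lo (tyK k) + posK D.q k md * D.h (tyK k) ≤ a ∧
    a < D.lo (tyK k) + (posK D.q k md + D.w) * D.h (tyK k) then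
    1 / (D.w * D.h (tyK k)) else 0

/-- admissible data for labels at most `R` -/
structure LD.Ok (D : LD) (R : ℕ) : Prop where
  q0 : 0 < D.q
  w0 : 0 < D.w
  h0 : ∀ b, 0 < D.h b
  lo1 : ∀ b, 1 ≤ D.lo b
  leR : ∀ b, D.lo b + (3 * D.q + D.w - 1) * D.h b ≤ R + 1

variable {D : LD} {R p : ℕ} {s : ℕ} {o : Fin s → Option Kn}

theorem posK_lt (hq : 0 < D.q) (k : Kn) (md : Fin (3 * D.q)) : posK D.q k md < 3 * D.q := by
  have h := md.2
  unfold posK
  split_ifs
  · exact Nat.mod_lt _ (by omega)
  · exact Nat.mod_lt _ (by omega)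
  · omega
  · exact h

theorem posK_inj (hq : 0 < D.q) (k : Kn) (md md' : Fin (3 * D.q))
    (h : posK D.q k md = posK D.q k md') : md = md' := by
  have h1 := md.2
  have h2 := md'.2
  have key : ∀ c : ℕ, ((md : ℕ) + c) % (3 * D.q) = ((md' : ℕ) + c) % (3 * D.q) → md = md' := by
    intro c hc
    have h3 : (md : ℕ) ≡ (md' : ℕ) [MOD 3 * D.q] := Nat.ModEq.add_right_cancel' c hc
    exact Fin.ext (h3.eq_of_lt_of_lt h1 h2)
  unfold posK at h
  split_ifs at h
  · exact key _ h
  · exact key _ h
  · exact Fin.ext (by omega)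
  · exact Fin.ext h

theorem Law_q_pos (H : D.Ok R) : (0 : ℝ) < 3 * D.q := by
  have := H.q0
  have h : (0 : ℝ) < D.q := by exact_mod_cast this
  linarith

theorem Law_wh_pos (H : D.Ok R) (b : Bool) : (0 : ℝ) < D.w * D.h b := by
  have h1 : (0 : ℝ) < D.w := by exact_mod_cast H.w0
  have h2 : (0 : ℝ) < D.h b := by exact_mod_cast H.h0 b
  positivity

theorem Law_om_sum (H : D.Ok R) : ∑ md, D.om md = 1 := by
  unfold LD.om
  rw [sum_const, card_univ, Fintype.card_fin, nsmul_eq_mul]
  push_cast
  exact mul_one_div_cancel (Law_q_pos H).ne'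

theorem Law_wt_nonneg (H : D.Ok R) (k : Kn) (md : Fin (3 * D.q)) (a : ℕ) : 0 ≤ D.wt k md a := by
  unfold LD.wt
  split_ifs
  · exact (one_div_pos.2 (Law_wh_pos H _)).le
  · exact le_rfl

theorem Law_wt_le (H : D.Ok R) (k : Kn) (md : Fin (3 * D.q)) (a : ℕ) :
    D.wt k md a ≤ 1 / (D.w * D.h (tyK k)) := by
  unfold LD.wt
  split_ifs
  · exact le_rfl
  · exact (one_div_pos.2 (Law_wh_pos H _)).le

theorem Law_wt_sum (H : D.Ok R) (k : Kn) (md : Fin (3 * D.q)) :
    ∑ y : Fin (R + 1), D.wt k md (y : ℕ) = 1 := by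
  rw [Fin.sum_univ_eq_sum_range (fun y => D.wt k md y) (R + 1)]
  unfold LD.wt
  rw [← sum_filter]
  have hpos := posK_lt H.q0 k md
  have hR := H.leR (tyK k)
  have hle : (posK D.q k md + D.w) * D.h (tyK k) ≤ (3 * D.q + D.w - 1) * D.h (tyK k) :=
    Nat.mul_le_mul_right _ (by omega)
  have h1 : (range (R + 1)).filter (fun a => D.lo (tyK k) + posK D.q k md * D.h (tyK k) ≤ a ∧
      a < D.lo (tyK k) + (posK D.q k md + D.w) * D.h (tyK k)) =
      Ico (D.lo (tyK k) + posK D.q k md * D.h (tyK k))
        (D.lo (tyK k) + (posK D.q k md + D.w) * D.h (tyK k)) := by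
    ext a
    rw [mem_filter, mem_range, mem_Ico]
    constructor
    · exact fun h => h.2
    · exact fun h => ⟨by omega, h⟩
  rw [h1, sum_const, Nat.card_Ico, nsmul_eq_mul]
  have h2 : D.lo (tyK k) + (posK D.q k md + D.w) * D.h (tyK k) -
      (D.lo (tyK k) + posK D.q k md * D.h (tyK k)) = D.w * D.h (tyK k) := by
    rw [add_mul]
    omega
  rw [h2]
  push_cast
  exact mul_one_div_cancel (Law_wh_pos H _).ne'

/-- the law is admissible -/
theorem lawOK (H : D.Ok R) {θ : ℝ} (hθ : ∀ b, 1 / (D.w * D.h b : ℝ) ≤ θ) :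
    LawOK D.om D.wt R θ := by
  refine ⟨fun md => ?_, Law_om_sum H, fun k md a => Law_wt_nonneg H k md a,
    fun k md => Law_wt_sum H k md, fun k md => ?_,
    fun k md a => (Law_wt_le H k md a).trans (hθ (tyK k))⟩
  · unfold LD.om
    exact (one_div_pos.2 (Law_q_pos H)).le
  · unfold LD.wt
    rw [if_neg]
    intro h
    have := H.lo1 (tyK k)
    omega

theorem Law_ok (H : D.Ok R) :
    LawOK D.om D.wt R (max (1 / (D.w * D.h true : ℝ)) (1 / (D.w * D.h false : ℝ))) := by
  refine lawOK H fun b => ?_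
  cases b
  · exact le_max_right _ _
  · exact le_max_left _ _

/-- the modes with a given label in the window -/
theorem Law_sum_wt (H : D.Ok R) (k : Kn) (a : ℕ) :
    ∑ md, D.wt k md a ≤
      if D.lo (tyK k) ≤ a ∧ a < D.lo (tyK k) + (3 * D.q + D.w - 1) * D.h (tyK k) then
        1 / (D.h (tyK k) : ℝ) else 0 := by
  have hh := H.h0 (tyK k)
  have hhR : (0 : ℝ) < D.h (tyK k) := by exact_mod_cast hh
  have hwR : (0 : ℝ) < D.w := by exact_mod_cast H.w0
  have hsum : ∑ md, D.wt k md a = ((univ.filter fun md : Fin (3 * D.q) =>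
      D.lo (tyK k) + posK D.q k md * D.h (tyK k) ≤ a ∧
      a < D.lo (tyK k) + (posK D.q k md + D.w) * D.h (tyK k)).card : ℝ) *
        (1 / (D.w * D.h (tyK k))) := by
    unfold LD.wt
    rw [← sum_filter, sum_const, nsmul_eq_mul]
  rw [hsum]
  by_cases ha : D.lo (tyK k) ≤ a ∧ a < D.lo (tyK k) + (3 * D.q + D.w - 1) * D.h (tyK k)
  · rw [if_pos ha]
    have hcard : (univ.filter fun md : Fin (3 * D.q) =>
        D.lo (tyK k) + posK D.q k md * D.h (tyK k) ≤ a ∧
        a < D.lo (tyK k) + (posK D.q k md + D.w) * D.h (tyK k)).card ≤ D.w := by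
      have h1 : (univ.filter fun md : Fin (3 * D.q) =>
          D.lo (tyK k) + posK D.q k md * D.h (tyK k) ≤ a ∧
          a < D.lo (tyK k) + (posK D.q k md + D.w) * D.h (tyK k)).card =
          ((univ.filter fun md : Fin (3 * D.q) =>
          D.lo (tyK k) + posK D.q k md * D.h (tyK k) ≤ a ∧
          a < D.lo (tyK k) + (posK D.q k md + D.w) * D.h (tyK k)).image
            fun md : Fin (3 * D.q) => posK D.q k md).card := by
        rw [card_image_of_injOn]
        intro md _ md' _ h
        exact posK_inj H.q0 k md md' h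
      rw [h1]
      have h2 : ((univ.filter fun md : Fin (3 * D.q) =>
          D.lo (tyK k) + posK D.q k md * D.h (tyK k) ≤ a ∧
          a < D.lo (tyK k) + (posK D.q k md + D.w) * D.h (tyK k)).image
            fun md : Fin (3 * D.q) => posK D.q k md) ⊆
          Ico ((a - D.lo (tyK k)) / D.h (tyK k) + 1 - D.w)
            ((a - D.lo (tyK k)) / D.h (tyK k) + 1) := by
        intro c hc
        obtain ⟨md, hmd, rfl⟩ := mem_image.1 hc
        obtain ⟨h3, h4⟩ := (mem_filter.1 hmd).2
        rw [mem_Ico]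
        have h5 : posK D.q k md ≤ (a - D.lo (tyK k)) / D.h (tyK k) := by
          rw [Nat.le_div_iff_mul_le hh]
          omega
        have h6 : (a - D.lo (tyK k)) / D.h (tyK k) < posK D.q k md + D.w := by
          rw [Nat.div_lt_iff_lt_mul hh]
          omega
        omega
      refine (card_le_card h2).trans ?_
      rw [Nat.card_Ico]
      omega
    have hcR : ((univ.filter fun md : Fin (3 * D.q) =>
        D.lo (tyK k) + posK D.q k md * D.h (tyK k) ≤ a ∧
        a < D.lo (tyK k) + (posK D.q k md + D.w) * D.h (tyK k)).card : ℝ) ≤ D.w := by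
      exact_mod_cast hcard
    calc _ ≤ (D.w : ℝ) * (1 / (D.w * D.h (tyK k))) :=
          mul_le_mul_of_nonneg_right hcR (by positivity)
      _ = 1 / (D.h (tyK k) : ℝ) := by
          field_simp
  · rw [if_neg ha]
    have h1 : (univ.filter fun md : Fin (3 * D.q) =>
        D.lo (tyK k) + posK D.q k md * D.h (tyK k) ≤ a ∧
        a < D.lo (tyK k) + (posK D.q k md + D.w) * D.h (tyK k)) = ∅ := by
      rw [filter_eq_empty_iff]
      intro md _ h
      apply ha
      have hpos := posK_lt H.q0 k md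
      have hle : (posK D.q k md + D.w) * D.h (tyK k) ≤ (3 * D.q + D.w - 1) * D.h (tyK k) :=
        Nat.mul_le_mul_right _ (by omega)
      exact ⟨by omega, by omega⟩
    rw [h1]
    simp

/-- **marginal law**: every label has probability at most `1 / (3 q h)` (there are at most `w` modes with
a given label in the window) -/
theorem Pr_label_le (H : D.Ok R) (i : Fin s) (k : Kn) (hi : o i = some k) (a : ℕ) :
    Pr D.om D.wt R o (fun x => x i = a) ≤
      (if D.lo (tyK k) ≤ a ∧ a < D.lo (tyK k) + (3 * D.q + D.w - 1) * D.h (tyK k) then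
        1 / (3 * D.q * D.h (tyK k)) else 0 : ℝ) := by
  rw [Pr_eq]
  have h1 : ∀ md, Prm D.wt R md o (fun x => x i = a) ≤ D.wt k md a := by
    intro md
    have h2 := Prm_one (Law_ok H) md i k hi (fun y => y = a)
    rw [h2, Fin.sum_univ_eq_sum_range (fun y => if y = a then D.wt k md y else 0) (R + 1),
      sum_ite_eq' (range (R + 1)) a (fun y => D.wt k md y)]
    split_ifs
    · exact le_rfl
    · exact Law_wt_nonneg H k md a
  have h3 := Law_sum_wt H k a
  have hq := Law_q_pos H
  calc ∑ md, D.om md * Prm D.wt R md o (fun x => x i = a)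
      ≤ ∑ md, 1 / (3 * D.q : ℝ) * D.wt k md a := by
        refine sum_le_sum fun md _ => ?_
        unfold LD.om
        exact mul_le_mul_of_nonneg_left (h1 md) (one_div_pos.2 hq).le
    _ = 1 / (3 * D.q : ℝ) * ∑ md, D.wt k md a := by rw [mul_sum]
    _ ≤ 1 / (3 * D.q : ℝ) *
        (if D.lo (tyK k) ≤ a ∧ a < D.lo (tyK k) + (3 * D.q + D.w - 1) * D.h (tyK k) then
          1 / (D.h (tyK k) : ℝ) else 0) := mul_le_mul_of_nonneg_left h3 (one_div_pos.2 hq).le
    _ = _ := by
        split_ifs
        · rw [one_div_mul_one_div]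
        · rw [mul_zero]

/-- all labels of active slots are in their windows -/
def InW (D : LD) (o : Fin s → Option Kn) (md : Fin (3 * D.q)) (x : Fin s → ℕ) : Prop :=
  ∀ i k, o i = some k → D.lo (tyK k) + posK D.q k md * D.h (tyK k) ≤ x i ∧
    x i < D.lo (tyK k) + (posK D.q k md + D.w) * D.h (tyK k)

/-- in a mode the labels are in the windows -/
theorem Prm_eq_zero (H : D.Ok R) (md : Fin (3 * D.q)) (A : (Fin s → ℕ) → Prop)
    (hA : ∀ x, InW D o md x → ¬ A x) : Prm D.wt R md o A = 0 := by
  classical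
  unfold Prm Pool.Agent.AMB.pE
  refine sum_eq_zero fun x _ => ?_
  by_cases hx : InW D o md (fun i => (x i : ℕ))
  · simp only [if_neg (hA _ hx), mul_zero]
  · unfold InW at hx
    push Not at hx
    obtain ⟨i, k, hk, hik⟩ := hx
    have h1 : wl D.wt R md (o i) (x i) = 0 := by
      rw [hk]
      show D.wt k md (x i : ℕ) = 0
      unfold LD.wt
      rw [if_neg]
      rintro ⟨h2, h3⟩
      exact absurd h3 (not_lt.2 (hik h2))
    rw [prod_eq_zero (mem_univ i) h1, zero_mul]

theorem Prm_eq_one (H : D.Ok R) (md : Fin (3 * D.q)) (A : (Fin s → ℕ) → Prop)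
    (hA : ∀ x, InW D o md x → A x) : Prm D.wt R md o A = 1 := by
  have h1 := Prm_not (o := o) (Law_ok H) md A
  rw [Prm_eq_zero H md (fun x => ¬ A x) fun x hx h => h (hA x hx)] at h1
  linarith

/-- an event that is impossible outside the modes `Bad` -/
theorem Pr_le_bad (H : D.Ok R) (Bad : Finset (Fin (3 * D.q))) (A : (Fin s → ℕ) → Prop)
    (hA : ∀ md, md ∉ Bad → ∀ x, InW D o md x → ¬ A x) :
    Pr D.om D.wt R o A ≤ Bad.card / (3 * D.q) := by
  classical
  rw [Pr_eq]
  have hq := Law_q_pos H
  calc ∑ md, D.om md * Prm D.wt R md o A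
      ≤ ∑ md : Fin (3 * D.q), (if md ∈ Bad then 1 / (3 * D.q : ℝ) else 0) := by
        refine sum_le_sum fun md _ => ?_
        unfold LD.om
        by_cases hmd : md ∈ Bad
        · rw [if_pos hmd]
          calc 1 / (3 * D.q : ℝ) * Prm D.wt R md o A ≤ 1 / (3 * D.q : ℝ) * 1 :=
                mul_le_mul_of_nonneg_left (Prm_le_one (Law_ok H) md A) (one_div_pos.2 hq).le
            _ = 1 / (3 * D.q : ℝ) := mul_one _
        · rw [if_neg hmd, Prm_eq_zero H md A (hA md hmd), mul_zero]
    _ = Bad.card / (3 * D.q) := by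
        rw [← sum_filter, sum_const, nsmul_eq_mul, filter_mem_eq_inter, univ_inter, mul_one_div]

/-- an event that is sure in the modes `Good` -/
theorem Pr_ge_good (H : D.Ok R) (Good : Finset (Fin (3 * D.q))) (A : (Fin s → ℕ) → Prop)
    (hA : ∀ md ∈ Good, ∀ x, InW D o md x → A x) :
    (Good.card / (3 * D.q) : ℝ) ≤ Pr D.om D.wt R o A := by
  classical
  rw [Pr_eq]
  have hq := Law_q_pos H
  calc (Good.card / (3 * D.q) : ℝ)
      = ∑ md : Fin (3 * D.q), (if md ∈ Good then 1 / (3 * D.q : ℝ) else 0) := by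
        rw [← sum_filter, sum_const, nsmul_eq_mul, filter_mem_eq_inter, univ_inter, mul_one_div]
    _ ≤ ∑ md, D.om md * Prm D.wt R md o A := by
        refine sum_le_sum fun md _ => ?_
        unfold LD.om
        by_cases hmd : md ∈ Good
        · rw [if_pos hmd, Prm_eq_one H md A (hA md hmd), mul_one]
        · rw [if_neg hmd]
          exact mul_nonneg (one_div_pos.2 hq).le (Prm_nonneg (Law_ok H) md A)

end Pool.Agent.AMH
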