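import Pool.Agent.AMH.Law

/-!
# Star centres and windows: probabilities of the bad and of the good labellings

`Pr_le_bad` and `Pr_ge_good`.
-/

set_option autoImplicit false
set_option linter.unusedSectionVars false
set_option linter.unusedVariables false

namespace Pool.Agent.AMH

open Finset
open Pool.Agent.AME
open Pool.Agent.AMA (Frm val)

variable {D : LD} {R : ℕ} {s : ℕ} {o : Fin s → Option Kn}

private theorem StarB_card_ge {n a b : ℕ} (P : Fin n → Prop) [DecidablePred P] (hb : b ≤ n)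
    (h : ∀ t (ht : t < n), a ≤ t → t < b → P ⟨t, ht⟩) : b - a ≤ (univ.filter P).card := by
  rw [← Nat.card_Ico, ← Finset.card_image_of_injective (univ.filter P) Fin.val_injective]
  refine Finset.card_le_card fun t ht => ?_
  rw [Finset.mem_Ico] at ht
  rw [Finset.mem_image]
  exact ⟨⟨t, lt_of_lt_of_le ht.2 hb⟩, Finset.mem_filter.2 ⟨Finset.mem_univ _, h t _ ht.1 ht.2⟩, rfl⟩

private theorem StarB_card_le {n b : ℕ} (P : Fin n → Prop) [DecidablePred P]
    (h : ∀ md : Fin n, P md → (md : ℕ) < b) : (univ.filter P).card ≤ b := by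
  rw [← Finset.card_range b, ← Finset.card_image_of_injective (univ.filter P) Fin.val_injective]
  refine Finset.card_le_card fun t ht => ?_
  rw [Finset.mem_image] at ht
  obtain ⟨md, hmd, rfl⟩ := ht
  exact Finset.mem_range.2 (h md (Finset.mem_filter.1 hmd).2)

private theorem StarB_pos1 (q : ℕ) (md : ℕ) : posK q 1 md = md := rfl

private theorem StarB_pos2 (q : ℕ) (md : ℕ) : posK q 2 md = md := rfl

private theorem StarB_pos3 (q : ℕ) (md : ℕ) : posK q 3 md = (md + q) % (3 * q) := rfl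

private theorem StarB_pos4 (q : ℕ) (md : ℕ) : posK q 4 md = (md + 2 * q) % (3 * q) := rfl

private theorem StarB_pos5 (q : ℕ) (md : ℕ) : posK q 5 md = 3 * q - 1 - md := rfl

private theorem StarB_ty (k : Kn) (hk : k ≠ 0) : tyK k = false := by
  simp [tyK, hk]

private theorem StarB_mod {x n : ℕ} (h1 : n ≤ x) (h2 : x < 2 * n) : x % n = x - n := by
  rw [Nat.mod_eq_sub_mod h1, Nat.mod_eq_of_lt (by omega)]

/-- the sum of the three positions -/
private theorem StarB_sum3 {q md : ℕ} (hq : 0 < q) (h : md < 3 * q) :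
    md + (md + q) % (3 * q) + (md + 2 * q) % (3 * q) = 3 * q + 3 * (md % q) := by
  rcases Nat.lt_or_ge md q with h1 | h1
  · rw [Nat.mod_eq_of_lt (show md + q < 3 * q by omega),
      Nat.mod_eq_of_lt (show md + 2 * q < 3 * q by omega), Nat.mod_eq_of_lt h1]
    omega
  · rcases Nat.lt_or_ge md (2 * q) with h2 | h2
    · rw [Nat.mod_eq_of_lt (show md + q < 3 * q by omega),
        StarB_mod (show 3 * q ≤ md + 2 * q by omega) (by omega),
        StarB_mod h1 (by omega)]
      omega
    · have e : md % q = md - 2 * q := by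
        rw [Nat.mod_eq_sub_mod h1, StarB_mod (show q ≤ md - q by omega) (by omega)]
        omega
      rw [StarB_mod (show 3 * q ≤ md + q by omega) (by omega),
        StarB_mod (show 3 * q ≤ md + 2 * q by omega) (by omega), e]
      omega

/-- the number of modes with a small or a large remainder -/
private theorem StarB_card3 {q w e : ℕ} (hq : 0 < q) (P : Fin (3 * q) → Prop) [DecidablePred P]
    (hP : ∀ md : Fin (3 * q), P md → 3 * ((md : ℕ) % q) ≤ e ∨
      3 * q < 3 * ((md : ℕ) % q) + 3 * w + e) :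
    (univ.filter P).card ≤ 3 * w + 2 * e + 6 := by
  classical
  set A : Finset ℕ := range (e / 3 + 1) ∪ Ico (q - (w + e / 3)) q with hA
  have hAc : A.card ≤ (e / 3 + 1) + (w + e / 3) := by
    refine (Finset.card_union_le _ _).trans ?_
    rw [Finset.card_range, Nat.card_Ico]
    omega
  have hle : (univ.filter P).card ≤ (range 3 ×ˢ A).card := by
    refine Finset.card_le_card_of_injOn (fun md => ((md : ℕ) / q, (md : ℕ) % q)) ?_ ?_
    · intro md hmd
      have hmd' : P md := (Finset.mem_filter.1 (Finset.mem_coe.1 hmd)).2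
      have h1 := hP md hmd'
      have h2 : (md : ℕ) % q < q := Nat.mod_lt _ hq
      have h3 : (md : ℕ) / q < 3 := by
        rw [Nat.div_lt_iff_lt_mul hq]
        exact md.2
      simp only [Finset.coe_product, Set.mem_prod, Finset.mem_coe, Finset.mem_range, hA,
        Finset.mem_union, Finset.mem_Ico]
      refine ⟨h3, ?_⟩
      rcases h1 with h1 | h1
      · left
        omega
      · right
        refine ⟨?_, h2⟩
        omega
    · intro md _ md' _ h
      simp only [Prod.mk.injEq] at h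
      apply Fin.ext
      rw [← Nat.div_add_mod (md : ℕ) q, ← Nat.div_add_mod (md' : ℕ) q, h.1, h.2]
  rw [Finset.card_product, Finset.card_range] at hle
  omega

private theorem StarB_le_div {c b q : ℕ} {x : ℝ} (h : x ≤ (c : ℝ) / (3 * q)) (hc : c ≤ b) :
    x ≤ (b : ℝ) / (3 * q) :=
  h.trans (div_le_div_of_nonneg_right (by exact_mod_cast hc) (by positivity))

private theorem StarB_tenth {c q : ℕ} {x : ℝ} (hq : 0 < q) (h : (c : ℝ) / (3 * q) ≤ x)
    (hc : 3 * q ≤ 10 * c) : 1 / 10 ≤ x := by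
  refine le_trans ?_ h
  have hq' : (0 : ℝ) < q := by exact_mod_cast hq
  have hc' : (3 : ℝ) * q ≤ 10 * c := by exact_mod_cast hc
  rw [div_le_div_iff₀ (by norm_num) (by positivity)]
  linarith

/-- Star with three leaves. The positions have the sum `3 q + 3 (md mod q)`; so the sum of the labels is in
`[3 lo + (3 q + 3 (md mod q)) h, 3 lo + (3 q + 3 (md mod q) + 3 w) h - 3]`. -/
theorem Pr_badS3 (H : D.Ok R) (i j l : Fin s) (hi : o i = some 2) (hj : o j = some 3)
    (hl : o l = some 4) (A1 B1 e : ℕ)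
    (hA : A1 ≤ 3 * D.lo false + 3 * D.q * D.h false + e * D.h false)
    (hB : 3 * D.lo false + 6 * D.q * D.h false ≤ B1 + e * D.h false) :
    Pr D.om D.wt R o (fun x => ¬ (A1 < x i + x j + x l ∧ x i + x j + x l ≤ B1)) ≤
      (3 * D.w + 2 * e + 6) / (3 * D.q) := by
  classical
  have hq := H.q0
  have hh := H.h0 false
  set Bad : Finset (Fin (3 * D.q)) := univ.filter fun md => 3 * ((md : ℕ) % D.q) ≤ e ∨
      3 * D.q < 3 * ((md : ℕ) % D.q) + 3 * D.w + e with hBad
  have h1 := Pr_le_bad (o := o) H Bad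
    (fun x => ¬ (A1 < x i + x j + x l ∧ x i + x j + x l ≤ B1)) (by
      intro md hmd x hx
      rw [not_not]
      have hmd' : ¬ (3 * ((md : ℕ) % D.q) ≤ e ∨
          3 * D.q < 3 * ((md : ℕ) % D.q) + 3 * D.w + e) := fun h =>
        hmd (Finset.mem_filter.2 ⟨Finset.mem_univ _, h⟩)
      obtain ⟨a1, a2⟩ := hx i 2 hi
      obtain ⟨b1, b2⟩ := hx j 3 hj
      obtain ⟨c1, c2⟩ := hx l 4 hl
      rw [StarB_ty 2 (by decide), StarB_pos2] at a1 a2
      rw [StarB_ty 3 (by decide), StarB_pos3] at b1 b2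
      rw [StarB_ty 4 (by decide), StarB_pos4] at c1 c2
      have hs := StarB_sum3 hq md.2
      generalize ((md : ℕ) + D.q) % (3 * D.q) = pj at *
      generalize ((md : ℕ) + 2 * D.q) % (3 * D.q) = pl at *
      have k1 : 3 * D.q + e + 1 ≤ (md : ℕ) + pj + pl := by omega
      have k2 : (md : ℕ) + pj + pl + 3 * D.w + e ≤ 6 * D.q := by omega
      have k1' := Nat.mul_le_mul_right (D.h false) k1
      have k2' := Nat.mul_le_mul_right (D.h false) k2
      constructor
      · nlinarith
      · nlinarith)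
  have h2 : Bad.card ≤ 3 * D.w + 2 * e + 6 := StarB_card3 hq _ fun md h => h
  have h3 := StarB_le_div h1 h2
  push_cast at h3
  exact h3

/-- Star with at least four leaves. The positions have the sum `2 md + 3 q - 1`. -/
theorem Pr_badS4 (H : D.Ok R) (i j l m : Fin s) (hi : o i = some 1) (hj : o j = some 1)
    (hl : o l = some 1) (hm : o m = some 5) (A1 e : ℕ)
    (hA : A1 ≤ 4 * D.lo false + 3 * D.q * D.h false + e * D.h false) :
    Pr D.om D.wt R o (fun x => ¬ (A1 < x i + x j + x l + x m)) ≤ (e + 4) / (3 * D.q) := by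
  classical
  have hq := H.q0
  have hh := H.h0 false
  set Bad : Finset (Fin (3 * D.q)) := univ.filter fun md => 2 * (md : ℕ) ≤ e + 1 with hBad
  have h1 := Pr_le_bad (o := o) H Bad (fun x => ¬ (A1 < x i + x j + x l + x m)) (by
      intro md hmd x hx
      rw [not_not]
      have hmd' : ¬ (2 * (md : ℕ) ≤ e + 1) := fun h =>
        hmd (Finset.mem_filter.2 ⟨Finset.mem_univ _, h⟩)
      obtain ⟨a1, a2⟩ := hx i 1 hi
      obtain ⟨b1, b2⟩ := hx j 1 hj
      obtain ⟨c1, c2⟩ := hx l 1 hl
      obtain ⟨d1, d2⟩ := hx m 5 hm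
      rw [StarB_ty 1 (by decide), StarB_pos1] at a1 a2 b1 b2 c1 c2
      rw [StarB_ty 5 (by decide), StarB_pos5] at d1 d2
      have hlt := md.2
      obtain ⟨r, hr⟩ : ∃ r, r = 3 * D.q - 1 - (md : ℕ) := ⟨_, rfl⟩
      rw [← hr] at d1 d2
      have k1 : 3 * D.q + e + 1 ≤ (md : ℕ) + md + md + r := by omega
      have k1' := Nat.mul_le_mul_right (D.h false) k1
      nlinarith)
  have h2 : Bad.card ≤ e + 4 := (StarB_card_le (b := e + 4) _ fun md h => by
    have h' : 2 * (md : ℕ) ≤ e + 1 := h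
    omega)
  have h3 := StarB_le_div h1 h2
  push_cast at h3
  exact h3

/-- Window for a leaf slot: the modes with `2 md > 3 q + e` -/
theorem Pr_gwP (H : D.Ok R) (i : Fin s) (hi : o i = some 1) (A2 e : ℕ)
    (hA : A2 ≤ 2 * D.lo false + 3 * D.q * D.h false + e * D.h false) (he : 5 * e + 10 ≤ 2 * D.q) :
    1 / 10 ≤ Pr D.om D.wt R o (fun x => A2 < 2 * x i) := by
  classical
  have hq := H.q0
  have hh := H.h0 false
  set Good : Finset (Fin (3 * D.q)) := univ.filter fun md => 3 * D.q + e < 2 * (md : ℕ)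
    with hGood
  have h1 := Pr_ge_good (o := o) H Good (fun x => A2 < 2 * x i) (by
      intro md hmd x hx
      have hmd' : 3 * D.q + e < 2 * (md : ℕ) := (Finset.mem_filter.1 hmd).2
      obtain ⟨a1, a2⟩ := hx i 1 hi
      rw [StarB_ty 1 (by decide), StarB_pos1] at a1 a2
      have k1 : 3 * D.q + e + 1 ≤ 2 * (md : ℕ) := hmd'
      have k1' := Nat.mul_le_mul_right (D.h false) k1
      nlinarith)
  have h2 : 3 * D.q - ((3 * D.q + e) / 2 + 1) ≤ Good.card :=
    StarB_card_ge (b := 3 * D.q) _ le_rfl fun t ht h3 _ => by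
      show 3 * D.q + e < 2 * t
      omega
  exact StarB_tenth hq h1 (by omega)

/-- Window for the gadget of a star with three leaves: the modes with `q ≤ md < 2 q`, `2 md > 3 q + e` -/
theorem Pr_gwS3 (H : D.Ok R) (i j l : Fin s) (hi : o i = some 2) (hj : o j = some 3)
    (hl : o l = some 4) (A2 e : ℕ)
    (hA : A2 ≤ 2 * D.lo false + 3 * D.q * D.h false + e * D.h false) (he : 5 * e + 10 ≤ 2 * D.q) :
    1 / 10 ≤ Pr D.om D.wt R o (fun x => A2 < 2 * x i ∧ A2 < x j + x l) := by
  classical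
  have hq := H.q0
  have hh := H.h0 false
  set Good : Finset (Fin (3 * D.q)) := univ.filter fun md =>
    3 * D.q + e < 2 * (md : ℕ) ∧ (md : ℕ) < 2 * D.q with hGood
  have h1 := Pr_ge_good (o := o) H Good (fun x => A2 < 2 * x i ∧ A2 < x j + x l) (by
      intro md hmd x hx
      obtain ⟨hmd', hmd2⟩ : 3 * D.q + e < 2 * (md : ℕ) ∧ (md : ℕ) < 2 * D.q :=
        (Finset.mem_filter.1 hmd).2
      obtain ⟨a1, a2⟩ := hx i 2 hi
      obtain ⟨b1, b2⟩ := hx j 3 hj
      obtain ⟨c1, c2⟩ := hx l 4 hl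
      rw [StarB_ty 2 (by decide), StarB_pos2] at a1 a2
      rw [StarB_ty 3 (by decide), StarB_pos3] at b1 b2
      rw [StarB_ty 4 (by decide), StarB_pos4] at c1 c2
      have e1 : ((md : ℕ) + D.q) % (3 * D.q) = md + D.q := Nat.mod_eq_of_lt (by omega)
      have e2 : ((md : ℕ) + 2 * D.q) % (3 * D.q) = md - D.q := by
        rw [StarB_mod (by omega) (by omega)]
        omega
      rw [e1] at b1 b2
      rw [e2] at c1 c2
      obtain ⟨r, hr⟩ : ∃ r, r = (md : ℕ) - D.q := ⟨_, rfl⟩
      rw [← hr] at c1 c2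
      have k1 : 3 * D.q + e + 1 ≤ 2 * (md : ℕ) := hmd'
      have k1' := Nat.mul_le_mul_right (D.h false) k1
      have k2 : 3 * D.q + e + 1 ≤ (md + D.q) + r := by omega
      have k2' := Nat.mul_le_mul_right (D.h false) k2
      constructor
      · nlinarith
      · nlinarith)
  have h2 : 2 * D.q - ((3 * D.q + e) / 2 + 1) ≤ Good.card :=
    StarB_card_ge (b := 2 * D.q) _ (by omega) fun t ht h3 h4 => by
      show 3 * D.q + e < 2 * t ∧ t < 2 * D.q
      omega
  exact StarB_tenth hq h1 (by omega)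

/-- Window for the gadget of a star with at least four leaves: the modes with `2 md > 3 q + e` -/
theorem Pr_gwS4 (H : D.Ok R) (i j l m : Fin s) (hi : o i = some 1) (hj : o j = some 1)
    (hl : o l = some 1) (hm : o m = some 5) (A2 A3 e : ℕ)
    (hA : A2 ≤ 2 * D.lo false + 3 * D.q * D.h false + e * D.h false)
    (hA3 : A3 ≤ 3 * D.lo false + 3 * D.q * D.h false + e * D.h false) (he : 5 * e + 10 ≤ 2 * D.q) :
    1 / 10 ≤ Pr D.om D.wt R o (fun x => A2 < 2 * x i ∧ A3 < x j + x l + x m) := by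
  classical
  have hq := H.q0
  have hh := H.h0 false
  set Good : Finset (Fin (3 * D.q)) := univ.filter fun md => 3 * D.q + e < 2 * (md : ℕ)
    with hGood
  have h1 := Pr_ge_good (o := o) H Good (fun x => A2 < 2 * x i ∧ A3 < x j + x l + x m) (by
      intro md hmd x hx
      have hmd' : 3 * D.q + e < 2 * (md : ℕ) := (Finset.mem_filter.1 hmd).2
      obtain ⟨a1, a2⟩ := hx i 1 hi
      obtain ⟨b1, b2⟩ := hx j 1 hj
      obtain ⟨c1, c2⟩ := hx l 1 hl
      obtain ⟨d1, d2⟩ := hx m 5 hm
      rw [StarB_ty 1 (by decide), StarB_pos1] at a1 a2 b1 b2 c1 c2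
      rw [StarB_ty 5 (by decide), StarB_pos5] at d1 d2
      have hlt := md.2
      obtain ⟨r, hr⟩ : ∃ r, r = 3 * D.q - 1 - (md : ℕ) := ⟨_, rfl⟩
      rw [← hr] at d1 d2
      have k1 : 3 * D.q + e + 1 ≤ 2 * (md : ℕ) := hmd'
      have k1' := Nat.mul_le_mul_right (D.h false) k1
      have k2 : 3 * D.q + e + 1 ≤ (md : ℕ) + md + r := by omega
      have k2' := Nat.mul_le_mul_right (D.h false) k2
      constructor
      · nlinarith
      · nlinarith)
  have h2 : 3 * D.q - ((3 * D.q + e) / 2 + 1) ≤ Good.card :=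
    StarB_card_ge (b := 3 * D.q) _ le_rfl fun t ht h3 _ => by
      show 3 * D.q + e < 2 * t
      omega
  exact StarB_tenth hq h1 (by omega)

end Pool.Agent.AMH
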