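import Pool.Agent.AMH.Sys2
import Pool.Agent.AMH.FormB
import Pool.Agent.AMH.StarB
import Pool.Agent.AMH.LP

/-!
# The load hypotheses of the general parts theorem
-/

set_option autoImplicit false
set_option linter.unusedSectionVars false
set_option linter.unusedVariables false

namespace Pool.Agent.AMH

open Finset
open Pool.Agent.AME
open Pool.Agent.AMA (Frm val)

variable {F W I : Type} [Fintype F] [DecidableEq F] [Fintype W] [DecidableEq W] [Fintype I]
  [DecidableEq I] {p : ℕ} {s : ℕ}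
  {S : PSG F W I p} {L : Pools} {ι : F → Fin s} {Ik : Finset I} {Sp : Finset F} {k B : ℕ}

open Classical in
/-- Relation between the label data `D` and the label intervals; `Ik` = the kept parts. -/
structure DOk (S : PSG F W I p) (L : Pools) (Ik : Finset I) (Sp : Finset F) (D : LD) (R : ℕ) : Prop where
  ok : D.Ok R
  R_eq : R = L.NH + L.NL
  loH : D.lo true = 1
  loL : D.lo false = L.NH + 1
  poolH : (3 * D.q + D.w - 1) * D.h true ≤ L.NH
  poolL : (3 * D.q + D.w - 1) * D.h false ≤ L.NL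
  NH_le : (L.NH : ℝ) ≤ 1001 / 1000 * (3 * D.q * D.h true : ℕ)
  NL_le : (L.NL : ℝ) ≤ 1001 / 1000 * (3 * D.q * D.h false : ℕ)
  w3 : 3000 ≤ D.w
  slH : (univ.filter fun f => S.pt f ∈ Ik ∧ S.kd f = 0).card ≤ 3 * D.q * D.h true
  slL : (univ.filter fun f => S.pt f ∈ Ik ∧ S.kd f ≠ 0).card ≤ 3 * D.q * D.h false
  drop : ((univ.filter fun w => S.vp w ∉ Ik ∧ S.isR w).card : ℝ) ≤ (3 * D.q * D.h true : ℕ) / 1000
  sRp : s * R < p
  Rp : R < p

/-! ### General lemmas -/

private theorem LoadsG_law {D : LD} {R : ℕ} (H : D.Ok R) : LawOK D.om D.wt R 1 := by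
  refine lawOK H fun b => ?_
  have h1 : (1 : ℝ) ≤ D.w := by exact_mod_cast H.w0
  have h2 : (1 : ℝ) ≤ D.h b := by exact_mod_cast H.h0 b
  have h3 : (1 : ℝ) ≤ D.w * D.h b := by nlinarith
  rw [div_le_one (by linarith)]
  exact h3

private theorem LoadsG_Pr_zero {D : LD} {R : ℕ} {o : Fin s → Option Kn} (H : D.Ok R)
    (A : (Fin s → ℕ) → Prop) (hA : ∀ md x, InW D o md x → ¬ A x) :
    Pr D.om D.wt R o A ≤ 0 := by
  have h1 := Pr_le_bad H ∅ A (fun md _ x hx => hA md x hx)
  simpa using h1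

private theorem LoadsG_Pr_mono {D : LD} {R : ℕ} {o : Fin s → Option Kn} (H : D.Ok R)
    {A A' : (Fin s → ℕ) → Prop} (hAB : ∀ md x, InW D o md x → A x → A' x) :
    Pr D.om D.wt R o A ≤ Pr D.om D.wt R o A' := by
  have h1 : Pr D.om D.wt R o A ≤ Pr D.om D.wt R o (fun x => A' x ∨ ∀ md, ¬ InW D o md x) := by
    refine Pr_mono (LoadsG_law H) fun x _ hx => ?_
    by_cases h : ∃ md, InW D o md x
    · obtain ⟨md, hmd⟩ := h
      exact Or.inl (hAB md x hmd hx)
    · exact Or.inr fun md hmd => h ⟨md, hmd⟩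
  have h2 := Pr_or_le (o := o) (LoadsG_law H) A' (fun x => ∀ md, ¬ InW D o md x)
  have h3 := LoadsG_Pr_zero (o := o) H (fun x => ∀ md, ¬ InW D o md x) (fun md x hx h => h md hx)
  linarith

private theorem LoadsG_slots_sum (H : GB S ι Sp k B) (g : I → Fin s → ℝ) :
    ∑ Q, ∑ i ∈ univ.filter (fun i => (gsys S L ι Ik Sp).kd Q i ≠ none), g Q i =
      ∑ f ∈ univ.filter (fun f => S.pt f ∈ Ik), g (S.pt f) (ι f) := by
  classical
  have h1 : ∀ Q, (univ.filter fun i => (gsys S L ι Ik Sp).kd Q i ≠ none) =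
      ((univ.filter fun f => S.pt f ∈ Ik).filter fun f => S.pt f = Q).image ι := by
    intro Q
    ext i
    rw [mem_filter, mem_image, gkd_ne H]
    constructor
    · rintro ⟨_, hQ, f, rfl, rfl⟩
      exact ⟨f, mem_filter.2 ⟨mem_filter.2 ⟨mem_univ _, hQ⟩, rfl⟩, rfl⟩
    · rintro ⟨f, hf, rfl⟩
      have h2 := mem_filter.1 hf
      have h3 := mem_filter.1 h2.1
      refine ⟨mem_univ _, ?_, f, h2.2, rfl⟩
      rw [← h2.2]
      exact h3.2
  rw [← Finset.sum_fiberwise (univ.filter fun f => S.pt f ∈ Ik) S.pt]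
  refine sum_congr rfl fun Q _ => ?_
  rw [h1 Q, sum_image]
  · refine sum_congr rfl fun f hf => ?_
    rw [(mem_filter.1 hf).2]
  · intro f hf f' hf' h
    have h2 := (mem_filter.1 (Finset.mem_coe.1 hf)).2
    have h3 := (mem_filter.1 (Finset.mem_coe.1 hf')).2
    exact H.inj _ _ (h2.trans h3.symm) h

private theorem LoadsG_vert_sum (H : GB S ι Sp k B) (g : I → Frm s → ℝ) :
    ∑ Q, ∑ φ ∈ (gsys S L ι Ik Sp).S Q, g Q φ =
      ∑ w ∈ univ.filter (fun w => S.vp w ∈ Ik), g (S.vp w) (gfm S L ι w) := by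
  classical
  have h1 : ∀ Q, (gsys S L ι Ik Sp).S Q =
      ((univ.filter fun w => S.vp w ∈ Ik).filter fun w => S.vp w = Q).image (gfm S L ι) := by
    intro Q
    ext φ
    rw [mem_image, mem_gS]
    constructor
    · rintro ⟨hQ, w, rfl, rfl⟩
      exact ⟨w, mem_filter.2 ⟨mem_filter.2 ⟨mem_univ _, hQ⟩, rfl⟩, rfl⟩
    · rintro ⟨w, hw, rfl⟩
      have h2 := mem_filter.1 hw
      have h3 := mem_filter.1 h2.1
      refine ⟨?_, w, h2.2, rfl⟩
      rw [← h2.2]
      exact h3.2
  rw [← Finset.sum_fiberwise (univ.filter fun w => S.vp w ∈ Ik) S.vp]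
  refine sum_congr rfl fun Q _ => ?_
  rw [h1 Q, sum_image]
  · refine sum_congr rfl fun w hw => ?_
    rw [(mem_filter.1 hw).2]
  · intro w hw w' hw' h
    have h2 := (mem_filter.1 (Finset.mem_coe.1 hw)).2
    have h3 := (mem_filter.1 (Finset.mem_coe.1 hw')).2
    exact H.fm_inj (h2.trans h3.symm) (congrArg Prod.fst h)

private theorem LoadsG_gad_image (H : GB S ι Sp k B) (Q : I) :
    (gsys S L ι Ik Sp).Gd Q =
      ((Sp.filter fun f => S.pt f ∈ Ik).filter fun f => S.pt f = Q).image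
        (fun f => (ι f, (S.en f).image (gfb S L ι f))) := by
  classical
  ext g
  rw [mem_image, mem_gGd]
  constructor
  · rintro ⟨hQ, f, hf, rfl, rfl⟩
    exact ⟨f, mem_filter.2 ⟨mem_filter.2 ⟨hf, hQ⟩, rfl⟩, rfl⟩
  · rintro ⟨f, hf, rfl⟩
    have h2 := mem_filter.1 hf
    have h3 := mem_filter.1 h2.1
    refine ⟨?_, f, h3.1, h2.2, rfl⟩
    rw [← h2.2]
    exact h3.2

private theorem LoadsG_gad_sum (H : GB S ι Sp k B) (g : I → Fin s × Finset (Frm s) → ℝ) :
    ∑ Q, ∑ t ∈ (gsys S L ι Ik Sp).Gd Q, g Q t =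
      ∑ f ∈ Sp.filter (fun f => S.pt f ∈ Ik), g (S.pt f) (ι f, (S.en f).image (gfb S L ι f)) := by
  classical
  rw [← Finset.sum_fiberwise (Sp.filter fun f => S.pt f ∈ Ik) S.pt]
  refine sum_congr rfl fun Q _ => ?_
  rw [LoadsG_gad_image H Q, sum_image]
  · refine sum_congr rfl fun f hf => ?_
    rw [(mem_filter.1 hf).2]
  · intro f hf f' hf' h
    have h2 := (mem_filter.1 (Finset.mem_coe.1 hf)).2
    have h3 := (mem_filter.1 (Finset.mem_coe.1 hf')).2
    exact H.inj _ _ (h2.trans h3.symm) (congrArg Prod.fst h)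

private theorem LoadsG_kd (H : GB S ι Sp k B) {w : W} {f : F} (hw : S.vp w ∈ Ik)
    (hf : f ∈ S.slots w) : (gsys S L ι Ik Sp).kd (S.vp w) (ι f) = some (S.kd f) := by
  have h1 := H.pt_of_mem hf
  rw [← h1]
  exact gkd_some H (by rw [h1]; exact hw)

private theorem LoadsG_inj (H : GB S ι Sp k B) {w : W} {f g : F} (hf : f ∈ S.slots w)
    (hg : g ∈ S.slots w) (h : f ≠ g) : ι f ≠ ι g := fun h1 =>
  h (H.inj _ _ ((H.pt_of_mem hf).trans (H.pt_of_mem hg).symm) h1)

private theorem LoadsG_four {α : Type} [DecidableEq α] {a b c d : α}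
    (h : ({a, b, c, d} : Finset α).card = 4) :
    a ≠ b ∧ a ≠ c ∧ a ≠ d ∧ b ≠ c ∧ b ≠ d ∧ c ≠ d := by
  rw [card_insert_eq_ite, card_insert_eq_ite, card_insert_eq_ite, card_singleton] at h
  split_ifs at h with h1 h2 h3 h4 h5 h6 h7
  all_goals first
    | (exfalso; omega)
    | skip
  simp only [mem_insert, mem_singleton, not_or] at *
  tauto

/-- the three slots of a star centre of type `S3` -/
private theorem LoadsG_S3 {w : W} (h : S.isS3 w) :
    ∃ f g e, S.slots w = {f, g, e} ∧ S.kd f = 2 ∧ S.kd g = 3 ∧ S.kd e = 4 ∧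
      f ≠ g ∧ f ≠ e ∧ g ≠ e := by
  obtain ⟨f, g, e, h1, h2, h3, h4⟩ := h
  refine ⟨f, g, e, h1, h2, h3, h4, ?_, ?_, ?_⟩
  · rintro rfl
    rw [h2] at h3
    exact absurd h3 (by decide)
  · rintro rfl
    rw [h2] at h4
    exact absurd h4 (by decide)
  · rintro rfl
    rw [h3] at h4
    exact absurd h4 (by decide)

/-- the four slots of a star centre of type `S4` -/
private theorem LoadsG_S4 {w : W} (h : S.isS4 w) :
    ∃ f g e d, S.slots w = {f, g, e, d} ∧ (S.slots w).card = 4 ∧ S.kd f = 1 ∧ S.kd g = 1 ∧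
      S.kd e = 1 ∧ S.kd d = 5 ∧ f ≠ g ∧ f ≠ e ∧ f ≠ d ∧ g ≠ e ∧ g ≠ d ∧ e ≠ d := by
  obtain ⟨f, g, e, d, h1, hc, h2, h3, h4, h5⟩ := h
  have h6 := hc
  rw [h1] at h6
  exact ⟨f, g, e, d, h1, hc, h2, h3, h4, h5, LoadsG_four h6⟩

/-- the four slots of a star centre of type `S4`, starting with a given slot of kind `1` -/
private theorem LoadsG_S4' {w : W} (h : S.isS4 w) {f : F} (hf : f ∈ S.slots w)
    (hk : S.kd f = 1) :
    ∃ g e d, S.slots w = {f, g, e, d} ∧ S.kd g = 1 ∧
      S.kd e = 1 ∧ S.kd d = 5 ∧ f ≠ g ∧ f ≠ e ∧ f ≠ d ∧ g ≠ e ∧ g ≠ d ∧ e ≠ d := by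
  obtain ⟨a, g, e, d, h1, hc, h2, h3, h4, h5, n1, n2, n3, n4, n5, n6⟩ := LoadsG_S4 h
  have h6 := hf
  rw [h1] at h6
  simp only [mem_insert, mem_singleton] at h6
  rcases h6 with rfl | rfl | rfl | rfl
  · exact ⟨g, e, d, h1, h3, h4, h5, n1, n2, n3, n4, n5, n6⟩
  · refine ⟨a, e, d, ?_, h2, h4, h5, n1.symm, n4, n5, n2, n3, n6⟩
    rw [h1]
    ext y
    simp only [mem_insert, mem_singleton]
    tauto
  · refine ⟨a, g, d, ?_, h2, h3, h5, n2.symm, n4.symm, n6, n1, n3, n5⟩
    rw [h1]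
    ext y
    simp only [mem_insert, mem_singleton]
    tauto
  · rw [h5] at hk
    exact absurd hk (by decide)

private theorem LoadsG_rl {κ : Kn} (hk : κ ≠ 0) (x : ℕ) :
    rl L κ x = x + L.loL - 1 - L.NH := if_neg hk

/-! ### Labels -/

/-- load of the labels: `Pr_label_le`; the high slots only have labels at most `NH`, the low slots only larger
labels -/
theorem labload_ok (H : GB S ι Sp k B) {D : LD} {R : ℕ} (hD : DOk (s := s) S L Ik Sp D R) (a : ℕ) :
    ∑ Q, ∑ i ∈ univ.filter (fun i => (gsys S L ι Ik Sp).kd Q i ≠ none),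
      Pr D.om D.wt R ((gsys S L ι Ik Sp).kd Q) (fun x => x i = a) ≤ 1 := by
  classical
  rw [LoadsG_slots_sum H (fun Q i =>
    Pr D.om D.wt R ((gsys S L ι Ik Sp).kd Q) (fun x => x i = a))]
  have hq : (0 : ℝ) < D.q := by exact_mod_cast hD.ok.q0
  have hh : ∀ b, (0 : ℝ) < D.h b := fun b => by exact_mod_cast hD.ok.h0 b
  have hle : ∀ f ∈ univ.filter (fun f => S.pt f ∈ Ik),
      Pr D.om D.wt R ((gsys S L ι Ik Sp).kd (S.pt f)) (fun x => x (ι f) = a) ≤
        (if D.lo (tyK (S.kd f)) ≤ a ∧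
          a < D.lo (tyK (S.kd f)) + (3 * D.q + D.w - 1) * D.h (tyK (S.kd f)) then
        1 / (3 * D.q * D.h (tyK (S.kd f))) else 0 : ℝ) := fun f hf =>
    Pr_label_le hD.ok (ι f) (S.kd f) (gkd_some H (mem_filter.1 hf).2) a
  refine (sum_le_sum hle).trans ?_
  by_cases ha : a ≤ L.NH
  · have h1 : ∀ f ∈ univ.filter (fun f => S.pt f ∈ Ik),
        (if D.lo (tyK (S.kd f)) ≤ a ∧
          a < D.lo (tyK (S.kd f)) + (3 * D.q + D.w - 1) * D.h (tyK (S.kd f)) then
          1 / (3 * D.q * D.h (tyK (S.kd f)) : ℝ) else 0) ≤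
        if S.kd f = 0 then 1 / (3 * D.q * D.h true : ℝ) else 0 := by
      intro f _
      by_cases hk : S.kd f = 0
      · rw [if_pos hk]
        have h2 : tyK (S.kd f) = true := by simp [tyK, hk]
        rw [h2]
        have h3 := hh true
        split_ifs
        · exact le_refl _
        · positivity
      · rw [if_neg hk]
        have h2 : tyK (S.kd f) = false := by simp [tyK, hk]
        rw [h2, if_neg]
        rintro ⟨h3, _⟩
        rw [hD.loL] at h3
        omega
    refine (sum_le_sum h1).trans ?_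
    rw [← sum_filter, sum_const, nsmul_eq_mul, filter_filter]
    have h4 := hD.slH
    have h5 : (((univ.filter fun f => S.pt f ∈ Ik ∧ S.kd f = 0).card : ℕ) : ℝ) ≤
        3 * D.q * D.h true := by exact_mod_cast h4
    rw [mul_one_div, div_le_one (by have := hh true; positivity)]
    exact h5
  · have h1 : ∀ f ∈ univ.filter (fun f => S.pt f ∈ Ik),
        (if D.lo (tyK (S.kd f)) ≤ a ∧
          a < D.lo (tyK (S.kd f)) + (3 * D.q + D.w - 1) * D.h (tyK (S.kd f)) then
          1 / (3 * D.q * D.h (tyK (S.kd f)) : ℝ) else 0) ≤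
        if S.kd f ≠ 0 then 1 / (3 * D.q * D.h false : ℝ) else 0 := by
      intro f _
      by_cases hk : S.kd f = 0
      · rw [if_neg (not_not.2 hk)]
        have h2 : tyK (S.kd f) = true := by simp [tyK, hk]
        rw [h2, if_neg]
        rintro ⟨_, h3⟩
        rw [hD.loH] at h3
        have h4 := hD.poolH
        omega
      · rw [if_pos hk]
        have h2 : tyK (S.kd f) = false := by simp [tyK, hk]
        rw [h2]
        have h3 := hh false
        split_ifs
        · exact le_refl _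
        · positivity
    refine (sum_le_sum h1).trans ?_
    rw [← sum_filter, sum_const, nsmul_eq_mul, filter_filter]
    have h4 := hD.slL
    have h5 : (((univ.filter fun f => S.pt f ∈ Ik ∧ S.kd f ≠ 0).card : ℕ) : ℝ) ≤
        3 * D.q * D.h false := by exact_mod_cast h4
    rw [mul_one_div, div_le_one (by have := hh false; positivity)]
    exact h5

/-! ### Sums -/

private theorem LoadsG_tg_true (H : GB S ι Sp k B) {w : W} {x : Fin s → ℕ}
    (h : (gsys S L ι Ik Sp).tg (S.vp w) (gfm S L ι w) x = true) : ¬ S.isS3 w := by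
  classical
  intro h3
  have h1 : ¬ ∃ w', S.vp w' = S.vp w ∧ gfm S L ι w' = gfm S L ι w ∧ w' ∈ S.lowv ∧
    (S.isS3 w' ∨ rs S L ι w' x ≤ L.bb) := of_decide_eq_true h
  exact h1 ⟨w, rfl, rfl, (H.ok.S3_low w h3).1, Or.inl h3⟩

private theorem LoadsG_tg_false (H : GB S ι Sp k B) {w : W} {x : Fin s → ℕ}
    (h : (gsys S L ι Ik Sp).tg (S.vp w) (gfm S L ι w) x = false) : w ∈ S.lowv := by
  classical
  have h1 : ¬ ¬ ∃ w', S.vp w' = S.vp w ∧ gfm S L ι w' = gfm S L ι w ∧ w' ∈ S.lowv ∧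
    (S.isS3 w' ∨ rs S L ι w' x ≤ L.bb) := of_decide_eq_false h
  obtain ⟨w', h2, h3, h4, _⟩ := not_not.1 h1
  have h5 := H.fm_inj h2 (congrArg Prod.fst h3)
  rwa [← h5]

private theorem LoadsG_R (H : GB S ι Sp k B) {D : LD} {R : ℕ} [NeZero p]
    (hD : DOk (s := s) S L Ik Sp D R) {w : W} (hw : S.vp w ∈ Ik) (h : S.isR w) (a : ℕ)
    [Decidable (∃ l ∈ Ico L.loH (L.loH + L.NH), S.c w + (l : ZMod p) = (a : ZMod p))] :
    Pr D.om D.wt R ((gsys S L ι Ik Sp).kd (S.vp w)) (fun x => val (gfm S L ι w) x % p = a) ≤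
      (if ∃ l ∈ Ico L.loH (L.loH + L.NH), S.c w + (l : ZMod p) = (a : ZMod p) then
        1 / (3 * D.q * D.h true) else 0 : ℝ) := by
  classical
  obtain ⟨f, hf, hk⟩ := h
  have hfm : f ∈ S.slots w := by rw [hf]; exact mem_singleton_self _
  have h1 := LoadsG_kd (L := L) H hw hfm
  rw [hk] at h1
  have h2 := Pr_R hD.ok hD.sRp hD.Rp (gfm S L ι w) (ι f) (by
    show (S.slots w).image ι = {ι f}
    rw [hf, image_singleton]) h1 a
  refine h2.trans ?_
  have hq : (0 : ℝ) < D.q := by exact_mod_cast hD.ok.q0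
  have hh : (0 : ℝ) < D.h true := by exact_mod_cast hD.ok.h0 true
  by_cases hex : ∃ l, D.lo true ≤ l ∧ l < D.lo true + (3 * D.q + D.w - 1) * D.h true ∧
    ((gfm S L ι w).2 + l) % p = a
  · rw [if_pos hex, if_pos]
    obtain ⟨l, hl1, hl2, hl3⟩ := hex
    rw [hD.loH] at hl1 hl2
    have h4 := hD.poolH
    obtain ⟨l0, rfl⟩ : ∃ l0, l = l0 + 1 := ⟨l - 1, by omega⟩
    refine ⟨l0 + L.loH, mem_Ico.2 ⟨by omega, by omega⟩, ?_⟩
    have h5 : (gfm S L ι w).2 = (S.c w + sh L p 0).val := by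
      show (S.c w + ∑ f ∈ S.slots w, sh L p (S.kd f)).val = _
      rw [hf, sum_singleton, hk]
    rw [h5] at hl3
    have h6 : ((((S.c w + sh L p 0).val + (l0 + 1)) % p : ℕ) : ZMod p) = (a : ZMod p) := by
      rw [hl3]
    rw [ZMod.natCast_mod, Nat.cast_add, ZMod.natCast_zmod_val] at h6
    have h7 : sh L p 0 = (L.loH : ZMod p) - 1 := if_pos rfl
    rw [h7] at h6
    rw [← h6]
    push_cast
    ring
  · rw [if_neg hex]
    split_ifs
    · positivity
    · exact le_refl _

private theorem LoadsG_D (H : GB S ι Sp k B) {D : LD} {R : ℕ}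
    (hD : DOk (s := s) S L Ik Sp D R) {w : W} (hw : S.vp w ∈ Ik) (h : S.isD w) (a : ℕ) :
    Pr D.om D.wt R ((gsys S L ι Ik Sp).kd (S.vp w)) (fun x => val (gfm S L ι w) x % p = a) ≤
      (1 + 2 / D.w) / (2 * (3 * D.q * D.h true)) := by
  classical
  have hkf : ∀ f ∈ S.slots w, (((gsys S L ι Ik Sp).kd (S.vp w) (ι f)).getD 0) = S.kd f := by
    intro f hf
    rw [LoadsG_kd H hw hf]
    rfl
  refine Pr_D hD.ok hD.sRp (gfm S L ι w)
    (fun i => ((gsys S L ι Ik Sp).kd (S.vp w) i).getD 0) ?_ ?_ ?_ a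
  · intro i hi
    obtain ⟨f, hf, rfl⟩ := mem_image.1 (show i ∈ (S.slots w).image ι from hi)
    show (gsys S L ι Ik Sp).kd (S.vp w) (ι f) = some (((gsys S L ι Ik Sp).kd (S.vp w) (ι f)).getD 0)
    rw [hkf f hf]
    exact LoadsG_kd H hw hf
  · intro i hi
    obtain ⟨f, hf, rfl⟩ := mem_image.1 (show i ∈ (S.slots w).image ι from hi)
    show ((gsys S L ι Ik Sp).kd (S.vp w) (ι f)).getD 0 = 0 ∨
      ((gsys S L ι Ik Sp).kd (S.vp w) (ι f)).getD 0 = 1
    rw [hkf f hf]
    exact h.2 f hf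
  · have h1 : (((S.slots w).filter fun f => S.kd f = 0).image ι) ⊆
        (gfm S L ι w).1.filter fun i => ((gsys S L ι Ik Sp).kd (S.vp w) i).getD 0 = 0 := by
      intro i hi
      obtain ⟨f, hf, rfl⟩ := mem_image.1 hi
      have h2 := mem_filter.1 hf
      refine mem_filter.2 ⟨mem_image_of_mem _ h2.1, ?_⟩
      rw [hkf f h2.1]
      exact h2.2
    have h3 := card_le_card h1
    rw [card_image_of_injOn] at h3
    · exact h.1.trans h3
    · intro f hf g hg hfg
      by_contra hne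
      exact LoadsG_inj H (mem_filter.1 (Finset.mem_coe.1 hf)).1
        (mem_filter.1 (Finset.mem_coe.1 hg)).1 hne hfg

private theorem LoadsG_P (H : GB S ι Sp k B) {D : LD} {R : ℕ}
    (hD : DOk (s := s) S L Ik Sp D R) {w : W} (hw : S.vp w ∈ Ik) (h : S.isP w) (a : ℕ) :
    Pr D.om D.wt R ((gsys S L ι Ik Sp).kd (S.vp w)) (fun x => val (gfm S L ι w) x % p = a) ≤
      (1 + 2 / D.w) / (3 * D.q * D.h true + 3 * D.q * D.h false) := by
  classical
  obtain ⟨f, g, h1, h2, h3⟩ := h
  have hne : f ≠ g := by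
    rintro rfl
    rw [h2] at h3
    exact absurd h3 (by decide)
  have hf : f ∈ S.slots w := by rw [h1]; simp
  have hg : g ∈ S.slots w := by rw [h1]; simp
  have e1 := LoadsG_kd (L := L) H hw hf
  have e2 := LoadsG_kd (L := L) H hw hg
  rw [h2] at e1
  rw [h3] at e2
  refine Pr_P hD.ok hD.sRp (gfm S L ι w) (ι f) (ι g) (LoadsG_inj H hf hg hne) ?_ e1 e2 a
  show (S.slots w).image ι = {ι f, ι g}
  rw [h1, image_insert, image_singleton]

private theorem LoadsG_PS3 (H : GB S ι Sp k B) {D : LD} {R : ℕ}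
    (hD : DOk (s := s) S L Ik Sp D R) {w : W} (hw : S.vp w ∈ Ik) (h : S.isS3 w) (a : ℕ) :
    Pr D.om D.wt R ((gsys S L ι Ik Sp).kd (S.vp w)) (fun x => val (gfm S L ι w) x % p = a) ≤
      (1 + 3 / D.w) / (3 * D.q * D.h false) := by
  classical
  obtain ⟨f, g, e, h1, h2, h3, h4, n1, n2, n3⟩ := LoadsG_S3 h
  have hf : f ∈ S.slots w := by rw [h1]; simp
  have hg : g ∈ S.slots w := by rw [h1]; simp
  have he : e ∈ S.slots w := by rw [h1]; simp
  have e1 := LoadsG_kd (L := L) H hw hf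
  have e2 := LoadsG_kd (L := L) H hw hg
  have e3 := LoadsG_kd (L := L) H hw he
  rw [h2] at e1
  rw [h3] at e2
  rw [h4] at e3
  refine Pr_S3 hD.ok hD.sRp (gfm S L ι w) (ι f) (ι g) (ι e) ?_ (LoadsG_inj H hf hg n1)
    (LoadsG_inj H hf he n2) (LoadsG_inj H hg he n3) e1 e2 e3 a
  show (S.slots w).image ι = {ι f, ι g, ι e}
  rw [h1, image_insert, image_insert, image_singleton]

private theorem LoadsG_PS4 (H : GB S ι Sp k B) {D : LD} {R : ℕ}
    (hD : DOk (s := s) S L Ik Sp D R) {w : W} (hw : S.vp w ∈ Ik) (h : S.isS4 w) (a : ℕ) :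
    Pr D.om D.wt R ((gsys S L ι Ik Sp).kd (S.vp w)) (fun x => val (gfm S L ι w) x % p = a) ≤
      (1 + 2 / D.w) / (2 * (3 * D.q * D.h false)) := by
  classical
  obtain ⟨f, g, e, d, h1, hc, h2, h3, h4, h5, _⟩ := LoadsG_S4 h
  have hf : f ∈ S.slots w := by rw [h1]; simp
  have hg : g ∈ S.slots w := by rw [h1]; simp
  have he : e ∈ S.slots w := by rw [h1]; simp
  have hd : d ∈ S.slots w := by rw [h1]; simp
  have e1 := LoadsG_kd (L := L) H hw hf
  have e2 := LoadsG_kd (L := L) H hw hg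
  have e3 := LoadsG_kd (L := L) H hw he
  have e4 := LoadsG_kd (L := L) H hw hd
  rw [h2] at e1
  rw [h3] at e2
  rw [h4] at e3
  rw [h5] at e4
  refine Pr_S4 hD.ok hD.sRp (gfm S L ι w) (ι f) (ι g) (ι e) (ι d) ?_ ?_ e1 e2 e3 e4 a
  · show (S.slots w).image ι = {ι f, ι g, ι e, ι d}
    rw [h1, image_insert, image_insert, image_insert, image_singleton]
  · rw [H.fm_card, hc]

/-- number of low slots -/
private theorem LoadsG_low_card (H : GB S ι Sp k B) (V : Finset W) (E : Finset F)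
    (hE : ∀ w ∈ V, ∀ f ∈ S.slots w, S.kd f ≠ 0 → f ∈ E) :
    ∑ w ∈ V, ((S.slots w).filter fun f => S.kd f ≠ 0).card ≤ E.card := by
  classical
  rw [← card_biUnion]
  · refine card_le_card fun f hf => ?_
    obtain ⟨w, hw, hf⟩ := mem_biUnion.1 hf
    have h1 := mem_filter.1 hf
    exact hE w hw f h1.1 h1.2
  · intro w hw w' hw' hne
    rw [Function.onFun, Finset.disjoint_left]
    intro f hf hf'
    have h1 := mem_filter.1 hf
    have h2 := mem_filter.1 hf'
    have h3 := H.ok.en_one f h1.2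
    obtain ⟨v, hv⟩ := card_eq_one.1 h3
    have h4 := mem_slots.1 h1.1
    have h5 := mem_slots.1 h2.1
    rw [hv, mem_singleton] at h4 h5
    exact hne (h4.trans h5.symm)

private theorem LoadsG_lowS3 {w : W} (h : S.isS3 w) :
    ((S.slots w).filter fun f => S.kd f ≠ 0).card = 3 := by
  classical
  obtain ⟨f, g, e, h1, h2, h3, h4, n1, n2, n3⟩ := LoadsG_S3 h
  have h5 : ((S.slots w).filter fun f => S.kd f ≠ 0) = {f, g, e} := by
    rw [h1]
    refine filter_true_of_mem ?_
    intro y hy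
    simp only [mem_insert, mem_singleton] at hy
    rcases hy with rfl | rfl | rfl
    · rw [h2]; decide
    · rw [h3]; decide
    · rw [h4]; decide
  rw [h5]
  exact card_eq_three.2 ⟨f, g, e, n1, n2, n3, rfl⟩

private theorem LoadsG_lowS4 {w : W} (h : S.isS4 w) :
    ((S.slots w).filter fun f => S.kd f ≠ 0).card = 4 := by
  classical
  obtain ⟨f, g, e, d, h1, hc, h2, h3, h4, h5, _⟩ := LoadsG_S4 h
  have h6 : ((S.slots w).filter fun f => S.kd f ≠ 0) = S.slots w := by
    refine filter_true_of_mem ?_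
    intro y hy
    rw [h1] at hy
    simp only [mem_insert, mem_singleton] at hy
    rcases hy with rfl | rfl | rfl | rfl
    · rw [h2]; decide
    · rw [h3]; decide
    · rw [h4]; decide
    · rw [h5]; decide
  rw [h6, hc]

private theorem LoadsG_lowP {w : W} (h : S.isP w) :
    1 ≤ ((S.slots w).filter fun f => S.kd f ≠ 0).card := by
  classical
  obtain ⟨f, g, h1, h2, h3⟩ := h
  refine card_pos.2 ⟨g, mem_filter.2 ⟨by rw [h1]; simp, ?_⟩⟩
  rw [h3]
  decide

open Classical in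
/-- the numbers of vertices of the types -/
private theorem LoadsG_counts (H : GB S ι Sp k B) {D : LD} {R : ℕ}
    (hD : DOk (s := s) S L Ik Sp D R) :
    1000 * (2 * (univ.filter fun w => S.vp w ∈ Ik ∧ S.isR w).card +
        (univ.filter fun w => S.vp w ∈ Ik ∧ S.isP w).card +
        2 * (univ.filter fun w => S.vp w ∈ Ik ∧ S.isD w).card) ≤
      1001 * (2 * (univ.filter fun f => S.pt f ∈ Ik ∧ S.kd f = 0).card) ∧
    (univ.filter fun w => S.vp w ∈ Ik ∧ S.isP w).card +
      3 * (univ.filter fun w => S.vp w ∈ Ik ∧ S.isS3 w).card +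
      4 * (univ.filter fun w => S.vp w ∈ Ik ∧ S.isS4 w).card ≤ 3 * D.q * D.h false := by
  constructor
  · have hV : ∀ T : W → Prop, (univ.filter fun w => S.vp w ∈ Ik ∧ T w).card =
        ∑ i ∈ Ik, (univ.filter fun w => S.vp w = i ∧ T w).card := by
      intro T
      rw [card_eq_sum_card_fiberwise (f := S.vp) (t := Ik)
        (fun w hw => (mem_filter.1 (Finset.mem_coe.1 hw)).2.1)]
      refine sum_congr rfl fun i hi => ?_
      congr 1
      ext w
      simp only [mem_filter, mem_univ, true_and]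
      constructor
      · rintro ⟨⟨_, h1⟩, h2⟩
        exact ⟨h2, h1⟩
      · rintro ⟨h1, h2⟩
        exact ⟨⟨by rw [h1]; exact hi, h2⟩, h1⟩
    have hF : (univ.filter fun f => S.pt f ∈ Ik ∧ S.kd f = 0).card =
        ∑ i ∈ Ik, (univ.filter fun f => S.pt f = i ∧ S.kd f = 0).card := by
      rw [card_eq_sum_card_fiberwise (f := S.pt) (t := Ik)
        (fun w hw => (mem_filter.1 (Finset.mem_coe.1 hw)).2.1)]
      refine sum_congr rfl fun i hi => ?_
      congr 1
      ext w
      simp only [mem_filter, mem_univ, true_and]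
      constructor
      · rintro ⟨⟨_, h1⟩, h2⟩
        exact ⟨h2, h1⟩
      · rintro ⟨h1, h2⟩
        exact ⟨⟨by rw [h1]; exact hi, h2⟩, h1⟩
    rw [hV, hV, hV, hF]
    have h1 := sum_le_sum fun i (_ : i ∈ Ik) => H.ok.load i
    simp only [← mul_sum, sum_add_distrib] at h1
    exact h1
  · refine le_trans ?_ hD.slL
    have h1 := LoadsG_low_card H (univ.filter fun w => S.vp w ∈ Ik)
      (univ.filter fun f => S.pt f ∈ Ik ∧ S.kd f ≠ 0) (by
        intro w hw f hf hk
        refine mem_filter.2 ⟨mem_univ _, ?_, hk⟩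
        rw [H.pt_of_mem hf]
        exact (mem_filter.1 hw).2)
    refine le_trans ?_ h1
    have h2 : ∀ T : W → Prop, (univ.filter fun w => S.vp w ∈ Ik ∧ T w).card =
        ∑ w ∈ univ.filter (fun w => S.vp w ∈ Ik), if T w then 1 else 0 := by
      intro T
      rw [← filter_filter, card_filter]
    rw [h2, h2, h2, mul_sum, mul_sum, ← sum_add_distrib, ← sum_add_distrib]
    refine sum_le_sum fun w _ => ?_
    obtain ⟨x1, x2, x3, x4, x5⟩ := H.types_excl w
    by_cases hS3 : S.isS3 w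
    · have y1 : ¬ S.isP w := fun h => x4 ⟨hS3, Or.inr (Or.inr (Or.inl h))⟩
      have y2 : ¬ S.isS4 w := fun h => x4 ⟨hS3, Or.inr (Or.inr (Or.inr h))⟩
      rw [if_neg y1, if_pos hS3, if_neg y2, LoadsG_lowS3 hS3]
      norm_num
    · by_cases hS4 : S.isS4 w
      · have y1 : ¬ S.isP w := fun h => x5 ⟨hS4, Or.inr (Or.inr h)⟩
        rw [if_neg y1, if_neg hS3, if_pos hS4, LoadsG_lowS4 hS4]
        norm_num
      · rw [if_neg hS3, if_neg hS4]
        by_cases hP : S.isP w
        · rw [if_pos hP]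
          exact LoadsG_lowP hP
        · rw [if_neg hP]
          exact Nat.zero_le _

private theorem LoadsG_sum_const (V : Finset W) (T : W → Prop) [DecidablePred T] (c : ℝ) :
    ∑ w ∈ V, (if T w then c else 0) = ((V.filter T).card : ℝ) * c := by
  rw [← sum_filter, sum_const, nsmul_eq_mul]

/-- load of the sums. High tag (`t = true`): types `R` (`Pr_R`; the vertices of type `R` with the value
`a` are counted by `rst`), `D`, `P`, `S4`; type `S3` has always the low tag. Low tag: types `P`, `S3`,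
`S4` (types `R`, `D` are not in `lowv`). Then `LP_high`, `LP_low`. -/
theorem sumload_ok [NeZero p] (H : GB S ι Sp k B) {D : LD} {R n : ℕ} {β C κ : ℝ}
    (hD : DOk (s := s) S L Ik Sp D R) (hL : L.Ok S Sp k n β C κ) (t : Bool) (a : ℕ) :
    ∑ Q, ∑ φ ∈ (gsys S L ι Ik Sp).S Q, Pr D.om D.wt R ((gsys S L ι Ik Sp).kd Q)
      (fun x => (gsys S L ι Ik Sp).tg Q φ x = t ∧ val φ x % p = a) ≤ 1 - 1 / 30 := by
  classical
  rw [LoadsG_vert_sum H (fun Q φ => Pr D.om D.wt R ((gsys S L ι Ik Sp).kd Q)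
      (fun x => (gsys S L ι Ik Sp).tg Q φ x = t ∧ val φ x % p = a))]
  have hq : (0 : ℝ) < D.q := by exact_mod_cast hD.ok.q0
  have hh : ∀ b, (0 : ℝ) < D.h b := fun b => by exact_mod_cast hD.ok.h0 b
  have hw0 : (0 : ℝ) < D.w := by exact_mod_cast hD.ok.w0
  have hw3 : (3000 : ℝ) ≤ D.w := by exact_mod_cast hD.w3
  have hA : (0 : ℝ) < 3 * D.q * D.h true := by have := hh true; positivity
  have hB : (0 : ℝ) < 3 * D.q * D.h false := by have := hh false; positivity
  obtain ⟨hc1, hc2⟩ := LoadsG_counts H hD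
  have hc1' : (1000 : ℝ) * (2 * ((univ.filter fun w => S.vp w ∈ Ik ∧ S.isR w).card : ℝ) +
        ((univ.filter fun w => S.vp w ∈ Ik ∧ S.isP w).card : ℝ) +
        2 * ((univ.filter fun w => S.vp w ∈ Ik ∧ S.isD w).card : ℝ)) ≤
      1001 * (2 * ((univ.filter fun f => S.pt f ∈ Ik ∧ S.kd f = 0).card : ℝ)) := by
    exact_mod_cast hc1
  have hc2' : ((univ.filter fun w => S.vp w ∈ Ik ∧ S.isP w).card : ℝ) +
      3 * ((univ.filter fun w => S.vp w ∈ Ik ∧ S.isS3 w).card : ℝ) +
      4 * ((univ.filter fun w => S.vp w ∈ Ik ∧ S.isS4 w).card : ℝ) ≤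
      3 * D.q * D.h false := by exact_mod_cast hc2
  have hHS : (((univ.filter fun f => S.pt f ∈ Ik ∧ S.kd f = 0).card : ℕ) : ℝ) ≤
      3 * D.q * D.h true := by exact_mod_cast hD.slH
  have hp : ∀ w ∈ univ.filter (fun w => S.vp w ∈ Ik),
      Pr D.om D.wt R ((gsys S L ι Ik Sp).kd (S.vp w))
        (fun x => (gsys S L ι Ik Sp).tg (S.vp w) (gfm S L ι w) x = t ∧
          val (gfm S L ι w) x % p = a) ≤
      Pr D.om D.wt R ((gsys S L ι Ik Sp).kd (S.vp w))
        (fun x => val (gfm S L ι w) x % p = a) := fun w _ =>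
    Pr_mono (LoadsG_law hD.ok) fun x _ hx => hx.2
  have hcP : (0 : ℝ) ≤ (1 + 2 / D.w) / (3 * D.q * D.h true + 3 * D.q * D.h false) := by
    positivity
  have hcD : (0 : ℝ) ≤ (1 + 2 / D.w) / (2 * (3 * D.q * D.h true)) := by
    positivity
  have hcS3 : (0 : ℝ) ≤ (1 + 3 / D.w) / (3 * D.q * D.h false) := by
    positivity
  have hcS4 : (0 : ℝ) ≤ (1 + 2 / D.w) / (2 * (3 * D.q * D.h false)) := by
    positivity
  have ite_nn : ∀ (T : Prop) [Decidable T] (c : ℝ), 0 ≤ c → 0 ≤ (if T then c else 0) := by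
    intro T _ c hc
    split_ifs
    · exact hc
    · exact le_refl _
  cases t with
  | true =>
    have hmain : ∀ w ∈ univ.filter (fun w => S.vp w ∈ Ik),
        Pr D.om D.wt R ((gsys S L ι Ik Sp).kd (S.vp w))
          (fun x => (gsys S L ι Ik Sp).tg (S.vp w) (gfm S L ι w) x = true ∧
            val (gfm S L ι w) x % p = a) ≤
        (if S.isR w ∧ ∃ l ∈ Ico L.loH (L.loH + L.NH), S.c w + (l : ZMod p) = (a : ZMod p) then
          1 / (3 * D.q * D.h true : ℝ) else 0) +
        (if S.isP w then (1 + 2 / D.w) / (3 * D.q * D.h true + 3 * D.q * D.h false) else 0 : ℝ) +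
        (if S.isD w then (1 + 2 / D.w) / (2 * (3 * D.q * D.h true)) else 0 : ℝ) +
        (if S.isS4 w then (1 + 2 / D.w) / (2 * (3 * D.q * D.h false)) else 0 : ℝ) := by
      intro w hw
      have hwI := (mem_filter.1 hw).2
      have n1 := ite_nn (S.isR w ∧ ∃ l ∈ Ico L.loH (L.loH + L.NH),
        S.c w + (l : ZMod p) = (a : ZMod p)) _ (one_div_nonneg.2 hA.le)
      have n2 := ite_nn (S.isP w) _ hcP
      have n3 := ite_nn (S.isD w) _ hcD
      have n4 := ite_nn (S.isS4 w) _ hcS4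
      rcases H.ok.types w with h | h | h | h | h
      · have h1 := (hp w hw).trans (LoadsG_R H hD hwI h a)
        have h2 : (if ∃ l ∈ Ico L.loH (L.loH + L.NH), S.c w + (l : ZMod p) = (a : ZMod p) then
          1 / (3 * D.q * D.h true : ℝ) else 0) = (if S.isR w ∧ ∃ l ∈ Ico L.loH (L.loH + L.NH),
            S.c w + (l : ZMod p) = (a : ZMod p) then 1 / (3 * D.q * D.h true : ℝ) else 0) := by
          simp only [h, true_and]
        rw [h2] at h1
        linarith
      · have h1 := (hp w hw).trans (LoadsG_D H hD hwI h a)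
        rw [if_pos h] at n3 ⊢
        linarith
      · have h1 := (hp w hw).trans (LoadsG_P H hD hwI h a)
        rw [if_pos h] at n2 ⊢
        linarith
      · have h1 := LoadsG_Pr_zero (o := (gsys S L ι Ik Sp).kd (S.vp w)) hD.ok
          (fun x => (gsys S L ι Ik Sp).tg (S.vp w) (gfm S L ι w) x = true ∧
            val (gfm S L ι w) x % p = a) (fun md x _ hx => LoadsG_tg_true H hx.1 h)
        linarith
      · have h1 := (hp w hw).trans (LoadsG_PS4 H hD hwI h a)
        rw [if_pos h] at n4 ⊢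
        linarith
    refine (sum_le_sum hmain).trans ?_
    rw [sum_add_distrib, sum_add_distrib, sum_add_distrib, LoadsG_sum_const, LoadsG_sum_const,
      LoadsG_sum_const, LoadsG_sum_const]
    simp only [filter_filter]
    have hrc : ((univ.filter fun w => S.vp w ∈ Ik ∧ (S.isR w ∧
        ∃ l ∈ Ico L.loH (L.loH + L.NH), S.c w + (l : ZMod p) = (a : ZMod p))).card : ℝ) ≤
        5 / 6 * ((univ.filter fun w => S.vp w ∈ Ik ∧ S.isR w).card : ℝ) +
          3 / 1000 * (3 * D.q * D.h true) := by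
      have h1 := hL.rst (a : ZMod p)
      have h2 : ((univ.filter fun w => S.vp w ∈ Ik ∧ (S.isR w ∧
          ∃ l ∈ Ico L.loH (L.loH + L.NH), S.c w + (l : ZMod p) = (a : ZMod p))).card : ℝ) ≤
          ((univ.filter fun w => S.isR w ∧
            ∃ l ∈ Ico L.loH (L.loH + L.NH), S.c w + (l : ZMod p) = (a : ZMod p)).card : ℝ) := by
        refine Nat.cast_le.2 (card_le_card fun w hw => ?_)
        exact mem_filter.2 ⟨mem_univ _, (mem_filter.1 hw).2.2⟩
      have h3 : ((univ.filter fun w => S.isR w).card : ℝ) ≤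
          ((univ.filter fun w => S.vp w ∈ Ik ∧ S.isR w).card : ℝ) +
          ((univ.filter fun w => S.vp w ∉ Ik ∧ S.isR w).card : ℝ) := by
        rw [← Nat.cast_add, Nat.cast_le]
        refine le_trans (card_le_card ?_) (card_union_le _ _)
        intro w hw
        have h4 := (mem_filter.1 hw).2
        rw [mem_union, mem_filter, mem_filter]
        by_cases h5 : S.vp w ∈ Ik
        · exact Or.inl ⟨mem_univ _, h5, h4⟩
        · exact Or.inr ⟨mem_univ _, h5, h4⟩
      have h4 := hD.drop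
      have h5 := hD.NH_le
      push_cast at h4 h5
      linarith
    have h6 := LP_high (A := 3 * D.q * D.h true) (B := 3 * D.q * D.h false)
      (HS := ((univ.filter fun f => S.pt f ∈ Ik ∧ S.kd f = 0).card : ℝ))
      (nR := ((univ.filter fun w => S.vp w ∈ Ik ∧ S.isR w).card : ℝ))
      (nP := ((univ.filter fun w => S.vp w ∈ Ik ∧ S.isP w).card : ℝ))
      (nD := ((univ.filter fun w => S.vp w ∈ Ik ∧ S.isD w).card : ℝ))
      (nS3 := ((univ.filter fun w => S.vp w ∈ Ik ∧ S.isS3 w).card : ℝ))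
      (nS4 := ((univ.filter fun w => S.vp w ∈ Ik ∧ S.isS4 w).card : ℝ))
      (rc := ((univ.filter fun w => S.vp w ∈ Ik ∧ (S.isR w ∧
        ∃ l ∈ Ico L.loH (L.loH + L.NH), S.c w + (l : ZMod p) = (a : ZMod p))).card : ℝ))
      (w := (D.w : ℝ)) hA hB (Nat.cast_nonneg _) (Nat.cast_nonneg _) (Nat.cast_nonneg _)
      (Nat.cast_nonneg _) (Nat.cast_nonneg _) hw3 hc1' hHS hc2' hrc
    rw [mul_one_div]
    norm_num at h6 ⊢
    exact h6
  | false =>
    have hmain : ∀ w ∈ univ.filter (fun w => S.vp w ∈ Ik),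
        Pr D.om D.wt R ((gsys S L ι Ik Sp).kd (S.vp w))
          (fun x => (gsys S L ι Ik Sp).tg (S.vp w) (gfm S L ι w) x = false ∧
            val (gfm S L ι w) x % p = a) ≤
        (if S.isP w then (1 + 2 / D.w) / (3 * D.q * D.h true + 3 * D.q * D.h false) else 0 : ℝ) +
        (if S.isS3 w then (1 + 3 / D.w) / (3 * D.q * D.h false) else 0 : ℝ) +
        (if S.isS4 w then (1 + 2 / D.w) / (2 * (3 * D.q * D.h false)) else 0 : ℝ) := by
      intro w hw
      have hwI := (mem_filter.1 hw).2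
      have n2 := ite_nn (S.isP w) _ hcP
      have n3 := ite_nn (S.isS3 w) _ hcS3
      have n4 := ite_nn (S.isS4 w) _ hcS4
      rcases H.ok.types w with h | h | h | h | h
      · have h1 := LoadsG_Pr_zero (o := (gsys S L ι Ik Sp).kd (S.vp w)) hD.ok
          (fun x => (gsys S L ι Ik Sp).tg (S.vp w) (gfm S L ι w) x = false ∧
            val (gfm S L ι w) x % p = a) (fun md x _ hx =>
              (H.ok.low_R w (LoadsG_tg_false H hx.1)).1 h)
        linarith
      · have h1 := LoadsG_Pr_zero (o := (gsys S L ι Ik Sp).kd (S.vp w)) hD.ok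
          (fun x => (gsys S L ι Ik Sp).tg (S.vp w) (gfm S L ι w) x = false ∧
            val (gfm S L ι w) x % p = a) (fun md x _ hx =>
              (H.ok.low_R w (LoadsG_tg_false H hx.1)).2 h)
        linarith
      · have h1 := (hp w hw).trans (LoadsG_P H hD hwI h a)
        rw [if_pos h] at n2 ⊢
        linarith
      · have h1 := (hp w hw).trans (LoadsG_PS3 H hD hwI h a)
        rw [if_pos h] at n3 ⊢
        linarith
      · have h1 := (hp w hw).trans (LoadsG_PS4 H hD hwI h a)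
        rw [if_pos h] at n4 ⊢
        linarith
    refine (sum_le_sum hmain).trans ?_
    rw [sum_add_distrib, sum_add_distrib, LoadsG_sum_const, LoadsG_sum_const,
      LoadsG_sum_const]
    simp only [filter_filter]
    have h6 := LP_low (A := 3 * D.q * D.h true) (B := 3 * D.q * D.h false)
      (HS := ((univ.filter fun f => S.pt f ∈ Ik ∧ S.kd f = 0).card : ℝ))
      (nR := ((univ.filter fun w => S.vp w ∈ Ik ∧ S.isR w).card : ℝ))
      (nP := ((univ.filter fun w => S.vp w ∈ Ik ∧ S.isP w).card : ℝ))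
      (nD := ((univ.filter fun w => S.vp w ∈ Ik ∧ S.isD w).card : ℝ))
      (nS3 := ((univ.filter fun w => S.vp w ∈ Ik ∧ S.isS3 w).card : ℝ))
      (nS4 := ((univ.filter fun w => S.vp w ∈ Ik ∧ S.isS4 w).card : ℝ))
      (w := (D.w : ℝ)) hA hB (Nat.cast_nonneg _) (Nat.cast_nonneg _) (Nat.cast_nonneg _)
      (Nat.cast_nonneg _) (Nat.cast_nonneg _) hw3 hc1' hHS hc2'
    norm_num at h6 ⊢
    exact h6

/-! ### Gadget ends -/

/-- a single low slot -/
private theorem LoadsG_single {D : LD} {R : ℕ} {o : Fin s → Option Kn} (H : D.Ok R)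
    (hp : s * R < p) (φ : Frm s) (i : Fin s) (hφ : φ.1 = {i}) (κ : Kn) (hi : o i = some κ)
    (hκ : κ ≠ 0) (a : ℕ) :
    Pr D.om D.wt R o (fun x => val φ x % p = a) ≤ 1 / (3 * D.q * D.h false) := by
  classical
  obtain ⟨b, hb⟩ := AMA.exists_val_eq hp φ a
  have h1 : Pr D.om D.wt R o (fun x => val φ x % p = a) ≤
      Pr D.om D.wt R o (fun x => x i = b - φ.2) := by
    refine Pr_mono (LoadsG_law H) fun x hx hv => ?_
    have h2 := hb x hx hv
    unfold AMA.val at h2
    rw [hφ, sum_singleton] at h2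
    omega
  refine h1.trans ((Pr_label_le H i κ hi _).trans ?_)
  have hq : (0 : ℝ) < D.q := by exact_mod_cast H.q0
  have hh : (0 : ℝ) < D.h false := by exact_mod_cast H.h0 false
  have h2 : tyK κ = false := by simp [tyK, hκ]
  rw [h2]
  split_ifs
  · exact le_refl _
  · positivity

/-- the ends of the gadgets at star centres -/
private theorem LoadsG_Bstar (H : GB S ι Sp k B) {D : LD} {R : ℕ}
    (hD : DOk (s := s) S L Ik Sp D R) {f : F} {u : W} (hf : f ∈ Sp) (hu : u ∈ S.en f)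
    (hI : S.vp u ∈ Ik) (hst : S.isS3 u ∨ S.isS4 u) (a : ℕ) :
    Pr D.om D.wt R ((gsys S L ι Ik Sp).kd (S.vp u))
      (fun x => val (gfb S L ι f u) x % p = a) ≤ 2 / (3 * D.q * D.h false) := by
  classical
  have hfs : f ∈ S.slots u := mem_slots.2 hu
  have hgk := H.ok.gk f hf
  rcases hst with h | h
  · obtain ⟨b, g, e, h1, h2, h3, h4, n1, n2, n3⟩ := LoadsG_S3 h
    have hb : b ∈ S.slots u := by rw [h1]; simp
    have hg : g ∈ S.slots u := by rw [h1]; simp
    have he : e ∈ S.slots u := by rw [h1]; simp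
    have hfb : f = b := by
      have h5 := hfs
      rw [h1] at h5
      simp only [mem_insert, mem_singleton] at h5
      rcases h5 with h5 | h5 | h5
      · exact h5
      · exfalso
        rw [h5, h3] at hgk
        exact absurd hgk (by decide)
      · exfalso
        rw [h5, h4] at hgk
        exact absurd hgk (by decide)
    subst hfb
    have e2 := LoadsG_kd (L := L) H hI hg
    have e3 := LoadsG_kd (L := L) H hI he
    rw [h3] at e2
    rw [h4] at e3
    refine Pr_B34 hD.ok hD.sRp (gfb S L ι f u) (ι g) (ι e) ?_ (LoadsG_inj H hg he n3) e2 e3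
      (by have := hD.w3; omega) a
    show ((S.slots u).erase f).image ι = {ι g, ι e}
    have h6 : (S.slots u).erase f = {g, e} := by
      rw [h1, erase_insert]
      simp only [mem_insert, mem_singleton, not_or]
      exact ⟨n1, n2⟩
    rw [h6, image_insert, image_singleton]
  · have hk1 : S.kd f = 1 := by
      obtain ⟨b, g, e, d, h1, hc, h2, h3, h4, h5, _⟩ := LoadsG_S4 h
      have h6 := hfs
      rw [h1] at h6
      simp only [mem_insert, mem_singleton] at h6
      rcases h6 with rfl | rfl | rfl | rfl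
      · exact h2
      · exact h3
      · exact h4
      · exfalso
        rw [h5] at hgk
        exact absurd hgk (by decide)
    obtain ⟨g, e, d, h1, h3, h4, h5, n1, n2, n3, n4, n5, n6⟩ := LoadsG_S4' h hfs hk1
    have hg : g ∈ S.slots u := by rw [h1]; simp
    have he : e ∈ S.slots u := by rw [h1]; simp
    have hd : d ∈ S.slots u := by rw [h1]; simp
    have e2 := LoadsG_kd (L := L) H hI hg
    have e3 := LoadsG_kd (L := L) H hI he
    have e4 := LoadsG_kd (L := L) H hI hd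
    rw [h3] at e2
    rw [h4] at e3
    rw [h5] at e4
    have h6 : (S.slots u).erase f = {g, e, d} := by
      rw [h1, erase_insert]
      simp only [mem_insert, mem_singleton, not_or]
      exact ⟨n1, n2, n3⟩
    have h7 : (gfb S L ι f u).1 = {ι g, ι e, ι d} := by
      show ((S.slots u).erase f).image ι = {ι g, ι e, ι d}
      rw [h6, image_insert, image_insert, image_singleton]
    refine Pr_B115 hD.ok hD.sRp (gfb S L ι f u) (ι g) (ι e) (ι d) h7 ?_ e2 e3 e4 a
    rw [h7]
    exact card_eq_three.2 ⟨_, _, _, LoadsG_inj H hg he n4, LoadsG_inj H hg hd n5,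
      LoadsG_inj H he hd n6, rfl⟩

/-- the probability of a value of a gadget end -/
private theorem LoadsG_Bend (H : GB S ι Sp k B) {D : LD} {R : ℕ}
    (hD : DOk (s := s) S L Ik Sp D R) {f : F} {u : W} (hf : f ∈ Sp) (hu : u ∈ S.en f)
    (hI : S.vp u ∈ Ik) (hne : (gfb S L ι f u).1.Nonempty) {hm : ℕ} (hm0 : 0 < hm)
    (hm1 : hm ≤ D.h true) (hm2 : hm ≤ D.h false) (a : ℕ) :
    Pr D.om D.wt R ((gsys S L ι Ik Sp).kd (S.vp u))
      (fun x => val (gfb S L ι f u) x % p = a) ≤ 2 / (3 * D.q * hm) := by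
  classical
  have hq : (0 : ℝ) < D.q := by exact_mod_cast hD.ok.q0
  have hmr : (0 : ℝ) < hm := by exact_mod_cast hm0
  have hm2r : (hm : ℝ) ≤ D.h false := by exact_mod_cast hm2
  have hlow : (2 : ℝ) / (3 * D.q * D.h false) ≤ 2 / (3 * D.q * hm) := by
    refine div_le_div_of_nonneg_left (by norm_num) (by positivity) ?_
    exact mul_le_mul_of_nonneg_left hm2r (by positivity)
  -- slots of kinds `0` and `1`
  have hid : (∀ g ∈ S.slots u, S.kd g = 0 ∨ S.kd g = 1) →
      Pr D.om D.wt R ((gsys S L ι Ik Sp).kd (S.vp u))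
        (fun x => val (gfb S L ι f u) x % p = a) ≤ 2 / (3 * D.q * hm) := by
    intro h01
    have hkf : ∀ g ∈ S.slots u, (((gsys S L ι Ik Sp).kd (S.vp u) (ι g)).getD 0) = S.kd g := by
      intro g hg
      rw [LoadsG_kd H hI hg]
      rfl
    refine Pr_Bid hD.ok hD.sRp (gfb S L ι f u) hne
      (fun i => ((gsys S L ι Ik Sp).kd (S.vp u) i).getD 0) ?_ ?_ hm hm0 hm1 hm2 a
    · intro i hi
      obtain ⟨g, hg, rfl⟩ := mem_image.1 (show i ∈ ((S.slots u).erase f).image ι from hi)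
      have hg' := mem_of_mem_erase hg
      show (gsys S L ι Ik Sp).kd (S.vp u) (ι g) =
        some (((gsys S L ι Ik Sp).kd (S.vp u) (ι g)).getD 0)
      rw [hkf g hg']
      exact LoadsG_kd H hI hg'
    · intro i hi
      obtain ⟨g, hg, rfl⟩ := mem_image.1 (show i ∈ ((S.slots u).erase f).image ι from hi)
      have hg' := mem_of_mem_erase hg
      show ((gsys S L ι Ik Sp).kd (S.vp u) (ι g)).getD 0 = 0 ∨
        ((gsys S L ι Ik Sp).kd (S.vp u) (ι g)).getD 0 = 1
      rw [hkf g hg']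
      exact h01 g hg'
  rcases H.ok.types u with h | h | h | h | h
  · obtain ⟨g, h1, h2⟩ := h
    refine hid fun g' hg' => ?_
    rw [h1, mem_singleton] at hg'
    rw [hg', h2]
    exact Or.inl rfl
  · exact hid h.2
  · obtain ⟨g, e, h1, h2, h3⟩ := h
    refine hid fun g' hg' => ?_
    rw [h1] at hg'
    simp only [mem_insert, mem_singleton] at hg'
    rcases hg' with rfl | rfl
    · exact Or.inl h2
    · exact Or.inr h3
  · exact (LoadsG_Bstar H hD hf hu hI (Or.inl h) a).trans hlow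
  · exact (LoadsG_Bstar H hD hf hu hI (Or.inr h) a).trans hlow

/-- gadget ends without a further high slot -/
private theorem LoadsG_Blow (H : GB S ι Sp k B) {D : LD} {R : ℕ}
    (hD : DOk (s := s) S L Ik Sp D R) {f : F} {u : W} (hf : f ∈ Sp) (hu : u ∈ S.en f)
    (hI : S.vp u ∈ Ik) (hne : (gfb S L ι f u).1.Nonempty)
    (hno : ∀ g ∈ S.slots u, g ≠ f → S.kd g ≠ 0) (a : ℕ) :
    Pr D.om D.wt R ((gsys S L ι Ik Sp).kd (S.vp u))
      (fun x => val (gfb S L ι f u) x % p = a) ≤ 2 / (3 * D.q * D.h false) := by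
  classical
  have hq : (0 : ℝ) < D.q := by exact_mod_cast hD.ok.q0
  have hh : (0 : ℝ) < D.h false := by exact_mod_cast hD.ok.h0 false
  have hfs : f ∈ S.slots u := mem_slots.2 hu
  rcases H.ok.types u with h | h | h | h | h
  · exfalso
    obtain ⟨g, h1, h2⟩ := h
    have h3 := hfs
    rw [h1, mem_singleton] at h3
    obtain ⟨i, hi⟩ := hne
    obtain ⟨g', hg', _⟩ := mem_image.1 (show i ∈ ((S.slots u).erase f).image ι from hi)
    rw [h1, ← h3, erase_singleton] at hg'
    exact absurd hg' (notMem_empty _)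
  · exfalso
    obtain ⟨g, hg, hgf⟩ := exists_mem_ne (show 1 < ((S.slots u).filter fun f => S.kd f = 0).card
      from h.1) f
    have h1 := mem_filter.1 hg
    exact hno g h1.1 hgf h1.2
  · obtain ⟨g, e, h1, h2, h3⟩ := h
    have hg : g ∈ S.slots u := by rw [h1]; simp
    have he : e ∈ S.slots u := by rw [h1]; simp
    have hfg : f = g := by
      by_contra h4
      exact hno g hg (fun h5 => h4 h5.symm) h2
    subst hfg
    have hne' : f ≠ e := by
      rintro rfl
      rw [h2] at h3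
      exact absurd h3 (by decide)
    have e1 := LoadsG_kd (L := L) H hI he
    refine (LoadsG_single hD.ok hD.sRp (gfb S L ι f u) (ι e) ?_ (S.kd e) e1
      (by rw [h3]; decide) a).trans ?_
    · show ((S.slots u).erase f).image ι = {ι e}
      have h6 : (S.slots u).erase f = {e} := by
        rw [h1, erase_insert]
        simpa using hne'
      rw [h6, image_singleton]
    · exact div_le_div_of_nonneg_right (by norm_num) (by positivity)
  · exact LoadsG_Bstar H hD hf hu hI (Or.inl h) a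
  · exact LoadsG_Bstar H hD hf hu hI (Or.inr h) a

/-- load of the gadget ends: at most `2 |Sp|` forms, each with probability at most `2 / (3 q h)`
(`Pr_Bid`, `Pr_B34`, `Pr_B115`); forms with a high slot: `spH`, forms with low slots only: `spL` -/
theorem bload_ok [NeZero p] (H : GB S ι Sp k B) {D : LD} {R n : ℕ} {β C κ : ℝ}
    (hD : DOk (s := s) S L Ik Sp D R) (hL : L.Ok S Sp k n β C κ) (a : ℕ) :
    ∑ Q, ∑ φ ∈ (gsys S L ι Ik Sp).Bf Q,
      Pr D.om D.wt R ((gsys S L ι Ik Sp).kd Q) (fun x => val φ x % p = a) ≤ 1 := by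
  classical
  have hq : (0 : ℝ) < D.q := by exact_mod_cast hD.ok.q0
  have hh : ∀ b, (0 : ℝ) < D.h b := fun b => by exact_mod_cast hD.ok.h0 b
  obtain ⟨Sh, hSh⟩ : ∃ Sh : Finset F, Sh = Sp.filter fun g =>
    ∃ u ∈ S.en g, ∃ f ∈ S.slots u, f ≠ g ∧ S.kd f = 0 := ⟨_, rfl⟩
  have hShc : (10 * Sh.card : ℝ) ≤ L.NH := by
    have h1 := hL.spH
    have h2 : 10 * Sh.card ≤ L.NH := by
      rw [hSh]
      convert h1
    exact_mod_cast h2
  have hShS : (Sh.card : ℝ) ≤ Sp.card := by
    rw [hSh]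
    exact_mod_cast card_filter_le _ _
  have hSpc : (10 * Sp.card : ℝ) ≤ L.NL := by exact_mod_cast hL.spL
  have hNH := hD.NH_le
  have hNL := hD.NL_le
  push_cast at hNH hNL
  have hp1 : (0 : ℝ) < 3 * D.q * D.h true := by have := hh true; positivity
  have hp2 : (0 : ℝ) < 3 * D.q * D.h false := by have := hh false; positivity
  obtain ⟨hm, hm0, hm1, hm2, hmS⟩ : ∃ hm : ℕ, 0 < hm ∧ hm ≤ D.h true ∧ hm ≤ D.h false ∧
      (8 * Sh.card : ℝ) ≤ 3 * D.q * hm := by
    rcases le_total (D.h true) (D.h false) with h | h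
    · exact ⟨D.h true, hD.ok.h0 true, le_refl _, h, by linarith⟩
    · exact ⟨D.h false, hD.ok.h0 false, h, le_refl _, by linarith⟩
  have hSpS : (8 * Sp.card : ℝ) ≤ 3 * D.q * D.h false := by linarith
  have hmr : (0 : ℝ) < hm := by exact_mod_cast hm0
  have hc1 : (0 : ℝ) ≤ 2 / (3 * D.q * hm) := by positivity
  have hc2 : (0 : ℝ) ≤ 2 / (3 * D.q * D.h false) := by positivity
  have h1 : ∀ Q, ∑ φ ∈ (gsys S L ι Ik Sp).Bf Q,
      Pr D.om D.wt R ((gsys S L ι Ik Sp).kd Q) (fun x => val φ x % p = a) ≤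
      (∑ f ∈ Sh with S.pt f = Q, (2 * (2 / (3 * D.q * hm)) : ℝ)) +
      ∑ g ∈ (gsys S L ι Ik Sp).Gd Q, (2 * (2 / (3 * D.q * D.h false)) : ℝ) := by
    intro Q
    obtain ⟨Hi, hHi⟩ : ∃ Hi : Finset (Frm s), Hi = (Sh.filter fun f => S.pt f = Q).biUnion
      fun f => (S.en f).image (gfb S L ι f) := ⟨_, rfl⟩
    have h2 : ∑ φ ∈ (gsys S L ι Ik Sp).Bf Q,
        Pr D.om D.wt R ((gsys S L ι Ik Sp).kd Q) (fun x => val φ x % p = a) ≤
        ∑ φ ∈ (gsys S L ι Ik Sp).Bf Q, ((if φ ∈ Hi then 2 / (3 * D.q * hm) else 0 : ℝ) +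
          2 / (3 * D.q * D.h false) : ℝ) := by
      refine sum_le_sum fun φ hφ => ?_
      have h3 := mem_filter.1 hφ
      obtain ⟨g, hg, hφg⟩ := mem_biUnion.1 h3.1
      obtain ⟨hQ, f, hf, rfl, rfl⟩ := mem_gGd.1 hg
      obtain ⟨u, hu, rfl⟩ := mem_image.1 hφg
      have h4 := H.ok.vp_eq f u hu
      by_cases hno : ∀ g ∈ S.slots u, g ≠ f → S.kd g ≠ 0
      · have h5 : Pr D.om D.wt R ((gsys S L ι Ik Sp).kd (S.pt f))
            (fun x => val (gfb S L ι f u) x % p = a) ≤ 2 / (3 * D.q * D.h false) := by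
          rw [h4] at hQ ⊢
          exact LoadsG_Blow H hD hf hu hQ h3.2.1 hno a
        refine h5.trans ?_
        split_ifs
        · linarith
        · linarith
      · push Not at hno
        obtain ⟨g', hg', hgf, hg0⟩ := hno
        have h6 : gfb S L ι f u ∈ Hi := by
          rw [hHi]
          refine mem_biUnion.2 ⟨f, mem_filter.2 ⟨?_, rfl⟩, mem_image_of_mem _ hu⟩
          rw [hSh]
          exact mem_filter.2 ⟨hf, u, hu, g', hg', hgf, hg0⟩
        rw [if_pos h6]
        have h5 : Pr D.om D.wt R ((gsys S L ι Ik Sp).kd (S.pt f))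
            (fun x => val (gfb S L ι f u) x % p = a) ≤ 2 / (3 * D.q * hm) := by
          rw [h4] at hQ ⊢
          exact LoadsG_Bend H hD hf hu hQ h3.2.1 hm0 hm1 hm2 a
        linarith
    refine h2.trans ?_
    rw [sum_add_distrib]
    refine add_le_add ?_ ?_
    · rw [← sum_filter, sum_const, sum_const, nsmul_eq_mul, nsmul_eq_mul]
      have h5 : (((gsys S L ι Ik Sp).Bf Q).filter fun φ => φ ∈ Hi).card ≤
          (Sh.filter fun f => S.pt f = Q).card * 2 := by
        refine (card_le_card (fun φ hφ => (mem_filter.1 hφ).2)).trans ?_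
        rw [hHi]
        refine card_biUnion_le_card_mul _ _ _ fun f hf => ?_
        exact card_image_le.trans (H.ok.en_le f)
      have h6 : (((((gsys S L ι Ik Sp).Bf Q).filter fun φ => φ ∈ Hi).card : ℕ) : ℝ) ≤
          ((Sh.filter fun f => S.pt f = Q).card : ℝ) * 2 := by exact_mod_cast h5
      calc ((((gsys S L ι Ik Sp).Bf Q).filter fun φ => φ ∈ Hi).card : ℝ) * (2 / (3 * D.q * hm))
          ≤ (((Sh.filter fun f => S.pt f = Q).card : ℝ) * 2) * (2 / (3 * D.q * hm)) :=
            mul_le_mul_of_nonneg_right h6 hc1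
        _ = _ := by ring
    · rw [sum_const, sum_const, nsmul_eq_mul, nsmul_eq_mul]
      have h5 : ((gsys S L ι Ik Sp).Bf Q).card ≤ ((gsys S L ι Ik Sp).Gd Q).card * 2 := by
        refine (card_filter_le _ _).trans ?_
        refine card_biUnion_le_card_mul _ _ _ fun g hg => ?_
        obtain ⟨hQ, f, hf, rfl, rfl⟩ := mem_gGd.1 hg
        exact card_image_le.trans (H.ok.en_le f)
      have h6 : (((gsys S L ι Ik Sp).Bf Q).card : ℝ) ≤ ((gsys S L ι Ik Sp).Gd Q).card * 2 := by
        exact_mod_cast h5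
      calc (((gsys S L ι Ik Sp).Bf Q).card : ℝ) * (2 / (3 * D.q * D.h false))
          ≤ (((gsys S L ι Ik Sp).Gd Q).card * 2) * (2 / (3 * D.q * D.h false)) :=
            mul_le_mul_of_nonneg_right h6 hc2
        _ = _ := by ring
  refine (sum_le_sum fun Q _ => h1 Q).trans ?_
  rw [sum_add_distrib, Finset.sum_fiberwise Sh S.pt (fun _ => (2 * (2 / (3 * D.q * hm)) : ℝ)),
    LoadsG_gad_sum H (fun _ _ => (2 * (2 / (3 * D.q * D.h false)) : ℝ)), sum_const, sum_const,
    nsmul_eq_mul, nsmul_eq_mul]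
  have h8 : (((Sp.filter fun f => S.pt f ∈ Ik).card : ℕ) : ℝ) ≤ Sp.card := by
    exact_mod_cast card_filter_le _ _
  have h9 : (Sh.card : ℝ) * (2 * (2 / (3 * D.q * hm))) ≤ 1 / 2 := by
    have h10 : (Sh.card : ℝ) * (2 * (2 / (3 * D.q * hm))) =
        1 / 2 * ((8 * Sh.card) / (3 * D.q * hm)) := by ring
    have h11 : (8 * Sh.card : ℝ) / (3 * D.q * hm) ≤ 1 := by
      rw [div_le_one (by positivity)]
      exact hmS
    rw [h10]
    linarith
  have h12 : (Sp.card : ℝ) * (2 * (2 / (3 * D.q * D.h false))) ≤ 1 / 2 := by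
    have h10 : (Sp.card : ℝ) * (2 * (2 / (3 * D.q * D.h false))) =
        1 / 2 * ((8 * Sp.card) / (3 * D.q * D.h false)) := by ring
    have h11 : (8 * Sp.card : ℝ) / (3 * D.q * D.h false) ≤ 1 := by
      rw [div_le_one hp2]
      exact hSpS
    rw [h10]
    linarith
  have h13 : (((Sp.filter fun f => S.pt f ∈ Ik).card : ℕ) : ℝ) *
      (2 * (2 / (3 * D.q * D.h false))) ≤ (Sp.card : ℝ) * (2 * (2 / (3 * D.q * D.h false))) :=
    mul_le_mul_of_nonneg_right h8 (by positivity)
  linarith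

/-! ### The extra condition -/

private theorem LoadsG_a1 {n : ℕ} {β C κ : ℝ} {D : LD} (hL : L.Ok S Sp k n β C κ)
    (he : (L.NL : ℝ) + κ * n ≤ (3 * D.q + D.w + 1 : ℕ) * D.h false) :
    L.aa ≤ 2 * L.loL + 3 * D.q * D.h false + (D.w + 1) * D.h false := by
  have h1 := hL.a1
  have h2 : (L.aa : ℝ) ≤ ((2 * L.loL + 3 * D.q * D.h false + (D.w + 1) * D.h false : ℕ) : ℝ) := by
    push_cast at he ⊢
    linarith
  exact_mod_cast h2

private theorem LoadsG_bad (H : GB S ι Sp k B) {D : LD} {R n : ℕ} {β C κ : ℝ}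
    (hD : DOk (s := s) S L Ik Sp D R) (hL : L.Ok S Sp k n β C κ)
    (he : (L.NL : ℝ) + κ * n ≤ (3 * D.q + D.w + 1 : ℕ) * D.h false) {w : W}
    (hw : S.vp w ∈ Ik) :
    Pr D.om D.wt R ((gsys S L ι Ik Sp).kd (S.vp w)) (fun x => ¬
      ((S.isS3 w → L.aa < rs S L ι w x ∧ rs S L ι w x ≤ L.bb) ∧
        (S.isS4 w → L.aa < rs S L ι w x))) ≤ (5 * D.w + 8) / (3 * D.q) := by
  classical
  have hq : (0 : ℝ) < D.q := by exact_mod_cast hD.ok.q0
  have hw0 : (0 : ℝ) < D.w := by exact_mod_cast hD.ok.w0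
  have hρ : (0 : ℝ) ≤ (5 * D.w + 8) / (3 * D.q) := by positivity
  have haa := LoadsG_a1 hL he
  have hlo := hD.loL
  have hl1 := hL.loL1
  by_cases hS3 : S.isS3 w
  · obtain ⟨f, g, e, h1, h2, h3, h4, n1, n2, n3⟩ := LoadsG_S3 hS3
    have hf : f ∈ S.slots w := by rw [h1]; simp
    have hg : g ∈ S.slots w := by rw [h1]; simp
    have hee : e ∈ S.slots w := by rw [h1]; simp
    have e1 := LoadsG_kd (L := L) H hw hf
    have e2 := LoadsG_kd (L := L) H hw hg
    have e3 := LoadsG_kd (L := L) H hw hee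
    rw [h2] at e1
    rw [h3] at e2
    rw [h4] at e3
    have hcr := (H.ok.S3_low w hS3).2
    have hS4 : ¬ S.isS4 w := fun h => (H.types_excl w).2.2.2.1 ⟨hS3, Or.inr (Or.inr (Or.inr h))⟩
    have hrs : ∀ x : Fin s → ℕ, rs S L ι w x = (x (ι f) + L.loL - 1 - L.NH) +
        ((x (ι g) + L.loL - 1 - L.NH) + (x (ι e) + L.loL - 1 - L.NH)) := by
      intro x
      unfold rs
      have k1 : (2 : Kn) ≠ 0 := by decide
      have k2 : (3 : Kn) ≠ 0 := by decide
      have k3 : (4 : Kn) ≠ 0 := by decide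
      rw [hcr, h1, sum_insert (by simp [n1, n2]), sum_pair n3, h2, h3, h4, LoadsG_rl k1,
        LoadsG_rl k2, LoadsG_rl k3, zero_add]
    -- the bound of the small sums
    have hbb : 3 * L.loL + 6 * D.q * D.h false ≤ L.bb + (D.w + 1) * D.h false := by
      have h5 := hL.b1
      have h6 : (((3 * D.q + D.w - 1) * D.h false : ℕ) : ℝ) ≤ L.NL := by exact_mod_cast hD.poolL
      have h7 : (1 : ℕ) ≤ 3 * D.q + D.w := by have := hD.w3; omega
      have h8 : (3000 : ℝ) ≤ D.w := by exact_mod_cast hD.w3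
      have h9 : (0 : ℝ) ≤ D.h false := Nat.cast_nonneg _
      have h10 : ((3 * L.loL + 6 * D.q * D.h false : ℕ) : ℝ) ≤
          ((L.bb + (D.w + 1) * D.h false : ℕ) : ℝ) := by
        push_cast [Nat.cast_sub h7] at h6 he ⊢
        nlinarith
      exact_mod_cast h10
    have h5 := Pr_badS3 hD.ok (ι f) (ι g) (ι e) e1 e2 e3 (L.aa + 3 + 3 * L.NH - 3 * L.loL)
      (L.bb + 3 + 3 * L.NH - 3 * L.loL) (D.w + 1) (by
        rw [hlo]
        have : 3 * (L.NH + 1) + 3 * D.q * D.h false + (D.w + 1) * D.h false =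
          3 * L.NH + 3 + (3 * D.q * D.h false + (D.w + 1) * D.h false) := by ring
        omega) (by
        rw [hlo]
        omega)
    refine (LoadsG_Pr_mono hD.ok (A' := fun x => ¬ (L.aa + 3 + 3 * L.NH - 3 * L.loL <
      x (ι f) + x (ι g) + x (ι e) ∧ x (ι f) + x (ι g) + x (ι e) ≤
        L.bb + 3 + 3 * L.NH - 3 * L.loL)) ?_).trans (h5.trans (le_of_eq ?_))
    · intro md x hx hA hB
      have y1 := (hx (ι f) 2 e1).1
      have y2 := (hx (ι g) 3 e2).1
      have y3 := (hx (ι e) 4 e3).1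
      have t2 : tyK 2 = false := by decide
      have t3 : tyK 3 = false := by decide
      have t4 : tyK 4 = false := by decide
      rw [t2, hlo] at y1
      rw [t3, hlo] at y2
      rw [t4, hlo] at y3
      refine hA ⟨fun _ => ?_, fun h => absurd h hS4⟩
      rw [hrs x]
      omega
    · push_cast
      ring
  · by_cases hS4 : S.isS4 w
    · obtain ⟨f, g, e, d, h1, hc, h2, h3, h4, h5, n1, n2, n3, n4, n5, n6⟩ := LoadsG_S4 hS4
      have hf : f ∈ S.slots w := by rw [h1]; simp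
      have hg : g ∈ S.slots w := by rw [h1]; simp
      have hee : e ∈ S.slots w := by rw [h1]; simp
      have hd : d ∈ S.slots w := by rw [h1]; simp
      have e1 := LoadsG_kd (L := L) H hw hf
      have e2 := LoadsG_kd (L := L) H hw hg
      have e3 := LoadsG_kd (L := L) H hw hee
      have e4 := LoadsG_kd (L := L) H hw hd
      rw [h2] at e1
      rw [h3] at e2
      rw [h4] at e3
      rw [h5] at e4
      have hrs : ∀ x : Fin s → ℕ, rs S L ι w x = S.cr w + ((x (ι f) + L.loL - 1 - L.NH) +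
          ((x (ι g) + L.loL - 1 - L.NH) + ((x (ι e) + L.loL - 1 - L.NH) +
            (x (ι d) + L.loL - 1 - L.NH)))) := by
        intro x
        unfold rs
        have k1 : (1 : Kn) ≠ 0 := by decide
        have k5 : (5 : Kn) ≠ 0 := by decide
        rw [h1, sum_insert (by simp [n1, n2, n3]), sum_insert (by simp [n4, n5]), sum_pair n6,
          h2, h3, h4, h5, LoadsG_rl k1, LoadsG_rl k1, LoadsG_rl k1, LoadsG_rl k5]
      have h6 := Pr_badS4 hD.ok (ι f) (ι g) (ι e) (ι d) e1 e2 e3 e4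
        (L.aa + 4 + 4 * L.NH - 4 * L.loL) (D.w + 1) (by
          rw [hlo]
          omega)
      refine (LoadsG_Pr_mono hD.ok (A' := fun x => ¬ (L.aa + 4 + 4 * L.NH - 4 * L.loL <
        x (ι f) + x (ι g) + x (ι e) + x (ι d))) ?_).trans (h6.trans ?_)
      · intro md x hx hA hB
        refine hA ⟨fun h => absurd h hS3, fun _ => ?_⟩
        rw [hrs x]
        omega
      · refine div_le_div_of_nonneg_right ?_ (by positivity)
        push_cast
        linarith
    · refine (LoadsG_Pr_zero hD.ok _ ?_).trans hρ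
      intro md x hx hA
      exact hA ⟨fun h => absurd h hS3, fun h => absurd h hS4⟩

/-- the extra condition: `Pr_badS3`, `Pr_badS4` with `e = w + 1` for the stars -/
theorem exload_ok [NeZero p] (H : GB S ι Sp k B) {D : LD} {R n : ℕ} {β C κ : ℝ}
    (hD : DOk (s := s) S L Ik Sp D R) (hL : L.Ok S Sp k n β C κ)
    (he : (L.NL : ℝ) + κ * n ≤ (3 * D.q + D.w + 1 : ℕ) * D.h false) :
    ∑ Q, Pr D.om D.wt R ((gsys S L ι Ik Sp).kd Q) (fun x => ¬ (gsys S L ι Ik Sp).Ex Q x) ≤
      (5 * D.w + 8) / (3 * D.q) * Fintype.card F := by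
  classical
  have hq : (0 : ℝ) < D.q := by exact_mod_cast hD.ok.q0
  have hw0 : (0 : ℝ) < D.w := by exact_mod_cast hD.ok.w0
  have hρ : (0 : ℝ) ≤ (5 * D.w + 8) / (3 * D.q) := by positivity
  have h1 : ∀ Q, Pr D.om D.wt R ((gsys S L ι Ik Sp).kd Q)
      (fun x => ¬ (gsys S L ι Ik Sp).Ex Q x) ≤
      ∑ w ∈ (univ.filter fun w => S.isS3 w ∨ S.isS4 w) with S.vp w = Q,
        ((5 * D.w + 8) / (3 * D.q) : ℝ) := by
    intro Q
    by_cases hQ : Q ∈ Ik
    · have h2 : Pr D.om D.wt R ((gsys S L ι Ik Sp).kd Q)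
          (fun x => ¬ (gsys S L ι Ik Sp).Ex Q x) ≤
          Pr D.om D.wt R ((gsys S L ι Ik Sp).kd Q) (fun x =>
            ∃ w ∈ (univ.filter fun w => S.isS3 w ∨ S.isS4 w).filter (fun w => S.vp w = Q),
              ¬ ((S.isS3 w → L.aa < rs S L ι w x ∧ rs S L ι w x ≤ L.bb) ∧
                (S.isS4 w → L.aa < rs S L ι w x))) := by
        refine Pr_mono (LoadsG_law hD.ok) fun x _ hx => ?_
        by_contra hcon
        refine hx fun _ w hwQ => ?_
        by_cases hst : S.isS3 w ∨ S.isS4 w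
        · by_contra hb
          exact hcon ⟨w, mem_filter.2 ⟨mem_filter.2 ⟨mem_univ _, hst⟩, hwQ⟩, hb⟩
        · exact ⟨fun h => absurd (Or.inl h) hst, fun h => absurd (Or.inr h) hst⟩
      refine (h2.trans (Pr_exists_le (LoadsG_law hD.ok) _ _)).trans (sum_le_sum fun w hw => ?_)
      have h3 := (mem_filter.1 hw).2
      subst h3
      exact LoadsG_bad H hD hL he hQ
    · refine (LoadsG_Pr_zero hD.ok _ ?_).trans (sum_nonneg fun _ _ => hρ)
      intro md x _ hx
      exact hx fun h => absurd h hQ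
  refine (sum_le_sum fun Q _ => h1 Q).trans ?_
  rw [Finset.sum_fiberwise (univ.filter fun w => S.isS3 w ∨ S.isS4 w) S.vp
    (fun _ => ((5 * D.w + 8) / (3 * D.q) : ℝ)), sum_const, nsmul_eq_mul, mul_comm]
  refine mul_le_mul_of_nonneg_left ?_ hρ
  have h4 := LoadsG_low_card H (univ.filter fun w => S.isS3 w ∨ S.isS4 w) univ
    (fun _ _ _ _ _ => mem_univ _)
  have h5 : (univ.filter fun w => S.isS3 w ∨ S.isS4 w).card ≤
      ∑ w ∈ univ.filter (fun w => S.isS3 w ∨ S.isS4 w),
        ((S.slots w).filter fun f => S.kd f ≠ 0).card := by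
    rw [card_eq_sum_ones]
    refine sum_le_sum fun w hw => ?_
    rcases (mem_filter.1 hw).2 with h | h
    · rw [LoadsG_lowS3 h]
      omega
    · rw [LoadsG_lowS4 h]
      omega
  have h6 := h5.trans h4
  rw [card_univ] at h6
  exact_mod_cast h6

/-! ### Windows -/

private theorem LoadsG_win (H : GB S ι Sp k B) {D : LD} {R n : ℕ} {β C κ : ℝ}
    (hD : DOk (s := s) S L Ik Sp D R) (hL : L.Ok S Sp k n β C κ)
    (he : (L.NL : ℝ) + κ * n ≤ (3 * D.q + D.w + 1 : ℕ) * D.h false) (hq : 5 * D.w + 15 ≤ 2 * D.q)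
    (j : Bool) {f : F} (hf : f ∈ Sp) (hI : S.pt f ∈ Ik) (hj : S.kd f = 0 ↔ j = true) :
    1 / 10 ≤ Pr D.om D.wt R ((gsys S L ι Ik Sp).kd (S.pt f))
      (gGW S L ι Ik Sp j (S.pt f) (ι f)) := by
  classical
  have hlaw := LoadsG_law hD.ok
  cases j with
  | true =>
    have h1 : Pr D.om D.wt R ((gsys S L ι Ik Sp).kd (S.pt f)) (fun _ => True) ≤
        Pr D.om D.wt R ((gsys S L ι Ik Sp).kd (S.pt f))
          (gGW S L ι Ik Sp true (S.pt f) (ι f)) := by
      refine Pr_mono hlaw fun x _ _ => ?_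
      exact ⟨f, hf, rfl, rfl, hj, fun h => absurd h (by decide)⟩
    rw [Pr_true hlaw] at h1
    linarith
  | false =>
    have hk0 : S.kd f ≠ 0 := fun h => absurd (hj.1 h) (by decide)
    obtain ⟨u, hu⟩ := card_eq_one.1 (H.ok.en_one f hk0)
    have huf : u ∈ S.en f := by rw [hu]; exact mem_singleton_self _
    have hfs : f ∈ S.slots u := mem_slots.2 huf
    have hpt := H.pt_of_mem hfs
    have haa := LoadsG_a1 hL he
    have hlo := hD.loL
    have hl1 := hL.loL1
    have hIu : S.vp u ∈ Ik := by rw [← hpt]; exact hI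
    have hgk := H.ok.gk f hf
    rw [hpt]
    have hA2 : L.aa + 2 + 2 * L.NH - 2 * L.loL ≤
        2 * D.lo false + 3 * D.q * D.h false + (D.w + 1) * D.h false := by
      rw [hlo]
      omega
    have hA3 : L.aa + 3 + 3 * L.NH - 3 * L.loL ≤
        3 * D.lo false + 3 * D.q * D.h false + (D.w + 1) * D.h false := by
      rw [hlo]
      omega
    -- the event for a vertex that is not a star centre
    have hns : ¬ S.isS3 u → ¬ S.isS4 u → S.kd f = 1 →
        1 / 10 ≤ Pr D.om D.wt R ((gsys S L ι Ik Sp).kd (S.vp u))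
          (gGW S L ι Ik Sp false (S.vp u) (ι f)) := by
      intro h3 h4 hk1
      have e1 := LoadsG_kd (L := L) H hIu hfs
      rw [hk1] at e1
      refine (Pr_gwP hD.ok (ι f) e1 (L.aa + 2 + 2 * L.NH - 2 * L.loL) (D.w + 1) hA2
        (by omega)).trans ?_
      refine Pr_mono hlaw fun x _ hx => ?_
      refine ⟨f, hf, hpt, rfl, hj, fun _ => ⟨?_, ?_⟩⟩
      · rw [LoadsG_rl hk0]
        omega
      · intro v hv hst
        rw [hu, mem_singleton] at hv
        subst hv
        exact absurd hst (not_or.2 ⟨h3, h4⟩)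
    rcases H.ok.types u with h | h | h | h | h
    · obtain ⟨g, h1, h2⟩ := h
      have h3 := hfs
      rw [h1, mem_singleton] at h3
      rw [h3] at hk0
      exact absurd h2 hk0
    · have hk1 : S.kd f = 1 := (h.2 f hfs).resolve_left hk0
      have hx := H.types_excl u
      exact hns (fun h3 => hx.2.2.2.1 ⟨h3, Or.inr (Or.inl h)⟩)
        (fun h4 => hx.2.2.2.2 ⟨h4, Or.inr (Or.inl h)⟩) hk1
    · have hk1 : S.kd f = 1 := by
        obtain ⟨g, e, h1, h2, h3⟩ := h
        have h4 := hfs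
        rw [h1] at h4
        simp only [mem_insert, mem_singleton] at h4
        rcases h4 with h4 | h4
        · rw [h4] at hk0
          exact absurd h2 hk0
        · rw [h4]
          exact h3
      have hx := H.types_excl u
      exact hns (fun h3 => hx.2.2.2.1 ⟨h3, Or.inr (Or.inr (Or.inl h))⟩)
        (fun h4 => hx.2.2.2.2 ⟨h4, Or.inr (Or.inr h)⟩) hk1
    · obtain ⟨b, g, e, h1, h2, h3, h4, n1, n2, n3⟩ := LoadsG_S3 h
      have hb : b ∈ S.slots u := by rw [h1]; simp
      have hg : g ∈ S.slots u := by rw [h1]; simp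
      have hee : e ∈ S.slots u := by rw [h1]; simp
      have hfb : f = b := by
        have h5 := hfs
        rw [h1] at h5
        simp only [mem_insert, mem_singleton] at h5
        rcases h5 with h5 | h5 | h5
        · exact h5
        · exfalso
          rw [h5, h3] at hgk
          exact absurd hgk (by decide)
        · exfalso
          rw [h5, h4] at hgk
          exact absurd hgk (by decide)
      subst hfb
      have e1 := LoadsG_kd (L := L) H hIu hb
      have e2 := LoadsG_kd (L := L) H hIu hg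
      have e3 := LoadsG_kd (L := L) H hIu hee
      rw [h2] at e1
      rw [h3] at e2
      rw [h4] at e3
      refine (Pr_gwS3 hD.ok (ι f) (ι g) (ι e) e1 e2 e3 (L.aa + 2 + 2 * L.NH - 2 * L.loL)
        (D.w + 1) hA2 (by omega)).trans ?_
      refine Pr_mono hlaw fun x _ hx => ?_
      refine ⟨f, hf, hpt, rfl, hj, fun _ => ⟨?_, ?_⟩⟩
      · rw [LoadsG_rl hk0]
        omega
      · intro v hv _
        rw [hu, mem_singleton] at hv
        subst hv
        have k1 : (2 : Kn) ≠ 0 := by decide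
        have k2 : (3 : Kn) ≠ 0 := by decide
        have k3 : (4 : Kn) ≠ 0 := by decide
        unfold rs
        rw [h1, sum_insert (by simp [n1, n2]), sum_pair n3, h2, h3, h4, LoadsG_rl k1,
          LoadsG_rl k2, LoadsG_rl k3]
        omega
    · have hk1 : S.kd f = 1 := by
        obtain ⟨b, g, e, d, h1, hc, h2, h3, h4, h5, _⟩ := LoadsG_S4 h
        have h6 := hfs
        rw [h1] at h6
        simp only [mem_insert, mem_singleton] at h6
        rcases h6 with h6 | h6 | h6 | h6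
        · rw [h6]; exact h2
        · rw [h6]; exact h3
        · rw [h6]; exact h4
        · exfalso
          rw [h6, h5] at hgk
          exact absurd hgk (by decide)
      obtain ⟨g, e, d, h1, h3, h4, h5, n1, n2, n3, n4, n5, n6⟩ := LoadsG_S4' h hfs hk1
      have hg : g ∈ S.slots u := by rw [h1]; simp
      have hee : e ∈ S.slots u := by rw [h1]; simp
      have hd : d ∈ S.slots u := by rw [h1]; simp
      have e1 := LoadsG_kd (L := L) H hIu hfs
      have e2 := LoadsG_kd (L := L) H hIu hg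
      have e3 := LoadsG_kd (L := L) H hIu hee
      have e4 := LoadsG_kd (L := L) H hIu hd
      rw [hk1] at e1
      rw [h3] at e2
      rw [h4] at e3
      rw [h5] at e4
      refine (Pr_gwS4 hD.ok (ι f) (ι g) (ι e) (ι d) e1 e2 e3 e4
        (L.aa + 2 + 2 * L.NH - 2 * L.loL) (L.aa + 3 + 3 * L.NH - 3 * L.loL)
        (D.w + 1) hA2 hA3 (by omega)).trans ?_
      refine Pr_mono hlaw fun x _ hx => ?_
      refine ⟨f, hf, hpt, rfl, hj, fun _ => ⟨?_, ?_⟩⟩
      · rw [LoadsG_rl hk0]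
        omega
      · intro v hv _
        rw [hu, mem_singleton] at hv
        subst hv
        have k1 : (1 : Kn) ≠ 0 := by decide
        have k5 : (5 : Kn) ≠ 0 := by decide
        unfold rs
        rw [h1, sum_insert (by simp [n1, n2, n3]), sum_insert (by simp [n4, n5]), sum_pair n6,
          hk1, h3, h4, h5, LoadsG_rl k1, LoadsG_rl k1, LoadsG_rl k1, LoadsG_rl k5]
        omega

/-- the gadget windows: class `true`: the event is sure; class `false`: `Pr_gwP`, `Pr_gwS3`, `Pr_gwS4` with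
`e = w + 1` -/
theorem gw_ok [NeZero p] (H : GB S ι Sp k B) {D : LD} {R n : ℕ} {β C κ : ℝ}
    (hD : DOk (s := s) S L Ik Sp D R) (hL : L.Ok S Sp k n β C κ)
    (he : (L.NL : ℝ) + κ * n ≤ (3 * D.q + D.w + 1 : ℕ) * D.h false) (hq : 5 * D.w + 15 ≤ 2 * D.q)
    (j : Bool) :
    1 / 10 * ((Sp.filter fun f => (S.kd f = 0 ↔ j = true) ∧ S.pt f ∈ Ik).card : ℝ) ≤
      ∑ Q, ∑ g ∈ (gsys S L ι Ik Sp).Gd Q,
        Pr D.om D.wt R ((gsys S L ι Ik Sp).kd Q) (gGW S L ι Ik Sp j Q g.1) := by
  classical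
  rw [LoadsG_gad_sum H (fun Q g =>
    Pr D.om D.wt R ((gsys S L ι Ik Sp).kd Q) (gGW S L ι Ik Sp j Q g.1))]
  have h1 : 1 / 10 * ((Sp.filter fun f => (S.kd f = 0 ↔ j = true) ∧ S.pt f ∈ Ik).card : ℝ) =
      ∑ f ∈ Sp.filter (fun f => S.pt f ∈ Ik),
        if (S.kd f = 0 ↔ j = true) then (1 / 10 : ℝ) else 0 := by
    rw [← sum_filter, sum_const, nsmul_eq_mul, filter_filter, mul_comm]
    congr 3
    ext f
    simp only [mem_filter]
    tauto
  rw [h1]
  refine sum_le_sum fun f hf => ?_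
  have h2 := mem_filter.1 hf
  split_ifs with hj
  · exact LoadsG_win H hD hL he hq j h2.1 h2.2 hj
  · exact Pr_nonneg (LoadsG_law hD.ok) _

end Pool.Agent.AMH
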