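import Pool.Agent.AMH.Sys2

/-!
# The structural hypotheses of the general parts theorem

Adaptation of `AMX/Br2.lean` (`Br_PSOK`).
-/

set_option autoImplicit false
set_option linter.unusedSectionVars false
set_option linter.unusedVariables false

namespace Pool.Agent.AMH

open Finset
open Pool.Agent.AME
open Pool.Agent.AMA (Frm val)

variable {F W I : Type} [Fintype F] [DecidableEq F] [Fintype W] [DecidableEq W] [Fintype I]
  [DecidableEq I] {p : ℕ} {s : ℕ}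
  {S : PSG F W I p} {L : Pools} {ι : F → Fin s} {Ik : Finset I} {Sp : Finset F} {k B : ℕ}

/-- the fields of `GOKH` that do not involve probabilities -/
structure GStr (σ : GSys I Kn s) (p B : ℕ) : Prop where
  Zc : σ.Z.card ≤ 2
  S_act : ∀ Q, ∀ φ ∈ σ.S Q, ∀ i ∈ φ.1, σ.kd Q i ≠ none
  S_ne : ∀ Q, ∀ φ ∈ σ.S Q, φ.1.Nonempty
  S_inj : ∀ Q, ∀ φ ∈ σ.S Q, ∀ ψ ∈ σ.S Q, φ.1 = ψ.1 → φ = ψ
  S_lt : ∀ Q, ∀ φ ∈ σ.S Q, φ.2 < p
  S_card : ∀ Q, (σ.S Q).card ≤ s
  G_act : ∀ Q, ∀ g ∈ σ.Gd Q, σ.kd Q g.1 ≠ none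
  G_uniq : ∀ Q, ∀ g ∈ σ.Gd Q, ∀ g' ∈ σ.Gd Q, g.1 = g'.1 → g = g'
  G_card : ∀ Q, ∀ g ∈ σ.Gd Q, g.2.Nonempty ∧ g.2.card ≤ 2
  G_notin : ∀ Q, ∀ g ∈ σ.Gd Q, ∀ β ∈ g.2, g.1 ∉ β.1
  G_S : ∀ Q, ∀ g ∈ σ.Gd Q, ∀ β ∈ g.2, (insert g.1 β.1, β.2) ∈ σ.S Q
  G_ne : ∀ Q, ∀ g ∈ σ.Gd Q, ∀ β ∈ g.2, ∀ β' ∈ g.2, β.1 = β'.1 → β = β'
  B_card : ∀ Q, (σ.Bf Q).card ≤ 2 * s
  m1 : ∀ δ : ℕ, ∑ Q, (((σ.S Q).filter fun φ => φ.1.card = 1 ∧ φ.2 = δ).card) ≤ B
  m2 : ∀ δ : ℕ, ∑ Q, ∑ g ∈ σ.Gd Q, ((g.2.filter fun β => β.1 = ∅ ∧ β.2 = δ).card) ≤ B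
  m2' : ∀ δ : ℕ, δ ∉ σ.Z →
    ∑ Q, ∑ g ∈ σ.Gd Q, ((g.2.filter fun β => β.1.card = 1 ∧ β.2 = δ).card) ≤ B
  m3 : ∀ δ : ℕ, ∑ Q, ((((σ.S Q) ×ˢ (σ.Bf Q)).filter fun u =>
    u.1.1 = u.2.1 ∧ u.1.2 % p = (u.2.2 + δ) % p).card) ≤ B
  m4 : ∀ δ : ℕ, ∑ Q, ((((σ.Bf Q) ×ˢ (σ.Bf Q)).filter fun u =>
    u.1 ≠ u.2 ∧ u.1.1 = u.2.1 ∧ u.1.2 % p = (u.2.2 + δ) % p).card) ≤ B

section general

variable {A J K : Type*} [DecidableEq J] [Fintype J] [DecidableEq K]

private theorem Struct_sum_filter_card (s : Finset A) (c : A → J) :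
    ∑ i : J, (s.filter fun a => c a = i).card = s.card := by
  classical
  exact (card_eq_sum_card_fiberwise (f := c) (s := s) (t := univ)
    (fun _ _ => mem_coe.2 (mem_univ _))).symm

private theorem Struct_sum_image_le (s : Finset A) (c : A → J) (φ : A → K) (P : K → Prop)
    [DecidablePred P] :
    ∑ i : J, (((s.filter fun a => c a = i).image φ).filter P).card ≤
      (s.filter fun a => P (φ a)).card := by
  classical
  rw [← Struct_sum_filter_card (s.filter fun a => P (φ a)) c]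
  refine sum_le_sum fun i _ => ?_
  have h : ((s.filter fun a => c a = i).image φ).filter P ⊆
      ((s.filter fun a => P (φ a)).filter fun a => c a = i).image φ := by
    intro x hx
    simp only [mem_filter, mem_image] at hx ⊢
    obtain ⟨⟨a, ⟨ha1, ha2⟩, rfl⟩, hp⟩ := hx
    exact ⟨a, ⟨⟨ha1, hp⟩, ha2⟩, rfl⟩
  exact (card_le_card h).trans card_image_le

private theorem Struct_sum_over_image_le (s : Finset A) (φ : A → K) (g : K → ℕ) :
    ∑ x ∈ s.image φ, g x ≤ ∑ a ∈ s, g (φ a) := by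
  classical
  rw [← sum_fiberwise_of_maps_to (s := s) (t := s.image φ) (g := φ)
    (fun a ha => mem_image_of_mem _ ha)]
  refine sum_le_sum fun x hx => ?_
  obtain ⟨a, ha, rfl⟩ := mem_image.1 hx
  have : g (φ a) = ∑ b ∈ ({a} : Finset A), g (φ b) := by simp
  rw [this]
  exact sum_le_sum_of_subset (by simpa using ha)

end general

private theorem Struct_S_sub (Q : I) : (gsys S L ι Ik Sp).S Q ⊆
    (univ.filter fun w => S.vp w = Q).image (gfm S L ι) := by
  intro φ hφ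
  obtain ⟨-, w, hw, rfl⟩ := mem_gS.1 hφ
  exact mem_image_of_mem _ (by simpa using hw)

private theorem Struct_Gd_sub (Q : I) : (gsys S L ι Ik Sp).Gd Q ⊆
    (Sp.filter fun f => S.pt f = Q).image fun f => (ι f, (S.en f).image (gfb S L ι f)) := by
  intro g hg
  obtain ⟨-, f, hf, hfQ, rfl⟩ := mem_gGd.1 hg
  exact mem_image.2 ⟨f, mem_filter.2 ⟨hf, hfQ⟩, rfl⟩

private theorem Struct_mem_Bf {i : I} {β : Frm s} (h : β ∈ (gsys S L ι Ik Sp).Bf i) :
    ∃ f ∈ Sp, S.pt f = i ∧ ∃ u ∈ S.en f, gfb S L ι f u = β ∧ β.1.Nonempty := by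
  rw [GSys.Bf, mem_filter, mem_biUnion] at h
  obtain ⟨⟨g, hg, hβ⟩, hne, hz⟩ := h
  obtain ⟨-, f, hf, hfi, rfl⟩ := mem_gGd.1 hg
  obtain ⟨u, hu, rfl⟩ := mem_image.1 hβ
  exact ⟨f, hf, hfi, u, hu, rfl, hne⟩

private theorem Struct_sum_S_le (P : Frm s → Prop) [DecidablePred P] :
    ∑ Q, (((gsys S L ι Ik Sp).S Q).filter P).card ≤
      (univ.filter fun w => P (gfm S L ι w)).card := by
  refine le_trans (sum_le_sum fun Q _ => ?_)
    (Struct_sum_image_le univ S.vp (gfm S L ι) P)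
  exact card_le_card (filter_subset_filter _ (Struct_S_sub Q))

private theorem Struct_sum_Gd_le (P : Frm s → Prop) [DecidablePred P] :
    ∑ Q, ∑ g ∈ (gsys S L ι Ik Sp).Gd Q, (g.2.filter P).card ≤
      ∑ f ∈ Sp, ((S.en f).filter fun u => P (gfb S L ι f u)).card := by
  have h1 : ∀ Q, ∑ g ∈ (gsys S L ι Ik Sp).Gd Q, (g.2.filter P).card ≤
      ∑ f ∈ Sp.filter (fun f => S.pt f = Q),
        ((S.en f).filter fun u => P (gfb S L ι f u)).card := by
    intro Q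
    refine (sum_le_sum_of_subset (Struct_Gd_sub Q)).trans ?_
    refine (Struct_sum_over_image_le (Sp.filter fun f => S.pt f = Q)
      (fun f => (ι f, (S.en f).image (gfb S L ι f))) (fun g => (g.2.filter P).card)).trans ?_
    refine sum_le_sum fun f _ => ?_
    have : ((S.en f).image (gfb S L ι f)).filter P ⊆
        ((S.en f).filter fun u => P (gfb S L ι f u)).image (gfb S L ι f) := by
      intro x hx
      simp only [mem_filter, mem_image] at hx ⊢
      obtain ⟨⟨u, hu, rfl⟩, hp⟩ := hx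
      exact ⟨u, ⟨hu, hp⟩, rfl⟩
    exact (card_le_card this).trans card_image_le
  refine (sum_le_sum fun Q _ => h1 Q).trans (le_of_eq ?_)
  exact sum_fiberwise_of_maps_to (s := Sp) (t := univ) (g := S.pt) (fun _ _ => mem_univ _) _

private theorem Struct_sum_ends_le (H : GB S ι Sp k B) (P : F → W → Prop)
    [∀ f, DecidablePred (P f)] (Q : W → Prop) [DecidablePred Q]
    (h : ∀ f ∈ Sp, ∀ u ∈ S.en f, P f u → Q u) :
    ∑ f ∈ Sp, ((S.en f).filter (P f)).card ≤ (univ.filter Q).card := by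
  rw [← card_biUnion]
  · refine card_le_card fun u hu => ?_
    simp only [mem_biUnion, mem_filter] at hu
    obtain ⟨f, hf, hu1, hu2⟩ := hu
    simp [h f hf u hu1 hu2]
  · intro f hf g hg hfg
    exact (H.ok.disj f hf g hg hfg).mono (filter_subset _ _) (filter_subset _ _)

private theorem Struct_slots_ne (H : GB S ι Sp k B) (w : W) : (S.slots w).Nonempty := by
  rw [← card_pos]
  rcases H.types_card w with h | h | h | h | h <;> omega

private theorem Struct_off_eq [NeZero p] {w : W} {δ : ℕ} (h : goff S L w = δ) :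
    S.c w = (δ : ZMod p) - ∑ f ∈ S.slots w, sh L p (S.kd f) := by
  have h1 : ((goff S L w : ℕ) : ZMod p) = δ := by rw [h]
  rw [goff, ZMod.natCast_zmod_val] at h1
  rw [← h1]
  ring

/-- a vertex with one slot -/
private theorem Struct_one (H : GB S ι Sp k B) {w : W} (h : (S.slots w).card = 1) :
    S.isR w ∧ ∑ f ∈ S.slots w, sh L p (S.kd f) = sh L p 0 := by
  rcases H.types_card w with h1 | h1 | h1 | h1 | h1
  · refine ⟨h1.1, ?_⟩
    obtain ⟨f, hf, hk⟩ := h1.1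
    rw [hf, sum_singleton, hk]
  all_goals omega

/-- a vertex with two slots -/
private theorem Struct_two (H : GB S ι Sp k B) {w : W} (h : (S.slots w).card = 2) :
    ∑ f ∈ S.slots w, sh L p (S.kd f) = 2 * sh L p 0 ∨
      ∑ f ∈ S.slots w, sh L p (S.kd f) = sh L p 0 + sh L p 1 := by
  rcases H.types_card w with h1 | h1 | h1 | h1 | h1
  · omega
  · left
    obtain ⟨h2, -⟩ := h1.1
    have h3 : (S.slots w).filter (fun f => S.kd f = 0) = S.slots w := by
      apply eq_of_subset_of_card_le (filter_subset _ _)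
      omega
    have h4 : ∀ f ∈ S.slots w, sh L p (S.kd f) = sh L p 0 := by
      intro f hf
      rw [← h3] at hf
      rw [(mem_filter.1 hf).2]
    rw [sum_congr rfl h4, sum_const, h, two_nsmul, two_mul]
  · right
    obtain ⟨f, g, hfg, hf, hg⟩ := h1.1
    have hne : f ≠ g := by
      rintro rfl
      rw [hfg] at h
      simp at h
    rw [hfg, sum_pair hne, hf, hg]
  · omega
  · omega

/-- **Structural hypotheses**, `s = 2 k`. `m1`: vertices of type `R` (offset `c w + sh 0`), `m2`: gadget ends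
of type `R`; `m2'`: gadget ends with two slots: type `D` (two high slots, offset `c w + 2 sh 0`) or type
`P` (offset `c w + sh 0 + sh 1`), not in `zt` as the offset is not in `Z`; `m3`, `m4`: no pairs by
`star`, `keys`. -/
theorem gstr [NeZero p] (H : GB S ι Sp k B) (hs : s = 2 * k) :
    GStr (gsys S L ι Ik Sp) p (2 * B) := by
  have hact : ∀ Q ∈ Ik, ∀ w, S.vp w = Q → ∀ i ∈ (gfm S L ι w).1,
      (gsys S L ι Ik Sp).kd Q i ≠ none := by
    intro Q hQ w hw i hi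
    obtain ⟨f, hf, rfl⟩ := mem_image.1 hi
    exact (gkd_ne H).2 ⟨hQ, f, (H.pt_of_mem hf).trans hw, rfl⟩
  have hmult : ∀ (y : ZMod p) (A : Finset W), (∀ w ∈ A, (S.isR w ∨ ∃ g ∈ Sp, w ∈ S.en g) ∧
      w ∉ S.zt ∧ (S.slots w).card ≤ 2 ∧ S.c w = y) → A.card ≤ B := by
    intro y A hA
    classical
    refine (card_le_card fun w hw => ?_).trans (H.ok.mult y)
    exact mem_filter.2 ⟨mem_univ _, hA w hw⟩
  refine
    { Zc := ?_
      S_act := ?_
      S_ne := ?_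
      S_inj := ?_
      S_lt := ?_
      S_card := ?_
      G_act := ?_
      G_uniq := ?_
      G_card := ?_
      G_notin := ?_
      G_S := ?_
      G_ne := ?_
      B_card := ?_
      m1 := ?_
      m2 := ?_
      m2' := ?_
      m3 := ?_
      m4 := ?_ }
  · -- Zc
    exact card_le_two
  · -- S_act
    intro Q φ hφ i hi
    obtain ⟨hQ, w, hw, rfl⟩ := mem_gS.1 hφ
    exact hact Q hQ w hw i hi
  · -- S_ne
    intro Q φ hφ
    obtain ⟨hQ, w, hw, rfl⟩ := mem_gS.1 hφ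
    exact (Struct_slots_ne H w).image _
  · -- S_inj
    intro Q φ hφ ψ hψ h
    obtain ⟨hQ, w, hw, rfl⟩ := mem_gS.1 hφ
    obtain ⟨-, w', hw', rfl⟩ := mem_gS.1 hψ
    rw [H.fm_inj (hw.trans hw'.symm) h]
  · -- S_lt
    intro Q φ hφ
    obtain ⟨hQ, w, hw, rfl⟩ := mem_gS.1 hφ
    exact ZMod.val_lt _
  · -- S_card
    intro Q
    exact ((card_le_card (Struct_S_sub Q)).trans (card_image_le.trans (H.card_vert Q))).trans hs.ge
  · -- G_act
    intro Q g hg
    obtain ⟨hQ, f, hf, hfi, rfl⟩ := mem_gGd.1 hg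
    exact (gkd_ne H).2 ⟨hQ, f, hfi, rfl⟩
  · -- G_uniq
    intro Q g hg g' hg' h
    obtain ⟨hQ, f, hf, hfi, rfl⟩ := mem_gGd.1 hg
    obtain ⟨-, f', hf', hfi', rfl⟩ := mem_gGd.1 hg'
    have : f = f' := H.inj f f' (hfi.trans hfi'.symm) h
    rw [this]
  · -- G_card
    intro Q g hg
    obtain ⟨hQ, f, hf, hfi, rfl⟩ := mem_gGd.1 hg
    exact ⟨(H.ok.en_pos f).image _, card_image_le.trans (H.ok.en_le f)⟩
  · -- G_notin
    intro Q g hg β hβ
    obtain ⟨hQ, f, hf, hfi, rfl⟩ := mem_gGd.1 hg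
    obtain ⟨u, hu, rfl⟩ := mem_image.1 hβ
    exact H.notMem_fb hu
  · -- G_S
    intro Q g hg β hβ
    obtain ⟨hQ, f, hf, hfi, rfl⟩ := mem_gGd.1 hg
    obtain ⟨u, hu, rfl⟩ := mem_image.1 hβ
    rw [H.insert_fb hu]
    exact mem_gS.2 ⟨hQ, u, (H.ok.vp_eq f u hu).symm.trans hfi, rfl⟩
  · -- G_ne
    intro Q g hg β hβ β' hβ' h
    obtain ⟨hQ, f, hf, hfi, rfl⟩ := mem_gGd.1 hg
    obtain ⟨u, hu, rfl⟩ := mem_image.1 hβ
    obtain ⟨v, hv, rfl⟩ := mem_image.1 hβ'
    have h1 : (gfm S L ι u).1 = (gfm S L ι v).1 := by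
      rw [← H.insert_fb hu, ← H.insert_fb hv]
      exact congrArg (insert (ι f)) h
    rw [H.fm_inj ((H.ok.vp_eq f u hu).symm.trans (H.ok.vp_eq f v hv)) h1]
  · -- B_card
    intro Q
    have h1 : ((gsys S L ι Ik Sp).Bf Q).card ≤
        (((gsys S L ι Ik Sp).Gd Q).biUnion fun g => g.2).card := card_filter_le _ _
    have h2 : (((gsys S L ι Ik Sp).Gd Q).biUnion fun g => g.2).card ≤
        ((gsys S L ι Ik Sp).Gd Q).card * 2 := by
      refine card_biUnion_le_card_mul _ _ _ fun g hg => ?_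
      obtain ⟨hQ, f, hf, hfi, rfl⟩ := mem_gGd.1 hg
      exact card_image_le.trans (H.ok.en_le f)
    have h3 : ((gsys S L ι Ik Sp).Gd Q).card ≤ (Sp.filter fun f => S.pt f = Q).card :=
      (card_le_card (Struct_Gd_sub Q)).trans card_image_le
    have h4 : (Sp.filter fun f => S.pt f = Q).card ≤ k := by
      refine (card_le_card fun f hf => ?_).trans (H.ok.part_le Q)
      rw [mem_filter] at hf ⊢
      exact ⟨mem_univ _, hf.2⟩
    omega
  · -- m1
    intro δ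
    refine (Struct_sum_S_le _).trans ((hmult ((δ : ZMod p) - sh L p 0) _ ?_).trans (by omega))
    intro w hw
    simp only [mem_filter, mem_univ, true_and] at hw
    obtain ⟨hw1, hw2⟩ := hw
    rw [H.fm_card] at hw1
    obtain ⟨hR, hsum⟩ := Struct_one (L := L) (p := p) H hw1
    refine ⟨Or.inl hR, fun hz => ?_, by omega, ?_⟩
    · have := (H.ok.zt_zero w hz).2
      omega
    · rw [Struct_off_eq hw2, hsum]
  · -- m2
    intro δ
    classical
    refine (Struct_sum_Gd_le _).trans ((Struct_sum_ends_le H _ (fun w =>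
      (S.isR w ∨ ∃ g ∈ Sp, w ∈ S.en g) ∧ w ∉ S.zt ∧ (S.slots w).card ≤ 2 ∧
        S.c w = (δ : ZMod p) - sh L p 0) ?_).trans ((hmult ((δ : ZMod p) - sh L p 0) _ ?_).trans
        (by omega)))
    · rintro f hf u hu ⟨h1, h2⟩
      have h3 := H.fb_card (L := L) hu
      rw [h1, card_empty] at h3
      have h4 : 1 ≤ (S.slots u).card := card_pos.2 (Struct_slots_ne H u)
      have h5 : (S.slots u).card = 1 := by omega
      obtain ⟨hR, hsum⟩ := Struct_one (L := L) (p := p) H h5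
      refine ⟨Or.inl hR, fun hz => ?_, by omega, ?_⟩
      · have := (H.ok.zt_zero u hz).2
        omega
      · rw [Struct_off_eq h2, hsum]
    · intro w hw
      exact (mem_filter.1 hw).2
  · -- m2'
    intro δ hδ
    classical
    have hδ1 : δ ≠ (2 * sh L p 0).val := by
      intro h
      apply hδ
      rw [h]
      exact mem_insert_self _ _
    have hδ2 : δ ≠ (sh L p 0 + sh L p 1).val := by
      intro h
      apply hδ
      rw [h]
      exact mem_insert_of_mem (mem_singleton_self _)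
    refine (Struct_sum_Gd_le _).trans ((Struct_sum_ends_le H _ (fun w =>
      ((S.isR w ∨ ∃ g ∈ Sp, w ∈ S.en g) ∧ w ∉ S.zt ∧ (S.slots w).card ≤ 2 ∧
        S.c w = (δ : ZMod p) - 2 * sh L p 0) ∨
      ((S.isR w ∨ ∃ g ∈ Sp, w ∈ S.en g) ∧ w ∉ S.zt ∧ (S.slots w).card ≤ 2 ∧
        S.c w = (δ : ZMod p) - (sh L p 0 + sh L p 1))) ?_).trans ?_)
    · rintro f hf u hu ⟨h1, h2⟩
      have h3 := H.fb_card (L := L) hu
      rw [h1] at h3
      have h5 : (S.slots u).card = 2 := by omega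
      have h6 : goff S L u = δ := h2
      have hoff := Struct_off_eq h2
      rcases Struct_two (L := L) (p := p) H h5 with h7 | h7
      · left
        refine ⟨Or.inr ⟨f, hf, hu⟩, fun hz => ?_, by omega, ?_⟩
        · apply hδ1
          rw [← h6, goff, (H.ok.zt_zero u hz).1, h7, zero_add]
        · rw [hoff, h7]
      · right
        refine ⟨Or.inr ⟨f, hf, hu⟩, fun hz => ?_, by omega, ?_⟩
        · apply hδ2
          rw [← h6, goff, (H.ok.zt_zero u hz).1, h7, zero_add]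
        · rw [hoff, h7]
    · rw [filter_or]
      refine (card_union_le _ _).trans ?_
      have h8 := hmult ((δ : ZMod p) - 2 * sh L p 0) (univ.filter fun w =>
        ((S.isR w ∨ ∃ g ∈ Sp, w ∈ S.en g) ∧ w ∉ S.zt ∧ (S.slots w).card ≤ 2 ∧
        S.c w = (δ : ZMod p) - 2 * sh L p 0)) (fun w hw => (mem_filter.1 hw).2)
      have h9 := hmult ((δ : ZMod p) - (sh L p 0 + sh L p 1)) (univ.filter fun w =>
        ((S.isR w ∨ ∃ g ∈ Sp, w ∈ S.en g) ∧ w ∉ S.zt ∧ (S.slots w).card ≤ 2 ∧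
        S.c w = (δ : ZMod p) - (sh L p 0 + sh L p 1))) (fun w hw => (mem_filter.1 hw).2)
      omega
  · -- m3
    intro δ
    have h1 : ∀ Q, ((((gsys S L ι Ik Sp).S Q) ×ˢ ((gsys S L ι Ik Sp).Bf Q)).filter fun u =>
        u.1.1 = u.2.1 ∧ u.1.2 % p = (u.2.2 + δ) % p).card = 0 := by
      intro Q
      rw [card_eq_zero, filter_eq_empty_iff]
      rintro ⟨φ, β⟩ h ⟨h1, -⟩
      rw [mem_product] at h
      obtain ⟨-, w, hw, hφ⟩ := mem_gS.1 h.1
      obtain ⟨f, hf, hfi, u, hu, hβ, -⟩ := Struct_mem_Bf h.2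
      simp only at h1 hφ hβ
      rw [← hφ, ← hβ] at h1
      exact H.fb_ne_fm hf hu (hw.trans hfi.symm) h1
    rw [sum_congr rfl fun Q _ => h1 Q]
    simp
  · -- m4
    intro δ
    have h1 : ∀ Q, ((((gsys S L ι Ik Sp).Bf Q) ×ˢ ((gsys S L ι Ik Sp).Bf Q)).filter fun u =>
        u.1 ≠ u.2 ∧ u.1.1 = u.2.1 ∧ u.1.2 % p = (u.2.2 + δ) % p).card = 0 := by
      intro Q
      rw [card_eq_zero, filter_eq_empty_iff]
      rintro ⟨φ, β⟩ h ⟨h0, h1, -⟩
      rw [mem_product] at h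
      obtain ⟨g, hg, hgi, v, hv, hφ, hne⟩ := Struct_mem_Bf h.1
      obtain ⟨f, hf, hfi, u, hu, hβ, -⟩ := Struct_mem_Bf h.2
      simp only at h0 h1 hφ hβ hne
      rw [← hφ] at hne
      rw [← hφ, ← hβ] at h1
      obtain ⟨rfl, rfl⟩ := H.fb_keys hg hf (hgi.trans hfi.symm) hv hu h1 hne
      exact h0 (hφ.symm.trans hβ)
    rw [sum_congr rfl fun Q _ => h1 Q]
    simp

end Pool.Agent.AMH
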