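import Pool.Agent.AMH.Law

/-!
# Part systems with high and low slots

`F`: slots, `W`: regular vertices, `I`: parts. `kd f` is the kind of the slot `f` (`0` = edge of the
inner graph; `1, ..., 5` = leaf edges), `en f` the regular ends of `f`, `c w` the offset of `w` modulo `p`
(labels of all other edges at `w`), `cr w` the offset as a natural number for the vertices in
`lowv` (vertices whose sum may be at most `bb`).
-/

set_option autoImplicit false
set_option linter.unusedSectionVars false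
set_option linter.unusedVariables false

namespace Pool.Agent.AMH

open Finset

/-- A part system. -/
structure PSG (F W I : Type) (p : ℕ) where
  /-- kinds of the slots -/
  kd : F → Kn
  /-- the regular ends of a slot -/
  en : F → Finset W
  /-- part of a slot -/
  pt : F → I
  /-- part of a vertex -/
  vp : W → I
  /-- offset of a vertex -/
  c : W → ZMod p
  /-- vertices of offset zero with at least two slots -/
  zt : Finset W
  /-- vertices whose sum may be small -/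
  lowv : Finset W
  /-- offset of these vertices as a natural number -/
  cr : W → ℕ

section

variable {F W I : Type} [Fintype F] [DecidableEq F] [Fintype W] [DecidableEq W] [Fintype I]
  [DecidableEq I] {p : ℕ}

/-- the slots at a vertex -/
def PSG.slots (S : PSG F W I p) (w : W) : Finset F := univ.filter fun f => w ∈ S.en f

/-- the sum at a vertex modulo `p` -/
def PSG.sum (S : PSG F W I p) (lab : F → ℕ) (w : W) : ZMod p :=
  S.c w + ∑ f ∈ S.slots w, (lab f : ZMod p)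

/-- the sum at a vertex of `lowv` -/
def PSG.rsum (S : PSG F W I p) (lab : F → ℕ) (w : W) : ℕ := S.cr w + ∑ f ∈ S.slots w, lab f

/-- one high slot -/
def PSG.isR (S : PSG F W I p) (w : W) : Prop := ∃ f, S.slots w = {f} ∧ S.kd f = 0

/-- at least two high slots, all other slots low of kind `1` -/
def PSG.isD (S : PSG F W I p) (w : W) : Prop :=
  2 ≤ ((S.slots w).filter fun f => S.kd f = 0).card ∧ ∀ f ∈ S.slots w, S.kd f = 0 ∨ S.kd f = 1

/-- a high and a low slot -/
def PSG.isP (S : PSG F W I p) (w : W) : Prop :=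
  ∃ f g, S.slots w = {f, g} ∧ S.kd f = 0 ∧ S.kd g = 1

/-- star centre with three leaves -/
def PSG.isS3 (S : PSG F W I p) (w : W) : Prop :=
  ∃ f g e, S.slots w = {f, g, e} ∧ S.kd f = 2 ∧ S.kd g = 3 ∧ S.kd e = 4

/-- star centre with at least four leaves -/
def PSG.isS4 (S : PSG F W I p) (w : W) : Prop :=
  ∃ f g e d, S.slots w = {f, g, e, d} ∧ (S.slots w).card = 4 ∧ S.kd f = 1 ∧ S.kd g = 1 ∧
    S.kd e = 1 ∧ S.kd d = 5

open Classical in
/-- Admissible part systems with gadget slots `Sp`. -/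
structure PSG.Ok (S : PSG F W I p) (k B : ℕ) (Sp : Finset F) : Prop where
  part_le : ∀ i, (univ.filter fun f => S.pt f = i).card ≤ k
  part_pos : ∀ i, ∃ f, S.pt f = i
  en_pos : ∀ f, (S.en f).Nonempty
  en_le : ∀ f, (S.en f).card ≤ 2
  en_one : ∀ f, S.kd f ≠ 0 → (S.en f).card = 1
  vp_eq : ∀ f, ∀ w ∈ S.en f, S.pt f = S.vp w
  types : ∀ w, S.isR w ∨ S.isD w ∨ S.isP w ∨ S.isS3 w ∨ S.isS4 w
  slots_ne : ∀ w w', w ≠ w' → S.slots w ≠ S.slots w'
  zt_zero : ∀ w ∈ S.zt, S.c w = 0 ∧ 2 ≤ (S.slots w).card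
  mult : ∀ y, (univ.filter fun w => (S.isR w ∨ ∃ g ∈ Sp, w ∈ S.en g) ∧ w ∉ S.zt ∧
    (S.slots w).card ≤ 2 ∧ S.c w = y).card ≤ B
  -- small sums
  low_c : ∀ w ∈ S.lowv, S.c w = (S.cr w : ZMod p)
  low_R : ∀ w ∈ S.lowv, ¬ S.isR w ∧ ¬ S.isD w
  S3_low : ∀ w, S.isS3 w → w ∈ S.lowv ∧ S.cr w = 0
  S4_low : ∀ w, S.isS4 w → w ∈ S.lowv
  -- the gadgets
  gk : ∀ g ∈ Sp, S.kd g = 0 ∨ S.kd g = 1 ∨ S.kd g = 2
  disj : ∀ f ∈ Sp, ∀ g ∈ Sp, f ≠ g → Disjoint (S.en f) (S.en g)
  star : ∀ f ∈ Sp, ∀ u ∈ S.en f, ∀ w, S.slots w ≠ (S.slots u).erase f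
  keys : ∀ f ∈ Sp, ∀ g ∈ Sp, ∀ u ∈ S.en f, ∀ v ∈ S.en g, u ≠ v →
    (S.slots u).erase f = (S.slots v).erase g → (S.slots u).erase f = ∅
  -- the loads (per part): |R| + |P| / 2 + |D| is at most (1 + 1/1000) times the number of high slots
  load : ∀ i, 1000 * (2 * (univ.filter fun w => S.vp w = i ∧ S.isR w).card +
      (univ.filter fun w => S.vp w = i ∧ S.isP w).card +
      2 * (univ.filter fun w => S.vp w = i ∧ S.isD w).card) ≤
    1001 * (2 * (univ.filter fun f => S.pt f = i ∧ S.kd f = 0).card)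

/-- The label intervals `[loH, loH + NH)` and `[loL, loL + NL)`, the bounds `aa < star sums`, `bb`
(bound of small sums), size parameter `n`. -/
structure Pools where
  /-- smallest high label -/
  loH : ℕ
  /-- number of high labels -/
  NH : ℕ
  /-- smallest low label -/
  loL : ℕ
  /-- number of low labels -/
  NL : ℕ
  /-- lower bound for the sums at star centres -/
  aa : ℕ
  /-- bound for small sums -/
  bb : ℕ

open Classical in
/-- Admissible label intervals. -/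
structure Pools.Ok (L : Pools) (S : PSG F W I p) (Sp : Finset F) (k n : ℕ) (β C κ : ℝ) : Prop where
  loL1 : 1 ≤ L.loL
  disj : L.loL + L.NL ≤ L.loH
  wrap : (4 * k + 4) * (L.NH + L.NL + 2) ≤ p
  pC : (p : ℝ) ≤ C * n
  FC : (Fintype.card F : ℝ) ≤ C * n
  bH : β * n ≤ L.NH
  bL : β * n ≤ L.NL
  slH : (univ.filter fun f => S.kd f = 0).card ≤ L.NH
  slL : (univ.filter fun f => S.kd f ≠ 0).card ≤ L.NL
  spH : 10 * (Sp.filter fun g => ∃ u ∈ S.en g, ∃ f ∈ S.slots u, f ≠ g ∧ S.kd f = 0).card ≤ L.NH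
  spL : 10 * Sp.card ≤ L.NL
  /-- offsets of the vertices with one slot -/
  rst : ∀ t : ZMod p, (((univ.filter fun w => S.isR w ∧
      ∃ l ∈ Ico L.loH (L.loH + L.NH), S.c w + (l : ZMod p) = t).card : ℕ) : ℝ) ≤
    5 / 6 * (univ.filter fun w => S.isR w).card + L.NH / 1000
  a1 : (L.aa : ℝ) ≤ 2 * L.loL + L.NL + κ * n
  b1 : (3 * L.loL + 2 * L.NL : ℝ) ≤ L.bb + κ * n

/-- The gadget `g` is valid for the test `(C1, C2, l)`. -/
def VdG (S : PSG F W I p) (T : Finset (ZMod p)) (lab : F → ℕ) (C1 C2 l : ZMod p) (g : F) : Prop :=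
  C1 + lab g ∈ T ∧ C2 + lab g ∈ T ∧ ∀ u ∈ S.en g, S.sum lab u - lab g + l ∈ T ∧
    S.sum lab u - lab g + l ≠ C1 + lab g ∧ S.sum lab u - lab g + l ≠ C2 + lab g

/-- small sum -/
def PSG.isLow (S : PSG F W I p) (L : Pools) (lab : F → ℕ) (w : W) : Prop :=
  w ∈ S.lowv ∧ S.rsum lab w ≤ L.bb

open Classical in
/-- The output: `T`, labels `lab` of the slots of the parts in `Im`, high gadgets `Gd true`, low gadgets
`Gd false`. `q j` = number of valid gadgets of class `j` for every test, `B` = bound for the number of high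
gadgets with a given key (at most `3` low gadgets have a given key). -/
structure OutG (S : PSG F W I p) (L : Pools) (Sp : Finset F) (T : Finset (ZMod p)) (lab : F → ℕ)
    (Im : Finset I) (Gd : Bool → Finset F) (q : Bool → ℝ) (B : ℕ) : Prop where
  memH : ∀ f, S.pt f ∈ Im → S.kd f = 0 → L.loH ≤ lab f ∧ lab f < L.loH + L.NH
  memL : ∀ f, S.pt f ∈ Im → S.kd f ≠ 0 → L.loL ≤ lab f ∧ lab f < L.loL + L.NL
  inj : ∀ f f', S.pt f ∈ Im → S.pt f' ∈ Im → lab f = lab f' → f = f'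
  sinj : ∀ w w', S.vp w ∈ Im → S.vp w' ∈ Im → (S.isLow L lab w ↔ S.isLow L lab w') →
    S.sum lab w = S.sum lab w' → w = w'
  nT : ∀ w, S.vp w ∈ Im → S.sum lab w ∉ T
  star3 : ∀ w, S.vp w ∈ Im → S.isS3 w → L.aa < S.rsum lab w ∧ S.rsum lab w ≤ L.bb
  star4 : ∀ w, S.vp w ∈ Im → S.isS4 w → L.aa < S.rsum lab w
  gsub : ∀ j, Gd j ⊆ Sp
  gIm : ∀ j, ∀ g ∈ Gd j, S.pt g ∈ Im
  gH : ∀ g ∈ Gd true, S.kd g = 0
  gL : ∀ g ∈ Gd false, S.kd g ≠ 0 ∧ L.aa < 2 * lab g
  gstar : ∀ g ∈ Gd false, ∀ u ∈ S.en g, (S.isS3 u ∨ S.isS4 u) → L.aa + lab g < S.rsum lab u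
  key : ∀ (j : Bool) (y : ZMod p),
    ((Gd j).filter fun g => ∃ u ∈ S.en g, S.sum lab u - lab g = y).card ≤
      if j = true then B else 3
  test : ∀ (j : Bool) (C1 C2 l : ZMod p),
    q j ≤ ((Gd j).filter fun g => VdG S T lab C1 C2 l g).card

end

end Pool.Agent.AMH
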