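import Pool.Agent.AMH.Sys
import Pool.Agent.AME.Defs

/-!
# From part systems to systems of parts (`AME.GSys`): definitions

Virtual labels: a high label `a` is represented by `a - loH + 1` in `[1, NH]`, a low label by
`a - loL + 1 + NH` in `[NH + 1, NH + NL]`. `ι` numbers the slots of a part, `Ik` = the kept parts.
-/

set_option autoImplicit false
set_option linter.unusedSectionVars false
set_option linter.unusedVariables false

namespace Pool.Agent.AMH

open Finset
open Pool.Agent.AME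
open Pool.Agent.AMA (Frm val)

variable {F W I : Type} [Fintype F] [DecidableEq F] [Fintype W] [DecidableEq W] [Fintype I]
  [DecidableEq I] {p : ℕ} {s : ℕ}

/-- label minus virtual label modulo `p` -/
def sh (L : Pools) (p : ℕ) (k : Kn) : ZMod p :=
  if k = 0 then (L.loH : ZMod p) - 1 else (L.loL : ZMod p) - 1 - L.NH

/-- the label of the virtual label `x` -/
def rl (L : Pools) (k : Kn) (x : ℕ) : ℕ := if k = 0 then x + L.loH - 1 else x + L.loL - 1 - L.NH

/-- offset of a vertex form -/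
def goff (S : PSG F W I p) (L : Pools) (w : W) : ℕ :=
  (S.c w + ∑ f ∈ S.slots w, sh L p (S.kd f)).val

/-- form of a vertex -/
def gfm (S : PSG F W I p) (L : Pools) (ι : F → Fin s) (w : W) : Frm s :=
  ((S.slots w).image ι, goff S L w)

/-- form of a gadget end without the gadget slot -/
def gfb (S : PSG F W I p) (L : Pools) (ι : F → Fin s) (f : F) (u : W) : Frm s :=
  (((S.slots u).erase f).image ι, goff S L u)

/-- the sum at `w` for the virtual labels `x` of its part -/
def rs (S : PSG F W I p) (L : Pools) (ι : F → Fin s) (w : W) (x : Fin s → ℕ) : ℕ :=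
  S.cr w + ∑ f ∈ S.slots w, rl L (S.kd f) (x (ι f))

open Classical in
/-- the system of parts -/
noncomputable def gsys (S : PSG F W I p) (L : Pools) (ι : F → Fin s) (Ik : Finset I)
    (Sp : Finset F) : GSys I Kn s where
  Z := {(2 * sh L p 0).val, (sh L p 0 + sh L p 1).val}
  kd i j := if h : i ∈ Ik ∧ ∃ f, S.pt f = i ∧ ι f = j then some (S.kd h.2.choose) else none
  S i := if i ∈ Ik then (univ.filter fun w => S.vp w = i).image (gfm S L ι) else ∅
  tg i φ x := decide (¬ ∃ w, S.vp w = i ∧ gfm S L ι w = φ ∧ w ∈ S.lowv ∧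
    (S.isS3 w ∨ rs S L ι w x ≤ L.bb))
  Gd i := if i ∈ Ik then
    (Sp.filter fun f => S.pt f = i).image fun f => (ι f, (S.en f).image (gfb S L ι f)) else ∅
  Ex i x := i ∈ Ik → ∀ w, S.vp w = i →
    (S.isS3 w → L.aa < rs S L ι w x ∧ rs S L ι w x ≤ L.bb) ∧ (S.isS4 w → L.aa < rs S L ι w x)

open Classical in
/-- the conditions on the gadgets of the two classes -/
def gGW (S : PSG F W I p) (L : Pools) (ι : F → Fin s) (Ik : Finset I) (Sp : Finset F) (j : Bool)
    (i : I) (t : Fin s) (x : Fin s → ℕ) : Prop :=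
  ∃ f ∈ Sp, S.pt f = i ∧ ι f = t ∧ (S.kd f = 0 ↔ j = true) ∧
    (j = false → L.aa < 2 * rl L (S.kd f) (x t) ∧
      ∀ u ∈ S.en f, (S.isS3 u ∨ S.isS4 u) → L.aa + rl L (S.kd f) (x t) < rs S L ι u x)

/-- bundle of the hypotheses -/
structure GB (S : PSG F W I p) (ι : F → Fin s) (Sp : Finset F) (k B : ℕ) : Prop where
  ok : S.Ok k B Sp
  inj : ∀ f f', S.pt f = S.pt f' → ι f = ι f' → f = f'

variable {S : PSG F W I p} {L : Pools} {ι : F → Fin s} {Ik : Finset I} {Sp : Finset F} {k B : ℕ}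

theorem mem_slots {w : W} {f : F} : f ∈ S.slots w ↔ w ∈ S.en f := by
  simp [PSG.slots]

theorem GB.pt_of_mem (H : GB S ι Sp k B) {w : W} {f : F} (h : f ∈ S.slots w) :
    S.pt f = S.vp w := H.ok.vp_eq f w (mem_slots.1 h)

theorem gkd_some (H : GB S ι Sp k B) {f : F} (h : S.pt f ∈ Ik) :
    (gsys S L ι Ik Sp).kd (S.pt f) (ι f) = some (S.kd f) := by
  classical
  have h1 : S.pt f ∈ Ik ∧ ∃ g, S.pt g = S.pt f ∧ ι g = ι f := ⟨h, f, rfl, rfl⟩
  have h2 : (gsys S L ι Ik Sp).kd (S.pt f) (ι f) = some (S.kd h1.2.choose) := by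
    unfold gsys
    exact dif_pos h1
  rw [h2, H.inj _ _ h1.2.choose_spec.1 h1.2.choose_spec.2]

theorem gkd_eq_some (H : GB S ι Sp k B) {i : I} {j : Fin s} {κ : Kn} :
    (gsys S L ι Ik Sp).kd i j = some κ ↔ i ∈ Ik ∧ ∃ f, S.pt f = i ∧ ι f = j ∧ S.kd f = κ := by
  classical
  constructor
  · intro h
    by_cases h1 : i ∈ Ik ∧ ∃ f, S.pt f = i ∧ ι f = j
    · obtain ⟨hi, f, rfl, rfl⟩ := h1
      rw [gkd_some H hi] at h
      exact ⟨hi, f, rfl, rfl, Option.some.inj h⟩
    · have h2 : (gsys S L ι Ik Sp).kd i j = none := by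
        unfold gsys
        exact dif_neg h1
      rw [h2] at h
      exact absurd h (by simp)
  · rintro ⟨hi, f, rfl, rfl, rfl⟩
    exact gkd_some H hi

theorem gkd_ne (H : GB S ι Sp k B) {i : I} {j : Fin s} :
    (gsys S L ι Ik Sp).kd i j ≠ none ↔ i ∈ Ik ∧ ∃ f, S.pt f = i ∧ ι f = j := by
  constructor
  · intro h
    obtain ⟨κ, hκ⟩ := Option.ne_none_iff_exists'.1 h
    obtain ⟨hi, f, h1, h2, _⟩ := (gkd_eq_some H).1 hκ
    exact ⟨hi, f, h1, h2⟩
  · rintro ⟨hi, f, h1, h2⟩ h
    rw [(gkd_eq_some H).2 ⟨hi, f, h1, h2, rfl⟩] at h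
    exact absurd h (by simp)

theorem mem_gS {i : I} {φ : Frm s} :
    φ ∈ (gsys S L ι Ik Sp).S i ↔ i ∈ Ik ∧ ∃ w, S.vp w = i ∧ gfm S L ι w = φ := by
  classical
  unfold gsys
  simp only
  split_ifs with h
  · simp [h]
  · simp [h]

theorem mem_gGd {i : I} {g : Fin s × Finset (Frm s)} :
    g ∈ (gsys S L ι Ik Sp).Gd i ↔
      i ∈ Ik ∧ ∃ f ∈ Sp, S.pt f = i ∧ g = (ι f, (S.en f).image (gfb S L ι f)) := by
  classical
  unfold gsys
  simp only
  split_ifs with h
  · simp only [mem_image, mem_filter, h, true_and]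
    constructor
    · rintro ⟨f, ⟨h1, h2⟩, h3⟩
      exact ⟨f, h1, h2, h3.symm⟩
    · rintro ⟨f, h1, h2, h3⟩
      exact ⟨f, ⟨h1, h2⟩, h3.symm⟩
  · simp [h]

theorem GB.image_inj (H : GB S ι Sp k B) {A A' : Finset F} {i : I}
    (hA : ∀ f ∈ A, S.pt f = i) (hA' : ∀ f ∈ A', S.pt f = i) (h : A.image ι = A'.image ι) :
    A = A' := by
  have key : ∀ X Y : Finset F, (∀ f ∈ X, S.pt f = i) → (∀ f ∈ Y, S.pt f = i) →
      X.image ι = Y.image ι → X ⊆ Y := by
    intro X Y hX hY h f hf
    have h1 : ι f ∈ Y.image ι := h ▸ mem_image_of_mem ι hf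
    obtain ⟨g, hg, hgf⟩ := mem_image.1 h1
    have : g = f := H.inj g f ((hY g hg).trans (hX f hf).symm) hgf
    rwa [this] at hg
  exact subset_antisymm (key A A' hA hA' h) (key A' A hA' hA h.symm)

theorem GB.card_image (H : GB S ι Sp k B) {A : Finset F} {i : I}
    (hA : ∀ f ∈ A, S.pt f = i) : (A.image ι).card = A.card := by
  refine card_image_of_injOn ?_
  intro f hf g hg h
  exact H.inj f g ((hA f hf).trans (hA g hg).symm) h

theorem GB.fm_card (H : GB S ι Sp k B) (w : W) :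
    (gfm S L ι w).1.card = (S.slots w).card := by
  exact H.card_image fun f hf => H.pt_of_mem hf

theorem GB.fb_card (H : GB S ι Sp k B) {f : F} {u : W} (hu : u ∈ S.en f) :
    (gfb S L ι f u).1.card = (S.slots u).card - 1 := by
  have h1 := H.card_image (A := (S.slots u).erase f) (i := S.vp u)
    fun g hg => H.pt_of_mem (mem_of_mem_erase hg)
  have h2 : (gfb S L ι f u).1 = ((S.slots u).erase f).image ι := rfl
  rw [h2, h1, card_erase_of_mem (mem_slots.2 hu)]

theorem GB.fm_inj (H : GB S ι Sp k B) {w w' : W} (hv : S.vp w = S.vp w')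
    (h : (gfm S L ι w).1 = (gfm S L ι w').1) : w = w' := by
  by_contra hne
  refine H.ok.slots_ne w w' hne (H.image_inj (i := S.vp w) (fun f hf => H.pt_of_mem hf)
    (fun f hf => (H.pt_of_mem hf).trans hv.symm) h)

theorem GB.fb_ne_fm (H : GB S ι Sp k B) {f : F} (hf : f ∈ Sp) {u w : W}
    (hu : u ∈ S.en f) (hw : S.vp w = S.pt f) : (gfm S L ι w).1 ≠ (gfb S L ι f u).1 := by
  intro h
  have hpu : S.pt f = S.vp u := H.ok.vp_eq f u hu
  refine H.ok.star f hf u hu w (H.image_inj (i := S.pt f) (fun g hg => ?_) (fun g hg => ?_) h)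
  · exact (H.pt_of_mem hg).trans hw
  · exact (H.pt_of_mem (mem_of_mem_erase hg)).trans hpu.symm

theorem GB.gad_eq (H : GB S ι Sp k B) {f g : F} (hf : f ∈ Sp) (hg : g ∈ Sp)
    {u : W} (hu : u ∈ S.en f) (hv : u ∈ S.en g) : f = g := by
  by_contra hne
  exact (Finset.disjoint_left.1 (H.ok.disj f hf g hg hne)) hu hv

theorem GB.fb_keys (H : GB S ι Sp k B) {f g : F} (hf : f ∈ Sp) (hg : g ∈ Sp)
    (hp : S.pt f = S.pt g) {u v : W} (hu : u ∈ S.en f) (hv : v ∈ S.en g)
    (h : (gfb S L ι f u).1 = (gfb S L ι g v).1) (hne : (gfb S L ι f u).1.Nonempty) :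
    u = v ∧ f = g := by
  have hpu : S.pt f = S.vp u := H.ok.vp_eq f u hu
  have hpv : S.pt g = S.vp v := H.ok.vp_eq g v hv
  have h1 : (S.slots u).erase f = (S.slots v).erase g := by
    refine H.image_inj (i := S.pt f) (fun x hx => ?_) (fun x hx => ?_) h
    · exact (H.pt_of_mem (mem_of_mem_erase hx)).trans hpu.symm
    · exact (H.pt_of_mem (mem_of_mem_erase hx)).trans (hp.trans hpv).symm
  by_cases huv : u = v
  · subst huv
    exact ⟨rfl, H.gad_eq hf hg hu hv⟩
  · exfalso
    have h2 := H.ok.keys f hf g hg u hu v hv huv h1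
    rw [gfb] at hne
    simp only at hne
    rw [h2] at hne
    simp at hne

theorem GB.insert_fb (H : GB S ι Sp k B) {f : F} {u : W} (hu : u ∈ S.en f) :
    (insert (ι f) (gfb S L ι f u).1, (gfb S L ι f u).2) = gfm S L ι u := by
  have : insert (ι f) (((S.slots u).erase f).image ι) = (S.slots u).image ι := by
    rw [← image_insert, insert_erase (mem_slots.2 hu)]
  simp only [gfb, gfm, this]

theorem GB.notMem_fb (H : GB S ι Sp k B) {f : F} {u : W} (hu : u ∈ S.en f) :
    ι f ∉ (gfb S L ι f u).1 := by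
  intro h
  obtain ⟨g, hg, hgf⟩ := mem_image.1 h
  have h1 := H.pt_of_mem (mem_of_mem_erase hg)
  have h2 := H.ok.vp_eq f u hu
  have : g = f := H.inj g f (h1.trans h2.symm) hgf
  exact (ne_of_mem_erase hg) this

theorem Sys2_cardP {w : W} (h : S.isP w) : (S.slots w).card = 2 := by
  obtain ⟨f, g, hfg, hf, hg⟩ := h
  have hne : f ≠ g := by
    rintro rfl
    rw [hf] at hg
    exact absurd hg (by decide)
  rw [hfg, card_pair hne]

theorem Sys2_cardS3 {w : W} (h : S.isS3 w) : (S.slots w).card = 3 := by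
  obtain ⟨f, g, e, hfg, hf, hg, he⟩ := h
  have h1 : f ≠ g := by
    rintro rfl
    rw [hf] at hg
    exact absurd hg (by decide)
  have h2 : f ≠ e := by
    rintro rfl
    rw [hf] at he
    exact absurd he (by decide)
  have h3 : g ≠ e := by
    rintro rfl
    rw [hg] at he
    exact absurd he (by decide)
  rw [hfg, card_eq_three]
  exact ⟨f, g, e, h1, h2, h3, rfl⟩

/-- number of slots of a vertex, by type -/
theorem GB.types_card (H : GB S ι Sp k B) (w : W) :
    (S.isR w ∧ (S.slots w).card = 1) ∨ (S.isD w ∧ 2 ≤ (S.slots w).card) ∨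
      (S.isP w ∧ (S.slots w).card = 2) ∨ (S.isS3 w ∧ (S.slots w).card = 3) ∨
      (S.isS4 w ∧ (S.slots w).card = 4) := by
  classical
  rcases H.ok.types w with h | h | h | h | h
  · refine Or.inl ⟨h, ?_⟩
    obtain ⟨f, hf, _⟩ := h
    rw [hf, card_singleton]
  · refine Or.inr (Or.inl ⟨h, h.1.trans ?_⟩)
    convert card_filter_le (S.slots w) (fun f => S.kd f = 0)
  · exact Or.inr (Or.inr (Or.inl ⟨h, Sys2_cardP h⟩))
  · exact Or.inr (Or.inr (Or.inr (Or.inl ⟨h, Sys2_cardS3 h⟩)))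
  · refine Or.inr (Or.inr (Or.inr (Or.inr ⟨h, ?_⟩)))
    obtain ⟨f, g, e, d, _, hc, _⟩ := h
    exact hc

/-- number of vertices of a part -/
theorem GB.card_vert (H : GB S ι Sp k B) (i : I) :
    (univ.filter fun w => S.vp w = i).card ≤ 2 * k := by
  classical
  have h1 : (univ.filter fun w => S.vp w = i) ⊆
      (univ.filter fun f => S.pt f = i).biUnion fun f => S.en f := by
    intro w hw
    rw [mem_filter] at hw
    have hne : (S.slots w).Nonempty := by
      rw [← card_pos]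
      rcases H.types_card w with h | h | h | h | h <;> omega
    obtain ⟨f, hf⟩ := hne
    rw [mem_biUnion]
    refine ⟨f, ?_, mem_slots.1 hf⟩
    rw [mem_filter]
    exact ⟨mem_univ _, (H.pt_of_mem hf).trans hw.2⟩
  refine (card_le_card h1).trans (card_biUnion_le.trans ?_)
  refine (sum_le_sum fun f _ => H.ok.en_le f).trans ?_
  rw [sum_const, smul_eq_mul, mul_comm]
  exact Nat.mul_le_mul_left 2 (by convert H.ok.part_le i)

/-- Every type excludes the others. -/
theorem GB.types_excl (H : GB S ι Sp k B) (w : W) :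
    ¬ (S.isR w ∧ S.isD w) ∧ ¬ (S.isR w ∧ S.isP w) ∧ ¬ (S.isD w ∧ S.isP w) ∧
    ¬ (S.isS3 w ∧ (S.isR w ∨ S.isD w ∨ S.isP w ∨ S.isS4 w)) ∧
    ¬ (S.isS4 w ∧ (S.isR w ∨ S.isD w ∨ S.isP w)) := by
  classical
  have hR : S.isR w → (S.slots w).card = 1 := by
    rintro ⟨f, hf, _⟩
    rw [hf, card_singleton]
  have hD : S.isD w → 2 ≤ (S.slots w).card := by
    intro h
    refine h.1.trans ?_
    convert card_filter_le (S.slots w) (fun f => S.kd f = 0)
  have hD0 : S.isD w → ∃ f g, f ∈ S.slots w ∧ g ∈ S.slots w ∧ f ≠ g ∧ S.kd f = 0 ∧ S.kd g = 0 := by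
    intro h
    obtain ⟨f, hf, g, hg, hfg⟩ := one_lt_card.1 (lt_of_lt_of_le one_lt_two h.1)
    rw [mem_filter] at hf hg
    exact ⟨f, g, hf.1, hg.1, hfg, hf.2, hg.2⟩
  have hS4 : S.isS4 w → (S.slots w).card = 4 := by
    rintro ⟨f, g, e, d, _, hc, _⟩
    exact hc
  refine ⟨?_, ?_, ?_, ?_, ?_⟩
  · rintro ⟨h1, h2⟩
    have := hR h1
    have := hD h2
    omega
  · rintro ⟨h1, h2⟩
    have := hR h1
    have := Sys2_cardP h2
    omega
  · rintro ⟨h1, h2⟩
    obtain ⟨a, b, ha, hb, hab, ha0, hb0⟩ := hD0 h1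
    obtain ⟨f, g, hfg, hf, hg⟩ := h2
    rw [hfg, mem_insert, mem_singleton] at ha hb
    rcases ha with rfl | rfl
    · rcases hb with rfl | rfl
      · exact hab rfl
      · rw [hg] at hb0
        exact absurd hb0 (by decide)
    · rw [hg] at ha0
      exact absurd ha0 (by decide)
  · rintro ⟨h1, h2⟩
    have h3 := Sys2_cardS3 h1
    rcases h2 with h2 | h2 | h2 | h2
    · have := hR h2
      omega
    · obtain ⟨a, b, ha, hb, hab, ha0, hb0⟩ := hD0 h2
      obtain ⟨f, g, e, hfg, hf, hg, he⟩ := h1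
      rw [hfg, mem_insert, mem_insert, mem_singleton] at ha
      rcases ha with rfl | rfl | rfl
      · rw [hf] at ha0
        exact absurd ha0 (by decide)
      · rw [hg] at ha0
        exact absurd ha0 (by decide)
      · rw [he] at ha0
        exact absurd ha0 (by decide)
    · have := Sys2_cardP h2
      omega
    · have := hS4 h2
      omega
  · rintro ⟨h1, h2⟩
    have h3 := hS4 h1
    rcases h2 with h2 | h2 | h2
    · have := hR h2
      omega
    · obtain ⟨a, b, ha, hb, hab, ha0, hb0⟩ := hD0 h2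
      obtain ⟨f, g, e, d, hfg, _, hf, hg, he, hd⟩ := h1
      rw [hfg, mem_insert, mem_insert, mem_insert, mem_singleton] at ha
      rcases ha with rfl | rfl | rfl | rfl
      · rw [hf] at ha0
        exact absurd ha0 (by decide)
      · rw [hg] at ha0
        exact absurd ha0 (by decide)
      · rw [he] at ha0
        exact absurd ha0 (by decide)
      · rw [hd] at ha0
        exact absurd ha0 (by decide)
    · have := Sys2_cardP h2
      omega

end Pool.Agent.AMH
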